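import Pool.Agent.H99.TG.Path
import Pool.Agent.CGA.AccG

/-!
# TG/Acc: exits near `T` give accessible boundary edges

As `path_to`, `sum_gx_le` in `Pool/Agent/CGA/AccG.lean` (finished); `acc_ge` there is general and is cited.
* `y ∉ T`, `y ∈ nb T n`: `t ∈ T` with `d t y ≤ n`; `path_edges' y t`: a path inside `B y n`; reverse it, last exit from `T`
  (`Reach.last_exit`): an edge `e ∈ cut T` from `u ∈ T` to `w' ∉ T`, both in `B y n`, and `w'` is joined to `y` off `T` with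
  at most `n` edges.
* for every `e` at most `|B o n|` points `y` have `G.a e ∈ B y n` (then `y ∈ B (a e) n`; `card_B`).
-/

namespace Pool.Agent.H99.TG

open Finset Pool.Agent.DLP Pool.Agent.CGA

variable {V E : Type} [DecidableEq V] [DecidableEq E] {G : Gr V E}

theorem path_to' (D : Geo G) {T : Finset V} {y : V} {n : ℕ} (hy : y ∉ T)
    (hyn : y ∈ D.nb T n) :
    ∃ e ∈ G.cut T, ∃ w, w ∉ T ∧ (G.a e = w ∨ G.b e = w) ∧ G.a e ∈ D.B y n ∧
      ∃ A : Finset E, A.card ≤ n ∧ G.Reach (↑A : Set E) {z | z ∉ T} w y := by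
  obtain ⟨t, ht, hty⟩ := (mem_nb D).1 hyn
  have h1 : D.d y t ≤ n := by
    rw [D.symm]
    exact hty
  obtain ⟨A, hAc, hAsub, hr⟩ := path_edges' D y t
  obtain ⟨e, he, u, w, hu, hw, hab, huU, hwU, -, hr2⟩ := hr.symm.last_exit ht hy
  refine ⟨e, ?_, w, hw, ?_, ?_, A, hAc.trans h1,
    hr2.mono (Set.Subset.refl _) Set.inter_subset_right⟩
  · rw [Gr.mem_cut]
    rcases hab with ⟨rfl, rfl⟩ | ⟨rfl, rfl⟩
    · exact Or.inl ⟨hu, hw⟩
    · exact Or.inr ⟨hw, hu⟩
  · rcases hab with ⟨rfl, rfl⟩ | ⟨rfl, rfl⟩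
    · exact Or.inr rfl
    · exact Or.inl rfl
  · rcases hab with ⟨rfl, rfl⟩ | ⟨rfl, rfl⟩
    · exact B_mono D y h1 (mem_coe.1 huU)
    · exact B_mono D y h1 (mem_coe.1 hwU)

theorem sum_gx_le' (D : Geo G) (o : V) {p : ℝ} (h0 : 0 < p) (h1 : p ≤ 1) (Λ T : Finset V)
    (n : ℕ) :
    ∑ y ∈ (D.nb T n).filter (fun y => y ∉ T), gx G p Λ T y ≤
      p⁻¹ ^ n * ((D.B o n).card : ℝ) * ∑ e ∈ G.cut T, G.acc p Λ T e := by
  classical
  have hacc : ∀ e, 0 ≤ G.acc p Λ T e := fun e => pr_nonneg h0.le h1 _ _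
  have hp : 0 < p ^ n := pow_pos h0 n
  have hpi : (0 : ℝ) ≤ p⁻¹ ^ n := by positivity
  have key : ∀ y ∈ (D.nb T n).filter (fun y => y ∉ T), gx G p Λ T y ≤
      p⁻¹ ^ n * ∑ e ∈ G.cut T, (if G.a e ∈ D.B y n then G.acc p Λ T e else 0) := by
    intro y hy
    rw [mem_filter] at hy
    obtain ⟨e, he, w, hw, hew, hae, A, hAc, hr⟩ := path_to' D hy.2 hy.1
    have h2 := acc_ge G h0.le h1 (Λ := Λ) hw hew hr
    have h3 : p ^ n * gx G p Λ T y ≤ G.acc p Λ T e :=
      (mul_le_mul_of_nonneg_right (pow_le_pow_of_le_one h0.le h1 hAc)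
        (gx_nonneg G h0.le h1 Λ T y)).trans h2
    have h4 : G.acc p Λ T e ≤
        ∑ e ∈ G.cut T, (if G.a e ∈ D.B y n then G.acc p Λ T e else 0) := by
      have h5 := single_le_sum (f := fun e => if G.a e ∈ D.B y n then G.acc p Λ T e else 0)
        (fun e _ => by
          show 0 ≤ if G.a e ∈ D.B y n then G.acc p Λ T e else 0
          split_ifs
          · exact hacc e
          · exact le_rfl) he
      simpa only [if_pos hae] using h5
    have h6 : gx G p Λ T y ≤ p⁻¹ ^ n * G.acc p Λ T e := by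
      rw [inv_pow, inv_mul_eq_div, le_div_iff₀ hp, mul_comm]
      exact h3
    exact h6.trans (mul_le_mul_of_nonneg_left h4 hpi)
  have hcount : ∀ e ∈ G.cut T,
      ∑ y ∈ (D.nb T n).filter (fun y => y ∉ T),
        (if G.a e ∈ D.B y n then G.acc p Λ T e else 0) ≤
      ((D.B o n).card : ℝ) * G.acc p Λ T e := by
    intro e _
    rw [← sum_filter, sum_const, nsmul_eq_mul]
    refine mul_le_mul_of_nonneg_right ?_ (hacc e)
    have h7 : (((D.nb T n).filter (fun y => y ∉ T)).filter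
        (fun y => G.a e ∈ D.B y n)).card ≤ (D.B o n).card := by
      rw [card_B D o (G.a e) n]
      refine card_le_card fun y hy => ?_
      rw [mem_filter, D.mem] at hy
      rw [D.mem, D.symm]
      exact hy.2
    exact_mod_cast h7
  calc ∑ y ∈ (D.nb T n).filter (fun y => y ∉ T), gx G p Λ T y
      ≤ ∑ y ∈ (D.nb T n).filter (fun y => y ∉ T),
          p⁻¹ ^ n * ∑ e ∈ G.cut T, (if G.a e ∈ D.B y n then G.acc p Λ T e else 0) :=
        sum_le_sum key
    _ = p⁻¹ ^ n * ∑ e ∈ G.cut T, ∑ y ∈ (D.nb T n).filter (fun y => y ∉ T),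
          (if G.a e ∈ D.B y n then G.acc p Λ T e else 0) := by
        rw [← mul_sum, sum_comm]
    _ ≤ p⁻¹ ^ n * ∑ e ∈ G.cut T, ((D.B o n).card : ℝ) * G.acc p Λ T e :=
        mul_le_mul_of_nonneg_left (sum_le_sum hcount) hpi
    _ = _ := by rw [← mul_sum, mul_assoc]

end Pool.Agent.H99.TG
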