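import Pool.Agent.H99.TG.Defs

/-!
# TG/Aut: invariance of the probabilities under automorphisms

Same proofs as `cp_sh`, `xt_sh`, `three_sh`, `card_inn_sh` in `Pool/Agent/CGA/TransG.lean` (there the
automorphism is a left translation): `pr_inn_autS`, `pr_touch_autS`, `reach_autS`, `inn_mapS`, `cut_mapS`,
`Finset.coe_map`, `pr_congr`. For `three_aut`: `vb G (R.map φ) = (vb G R).map φ` (`cut_mapS`, `φ.h`).
-/

namespace Pool.Agent.H99.TG

open Finset Pool.Agent.DLP Pool.Agent.CGA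

variable {V E : Type} [DecidableEq V] [DecidableEq E] {G : Gr V E}

private theorem aut_coe (φ : AutS G) (ω : Finset E) :
    (↑(ω.map φ.e.toEmbedding) : Set E) = φ.e '' (↑ω : Set E) :=
  Finset.coe_map _ _

private theorem aut_cov (φ : AutS G) (B : Finset V) :
    (↑(B.map φ.v.toEmbedding) : Set V) = φ.v '' (↑B : Set V) :=
  Finset.coe_map _ _

private theorem aut_mem (φ : AutS G) (B : Finset V) (z : V) :
    φ.v z ∈ B.map φ.v.toEmbedding ↔ z ∈ B :=
  Finset.mem_map' φ.v.toEmbedding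

private theorem aut_mem_e (φ : AutS G) (B : Finset E) (z : E) :
    φ.e z ∈ B.map φ.e.toEmbedding ↔ z ∈ B :=
  Finset.mem_map' φ.e.toEmbedding

private theorem aut_reach (φ : AutS G) (B : Finset V) (ω : Finset E) (x y : V) :
    G.Reach (↑(ω.map φ.e.toEmbedding) : Set E) (↑(B.map φ.v.toEmbedding) : Set V) (φ.v x)
      (φ.v y) ↔ G.Reach (↑ω : Set E) (↑B : Set V) x y := by
  rw [aut_coe, aut_cov]
  exact reach_autS φ _ _ x y

private theorem aut_vb (φ : AutS G) (R : Finset V) (z : V) :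
    φ.v z ∈ vb G (R.map φ.v.toEmbedding) ↔ z ∈ vb G R := by
  unfold vb
  rw [Finset.mem_filter, Finset.mem_filter, aut_mem, cut_mapS]
  refine and_congr_right fun _ => ?_
  constructor
  · rintro ⟨e, he, h⟩
    obtain ⟨e, rfl⟩ := φ.e.surjective e
    rw [aut_mem_e] at he
    refine ⟨e, he, ?_⟩
    rcases φ.h e with ⟨ha, hb⟩ | ⟨ha, hb⟩ <;> rw [ha, hb, φ.v.injective.eq_iff,
      φ.v.injective.eq_iff] at h
    · exact h
    · exact h.symm
  · rintro ⟨e, he, h⟩
    refine ⟨φ.e e, (aut_mem_e φ _ e).2 he, ?_⟩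
    rcases φ.h e with ⟨ha, hb⟩ | ⟨ha, hb⟩ <;> rw [ha, hb, φ.v.injective.eq_iff,
      φ.v.injective.eq_iff]
    · exact h
    · exact h.symm

private theorem aut_arm (φ : AutS G) (R : Finset V) (ω : Finset E) (x : V) :
    ArmT G (R.map φ.v.toEmbedding) (ω.map φ.e.toEmbedding) (φ.v x) ↔ ArmT G R ω x := by
  unfold ArmT
  constructor
  · rintro ⟨y, hy, h⟩
    obtain ⟨y, rfl⟩ := φ.v.surjective y
    exact ⟨y, (aut_vb φ R y).1 hy, (aut_reach φ R ω x y).1 h⟩
  · rintro ⟨y, hy, h⟩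
    exact ⟨φ.v y, (aut_vb φ R y).2 hy, (aut_reach φ R ω x y).2 h⟩

theorem cp_aut (φ : AutS G) (p : ℝ) (B : Finset V) (x y : V) :
    cp G p (B.map φ.v.toEmbedding) (φ.v x) (φ.v y) = cp G p B x y := by
  unfold CGA.cp
  rw [pr_inn_autS]
  exact pr_congr fun ω _ => aut_reach φ B ω x y

theorem xt_aut (φ : AutS G) (p : ℝ) (Λ : Finset V) (x : V) :
    xt G p (Λ.map φ.v.toEmbedding) (φ.v x) = xt G p Λ x := by
  unfold CGA.xt
  rw [pr_touch_autS]
  refine pr_congr fun ω _ => ?_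
  have hu : (Set.univ : Set V) = φ.v '' Set.univ :=
    (Set.image_univ_of_surjective φ.v.surjective).symm
  unfold Gr.Exit
  rw [aut_coe]
  constructor
  · rintro ⟨y, hy, h⟩
    obtain ⟨y, rfl⟩ := φ.v.surjective y
    refine ⟨y, fun h1 => hy ((aut_mem φ _ y).2 h1), ?_⟩
    rw [hu] at h
    exact (reach_autS φ _ _ x y).1 h
  · rintro ⟨y, hy, h⟩
    refine ⟨φ.v y, fun h1 => hy ((aut_mem φ _ y).1 h1), ?_⟩
    rw [hu]
    exact (reach_autS φ _ _ x y).2 h

theorem three_aut (φ : AutS G) (p : ℝ) (R : Finset V) (x₁ x₂ x₃ : V) :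
    pr p (G.inn (R.map φ.v.toEmbedding))
        (ThreeT G (R.map φ.v.toEmbedding) (φ.v x₁) (φ.v x₂) (φ.v x₃)) =
      pr p (G.inn R) (ThreeT G R x₁ x₂ x₃) := by
  rw [pr_inn_autS]
  refine pr_congr fun ω _ => ?_
  unfold ThreeT
  rw [aut_arm, aut_arm, aut_arm, aut_reach, aut_reach, aut_reach]

theorem card_inn_aut (φ : AutS G) (B : Finset V) :
    (G.inn (B.map φ.v.toEmbedding)).card = (G.inn B).card := by
  rw [inn_mapS, Finset.card_map]

end Pool.Agent.H99.TG
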