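import Pool.Agent.H99.TG.Defs

/-!
# TG/Basic: balls, spheres, degrees

* `countV`: if `V` is empty it is clear; otherwise `V = ⋃ n, B o n` (`D.mem`, `n = D.d o y`). `countE`: every edge is
  in `inc (a e)` (see `cay_countableE` in `Pool/Agent/CGA/CayB.lean`).
* `map_B`: extensionality: `φ.v` is surjective, `D.mem`.
* `card_B`, `card_S`, `inc_card'`: the automorphism of `D.act`; `Finset.card_map`; `inc_mapS`
  (`Pool/Agent/CGA/AutS.lean`).
* `card_cut_le'`: `cut B ⊆ touch B = ⋃ inc v` (as `card_cut_le` in `CGA/CayB`).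
* `vb_card_le`: every `x ∈ vb G R` has an edge of `cut R` with end point `x`; the other end point is not in
  `R`, so the choice is injective (as `bd_card_le` in `CGA/CayB`; `Gr.mem_cut`).
* `card_S_add`: every `y` at distance `m + n` from `x` has a point `z` with `d x z = m`, `d z y = n` (`gm_dist`
  or `exists_geod`), so `S x (m+n) ⊆ (S x m).biUnion (fun z => S z n)`, `card_S`.
* `S_nonempty`: `V` is infinite and `B x n` is finite, so there is `y` with `n < d x y`; `gm D x y n` has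
  distance `n` from `x`.
-/

namespace Pool.Agent.H99.TG

open Finset Pool.Agent.DLP Pool.Agent.CGA

variable {V E : Type} [DecidableEq V] [DecidableEq E] {G : Gr V E}

theorem mem_S (D : Geo G) {x y : V} {n : ℕ} : y ∈ D.S x n ↔ D.d x y = n := by
  unfold Geo.S
  rw [mem_filter, D.mem]
  exact ⟨fun h => h.2, fun h => ⟨h.le, h⟩⟩

theorem mem_nb (D : Geo G) {T : Finset V} {z : V} {n : ℕ} :
    z ∈ D.nb T n ↔ ∃ t ∈ T, D.d t z ≤ n := by
  unfold Geo.nb
  rw [mem_biUnion]
  exact ⟨fun ⟨t, ht, h⟩ => ⟨t, ht, (D.mem _ _ _).1 h⟩, fun ⟨t, ht, h⟩ => ⟨t, ht, (D.mem _ _ _).2 h⟩⟩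

theorem B_mono (D : Geo G) (x : V) {m n : ℕ} (h : m ≤ n) : D.B x m ⊆ D.B x n := fun y hy =>
  (D.mem _ _ _).2 (((D.mem _ _ _).1 hy).trans h)

theorem self_mem_B (D : Geo G) (x : V) (n : ℕ) : x ∈ D.B x n := by
  rw [D.mem, D.self]
  exact Nat.zero_le n

theorem countV (D : Geo G) : Countable V := by
  rcases isEmpty_or_nonempty V with h | ⟨⟨o⟩⟩
  · exact Finite.to_countable
  · have h : (Set.univ : Set V) ⊆ ⋃ n : ℕ, (↑(D.B o n) : Set V) := fun y _ =>
      Set.mem_iUnion.2 ⟨D.d o y, Finset.mem_coe.2 ((D.mem _ _ _).2 le_rfl)⟩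
    exact Set.countable_univ_iff.1
      ((Set.countable_iUnion fun n => (D.B o n).countable_toSet).mono h)

theorem countE (D : Geo G) : Countable E := by
  have := countV D
  have h : (Set.univ : Set E) ⊆ ⋃ g : V, (↑(G.inc g) : Set E) := fun e _ =>
    Set.mem_iUnion.2 ⟨G.a e, by
      rw [Finset.mem_coe, G.mem_inc]
      exact Or.inl rfl⟩
  exact Set.countable_univ_iff.1
    ((Set.countable_iUnion fun n => (G.inc n).countable_toSet).mono h)

theorem map_B (D : Geo G) (φ : AutS G) (hφ : ∀ u w, D.d (φ.v u) (φ.v w) = D.d u w) (x : V)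
    (n : ℕ) : D.B (φ.v x) n = (D.B x n).map φ.v.toEmbedding := by
  ext y
  obtain ⟨y, rfl⟩ := φ.v.surjective y
  have h1 : φ.v y ∈ (D.B x n).map φ.v.toEmbedding ↔ y ∈ D.B x n :=
    Finset.mem_map' φ.v.toEmbedding
  rw [h1, D.mem, D.mem, hφ]

theorem card_B (D : Geo G) (x y : V) (n : ℕ) : (D.B x n).card = (D.B y n).card := by
  obtain ⟨φ, hxy, hφ⟩ := D.act x y
  rw [← hxy, map_B D φ hφ, card_map]

theorem card_S (D : Geo G) (x y : V) (n : ℕ) : (D.S x n).card = (D.S y n).card := by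
  obtain ⟨φ, hxy, hφ⟩ := D.act x y
  have h : D.S y n = (D.S x n).map φ.v.toEmbedding := by
    ext w
    obtain ⟨w, rfl⟩ := φ.v.surjective w
    have h1 : φ.v w ∈ (D.S x n).map φ.v.toEmbedding ↔ w ∈ D.S x n :=
      Finset.mem_map' φ.v.toEmbedding
    rw [h1, mem_S, mem_S, ← hxy, hφ]
  rw [h, card_map]

theorem inc_card' (D : Geo G) (x y : V) : (G.inc x).card = (G.inc y).card := by
  obtain ⟨φ, hxy, -⟩ := D.act x y
  rw [← hxy, inc_mapS, card_map]

theorem card_cut_le' (D : Geo G) (x : V) (B : Finset V) :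
    (G.cut B).card ≤ (G.inc x).card * B.card := by
  refine (card_le_card (G.cut_subset_touch B)).trans ?_
  unfold Gr.touch
  refine card_biUnion_le.trans ?_
  rw [sum_congr rfl fun v _ => inc_card' D v x, sum_const, smul_eq_mul, mul_comm]

theorem vb_card_le (R : Finset V) : (vb G R).card ≤ (G.cut R).card := by
  classical
  have h : ∀ x ∈ vb G R, x ∈ R ∧ ∃ e ∈ G.cut R,
      (G.a e = x ∧ G.b e ∉ R) ∨ (G.b e = x ∧ G.a e ∉ R) := by
    intro x hx
    unfold vb at hx
    rw [mem_filter] at hx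
    obtain ⟨hxR, e, he, hxe⟩ := hx
    refine ⟨hxR, e, he, ?_⟩
    rcases (Gr.mem_cut G).1 he with ⟨h1, h2⟩ | ⟨h1, h2⟩
    · rcases hxe with h3 | h3
      · exact Or.inl ⟨h3, h2⟩
      · exact absurd (h3 ▸ hxR) h2
    · rcases hxe with h3 | h3
      · exact absurd (h3 ▸ hxR) h1
      · exact Or.inr ⟨h3, h1⟩
  rcases (vb G R).eq_empty_or_nonempty with h0 | ⟨x₀, hx₀⟩
  · rw [h0, card_empty]
    exact Nat.zero_le _
  have : Nonempty E := ⟨(h x₀ hx₀).2.choose⟩
  choose! hR f hf hf2 using h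
  refine card_le_card_of_injOn f (fun x hx => hf x hx) ?_
  intro x hx y hy hxy
  have hxR : x ∈ R := hR x hx
  have hyR : y ∈ R := hR y hy
  have h1 := hf2 x hx
  have h2 := hf2 y hy
  rw [← hxy] at h2
  rcases h1 with ⟨a1, b1⟩ | ⟨a1, b1⟩ <;> rcases h2 with ⟨a2, b2⟩ | ⟨a2, b2⟩
  · rw [← a1, a2]
  · exact absurd (by rw [a1]; exact hxR) b2
  · exact absurd (by rw [a1]; exact hxR) b2
  · rw [← a1, a2]

theorem card_S_add (D : Geo G) (x : V) (m n : ℕ) :
    (D.S x (m + n)).card ≤ (D.S x m).card * (D.S x n).card := by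
  have hsub : D.S x (m + n) ⊆ (D.S x m).biUnion (fun z => D.S z n) := by
    intro y hy
    rw [mem_S] at hy
    rw [mem_biUnion]
    refine ⟨gm D x y m, ?_, ?_⟩
    · rw [mem_S]
      have h1 := gm_dist D x y (Nat.zero_le m) (by omega)
      rw [gm_zero] at h1
      omega
    · rw [mem_S]
      have h1 := gm_dist D x y (show m ≤ D.d x y by omega) le_rfl
      rw [gm_end] at h1
      omega
  refine (card_le_card hsub).trans (card_biUnion_le.trans ?_)
  rw [sum_congr rfl fun z _ => card_S D z x n, sum_const, smul_eq_mul]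

theorem S_nonempty (D : Geo G) [Infinite V] (x : V) (n : ℕ) : (D.S x n).Nonempty := by
  obtain ⟨y, hy⟩ := Infinite.exists_notMem_finset (D.B x n)
  rw [D.mem, not_le] at hy
  refine ⟨gm D x y n, ?_⟩
  rw [mem_S]
  have h1 := gm_dist D x y (Nat.zero_le n) hy.le
  rw [gm_zero] at h1
  omega

end Pool.Agent.H99.TG
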