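import Pool.Agent.H99.TG.Three

/-!
# TG/Tau: the two point function is bounded below

As `Pool/Agent/CGA/TauG.lean` (finished).
* `arm_ge'`: `Exit Λ ω univ x` implies `ArmT G Λ ω x` (`Reach.first_exit`: the last vertex `u` before the exit is an
  end point of an edge of `cut Λ`, so `u ∈ vb G Λ`).
* `dichotomy'`: `three_small'` with `ε = θ³/4`, Harris, as in `CGA`.
* `tau_pos'`: if for all `x y` there is `Λ` with `θ³/4 ≤ cp Λ x y` take `c = θ³/4`. Otherwise fix `x₀ y₀` with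
  `cp Λ x₀ y₀ < θ³/4` for all `Λ`, `n = D.d x₀ y₀`, `c = p^n θ³/4`. For every `z`: dichotomy for `x₀ y₀ z`: either
  `θ³/4 ≤ cp Λ x₀ z` or `θ³/4 ≤ cp Λ y₀ z`, and then `cp (B x₀ n ∪ Λ) x₀ z ≥ p^n θ³/4` (`cp_path'`, `cp_trans`). For a general
  pair `x y`: the automorphism `φ` of `D.act x₀ x`, `z = φ.v.symm y`, `cp_aut`.
* `exists_radius'`: fix a base point `o` (if `V` is empty nothing to prove); for every `y ∈ B o l` choose `Λ_y` and a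
  radius with `Λ_y ⊆ B o R_y` (finite sets are bounded), `R` = maximum (`cp_mono`); for a general pair the automorphism
  of `D.act o x`, `map_B`, `cp_aut`.
-/

namespace Pool.Agent.H99.TG

open Finset Pool.Agent.DLP Pool.Agent.CGA

variable {V E : Type} [DecidableEq V] [DecidableEq E] {G : Gr V E}

theorem tau_dep_arm (Λ : Finset V) (x : V) :
    Dep (↑(G.inn Λ) : Set E) (fun ω => ArmT G Λ ω x) := by
  intro ω ω' h
  have h1 : ∀ y, G.Reach (↑ω : Set E) (↑Λ : Set V) x y = G.Reach (↑ω' : Set E) (↑Λ : Set V) x y :=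
    fun y => Gr.dep_reach G Λ x y ω ω' h
  show ArmT G Λ ω x = ArmT G Λ ω' x
  unfold ArmT
  simp only [h1]

theorem tau_arm_mono {Λ : Finset V} {x : V} {ω ω' : Finset E} (h : ω ⊆ ω')
    (hA : ArmT G Λ ω x) : ArmT G Λ ω' x := by
  obtain ⟨y, hy, hr⟩ := hA
  exact ⟨y, hy, hr.mono (Finset.coe_subset.2 h) (Set.Subset.refl _)⟩

theorem arm_ge' {p : ℝ} (h0 : 0 ≤ p) (h1 : p ≤ 1) {Λ : Finset V} {x : V}
    (hx : x ∈ Λ) : xt G p Λ x ≤ pr p (G.inn Λ) (fun ω => ArmT G Λ ω x) := by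
  have h2 : pr p (G.inn Λ) (fun ω => ArmT G Λ ω x) =
      pr p (G.touch Λ) (fun ω => ArmT G Λ ω x) := by
    refine pr_dep (tau_dep_arm Λ x) fun i hi => ?_
    have hi' : i ∈ G.inn Λ := mem_coe.1 hi
    exact ⟨fun _ => (Finset.mem_filter.1 hi').1, fun _ => hi'⟩
  rw [h2]
  unfold xt
  refine pr_mono h0 h1 fun ω _ hE => ?_
  obtain ⟨y, hy, hr⟩ := hE
  obtain ⟨e, he, u, w, hu, hw, hab, -, -, hr1, -⟩ := hr.first_exit hx hy
  refine ⟨u, ?_, hr1.mono (Set.Subset.refl _) Set.inter_subset_right⟩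
  unfold vb
  rw [Finset.mem_filter]
  refine ⟨hu, e, ?_, ?_⟩
  · rw [Gr.mem_cut]
    rcases hab with ⟨ha, hb⟩ | ⟨ha, hb⟩
    · left
      rw [ha, hb]
      exact ⟨hu, hw⟩
    · right
      rw [ha, hb]
      exact ⟨hw, hu⟩
  · rcases hab with ⟨ha, hb⟩ | ⟨ha, hb⟩
    · exact Or.inl ha
    · exact Or.inr hb

theorem dichotomy' (D : Geo G) (hF : Fol G) {p θ : ℝ} (h0 : 0 < p) (h1 : p ≤ 1)
    (hθ : 0 < θ) (hx : ∀ Λ : Finset V, ∀ x ∈ Λ, θ ≤ xt G p Λ x) (x y z : V) :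
    ∃ Λ : Finset V, θ ^ 3 / 4 ≤ cp G p Λ x y ∨ θ ^ 3 / 4 ≤ cp G p Λ x z ∨
      θ ^ 3 / 4 ≤ cp G p Λ y z := by
  obtain ⟨Λ, hm1, hmu, hmv, hT⟩ := three_small' D hF h0 h1 x y z (ε := θ ^ 3 / 4) (by positivity)
  refine ⟨Λ, ?_⟩
  by_contra hcon
  push Not at hcon
  obtain ⟨hc1, hc2, hc3⟩ := hcon
  have ha : ∀ x ∈ Λ, θ ≤ pr p (G.inn Λ) (fun ω => ArmT G Λ ω x) := fun x hxΛ =>
    (hx Λ x hxΛ).trans (arm_ge' h0.le h1 hxΛ)
  have hh1 := harris_pr (p := p) h0.le h1 (G.inn Λ) (A := fun ω => ArmT G Λ ω x)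
    (B := fun ω => ArmT G Λ ω y) (fun ω ω' h => tau_arm_mono h) (fun ω ω' h => tau_arm_mono h)
  have hh2 := harris_pr (p := p) h0.le h1 (G.inn Λ)
    (A := fun ω => ArmT G Λ ω x ∧ ArmT G Λ ω y) (B := fun ω => ArmT G Λ ω z)
    (fun ω ω' h hA => ⟨tau_arm_mono h hA.1, tau_arm_mono h hA.2⟩)
    (fun ω ω' h => tau_arm_mono h)
  have h3 : θ * θ * θ ≤ pr p (G.inn Λ)
      (fun ω => (ArmT G Λ ω x ∧ ArmT G Λ ω y) ∧ ArmT G Λ ω z) := by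
    refine le_trans ?_ hh2
    refine mul_le_mul ?_ (ha z hmv) hθ.le (pr_nonneg h0.le h1 _ _)
    exact le_trans (mul_le_mul (ha x hm1) (ha y hmu) hθ.le (pr_nonneg h0.le h1 _ _)) hh1
  have h4 : pr p (G.inn Λ) (fun ω => (ArmT G Λ ω x ∧ ArmT G Λ ω y) ∧ ArmT G Λ ω z) ≤
      pr p (G.inn Λ) (fun ω => ThreeT G Λ x y z ω ∨
        (G.Reach (↑ω : Set E) (↑Λ : Set V) x y ∨ (G.Reach (↑ω : Set E) (↑Λ : Set V) x z ∨
          G.Reach (↑ω : Set E) (↑Λ : Set V) y z))) := by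
    refine pr_mono h0.le h1 ?_
    rintro ω _ ⟨⟨hA1, hA2⟩, hA3⟩
    by_cases hr1 : G.Reach (↑ω : Set E) (↑Λ : Set V) x y
    · exact Or.inr (Or.inl hr1)
    by_cases hr2 : G.Reach (↑ω : Set E) (↑Λ : Set V) x z
    · exact Or.inr (Or.inr (Or.inl hr2))
    by_cases hr3 : G.Reach (↑ω : Set E) (↑Λ : Set V) y z
    · exact Or.inr (Or.inr (Or.inr hr3))
    exact Or.inl ⟨hA1, hA2, hA3, hr1, hr2, hr3⟩
  have h5 := pr_or_le (p := p) h0.le h1 (G.inn Λ) (ThreeT G Λ x y z)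
    (fun ω => G.Reach (↑ω : Set E) (↑Λ : Set V) x y ∨ (G.Reach (↑ω : Set E) (↑Λ : Set V) x z ∨
          G.Reach (↑ω : Set E) (↑Λ : Set V) y z))
  have h6 := pr_or_le (p := p) h0.le h1 (G.inn Λ)
    (fun ω => G.Reach (↑ω : Set E) (↑Λ : Set V) x y)
    (fun ω => G.Reach (↑ω : Set E) (↑Λ : Set V) x z ∨ G.Reach (↑ω : Set E) (↑Λ : Set V) y z)
  have h7 := pr_or_le (p := p) h0.le h1 (G.inn Λ)
    (fun ω => G.Reach (↑ω : Set E) (↑Λ : Set V) x z)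
    (fun ω => G.Reach (↑ω : Set E) (↑Λ : Set V) y z)
  have e1 : cp G p Λ x y = pr p (G.inn Λ) (fun ω => G.Reach (↑ω : Set E) (↑Λ : Set V) x y) := rfl
  have e2 : cp G p Λ x z = pr p (G.inn Λ) (fun ω => G.Reach (↑ω : Set E) (↑Λ : Set V) x z) := rfl
  have e3 : cp G p Λ y z = pr p (G.inn Λ) (fun ω => G.Reach (↑ω : Set E) (↑Λ : Set V) y z) := rfl
  rw [← e1] at h6
  rw [← e2, ← e3] at h7
  have h8 : θ ^ 3 = θ * θ * θ := by ring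
  linarith

theorem tau_pos' (D : Geo G) (hF : Fol G) {p θ : ℝ} (h0 : 0 < p) (h1 : p ≤ 1)
    (hθ : 0 < θ) (hx : ∀ Λ : Finset V, ∀ x ∈ Λ, θ ≤ xt G p Λ x) :
    ∃ c : ℝ, 0 < c ∧ ∀ x y : V, ∃ Λ : Finset V, c ≤ cp G p Λ x y := by
  have hδ : 0 < θ ^ 3 / 4 := by positivity
  by_cases hall : ∀ x y : V, ∃ Λ : Finset V, θ ^ 3 / 4 ≤ cp G p Λ x y
  · exact ⟨_, hδ, hall⟩
  push Not at hall
  obtain ⟨x₀, y₀, hu₀⟩ := hall
  refine ⟨p ^ D.d x₀ y₀ * (θ ^ 3 / 4), by positivity, fun x y => ?_⟩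
  obtain ⟨φ, hφ, -⟩ := D.act x₀ x
  have hz : φ.v (φ.v.symm y) = y := φ.v.apply_symm_apply y
  suffices h : ∃ Λ : Finset V, p ^ D.d x₀ y₀ * (θ ^ 3 / 4) ≤ cp G p Λ x₀ (φ.v.symm y) by
    obtain ⟨Λ, hΛ⟩ := h
    refine ⟨Λ.map φ.v.toEmbedding, ?_⟩
    have h2 := cp_aut φ p Λ x₀ (φ.v.symm y)
    rw [hφ, hz] at h2
    rw [h2]
    exact hΛ
  obtain ⟨Λ, h | h | h⟩ := dichotomy' D hF h0 h1 hθ hx x₀ y₀ (φ.v.symm y)
  · exact absurd h (not_le.2 (hu₀ Λ))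
  · refine ⟨Λ, le_trans ?_ h⟩
    exact mul_le_of_le_one_left hδ.le (pow_le_one₀ h0.le h1)
  · refine ⟨D.B x₀ (D.d x₀ y₀) ∪ Λ, ?_⟩
    have h2 := cp_path' D h0.le h1 x₀ y₀
    have h3 := cp_trans G h0.le h1 (B := D.B x₀ (D.d x₀ y₀)) (B' := Λ)
      (D := D.B x₀ (D.d x₀ y₀) ∪ Λ)
      Finset.subset_union_left Finset.subset_union_right x₀ y₀ (φ.v.symm y)
    exact le_trans (mul_le_mul h2 h hδ.le (cp_nonneg G h0.le h1 _ _ _)) h3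

theorem tau_subset_B (D : Geo G) (o : V) (W : Finset V) : ∃ R : ℕ, W ⊆ D.B o R := by
  refine ⟨W.sup (fun y => D.d o y), fun y hy => ?_⟩
  rw [D.mem]
  exact Finset.le_sup (f := fun y => D.d o y) hy

theorem exists_radius' (D : Geo G) {p c : ℝ} (h0 : 0 ≤ p) (h1 : p ≤ 1)
    (hc : ∀ x y : V, ∃ Λ : Finset V, c ≤ cp G p Λ x y) (l : ℕ) :
    ∃ R : ℕ, ∀ x y : V, D.d x y ≤ l → c ≤ cp G p (D.B x R) x y := by
  rcases isEmpty_or_nonempty V with hV | ⟨⟨o⟩⟩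
  · exact ⟨0, fun x => (hV.false x).elim⟩
  choose Λ hΛ using hc
  obtain ⟨R, hR⟩ := tau_subset_B D o ((D.B o l).biUnion (Λ o))
  refine ⟨R, fun x y hxy => ?_⟩
  obtain ⟨φ, hφ, hd⟩ := D.act o x
  have hz : φ.v (φ.v.symm y) = y := φ.v.apply_symm_apply y
  have h2 := cp_aut φ p (D.B o R) o (φ.v.symm y)
  rw [← map_B D φ hd, hφ, hz] at h2
  rw [h2]
  refine (hΛ o (φ.v.symm y)).trans (cp_mono G h0 h1 ?_ o _)
  refine (Finset.subset_biUnion_of_mem (Λ o) ?_).trans hR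
  rw [D.mem, ← hd, hφ, hz]
  exact hxy

end Pool.Agent.H99.TG
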