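import Pool.Agent.H99.TG.Path
import Pool.Agent.H99.TG.Aut
import Pool.Agent.DLP.Inf1

/-!
# TG/Theta: consequences of `p > pcT`

As `Pool/Agent/CGA/ThetaG.lean` (finished).
* `theta'`: the set in the definition of `pcT` contains `1` (all edges open, `perc_one`, the cluster is `univ` by
  `path_edges'`), so `exists_lt_of_csInf_lt` gives `p' < p` with `0 < perc E p' {ω | ∃ x, infinite}`. `V` is countable
  (`countV`): some `x₀` has `0 < perc E p' {ω | (G.cluster ω x₀).Infinite}` (`measure_iUnion_null` by contraposition).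
  `θ` = this probability; for `x ∈ Λ`: automorphism `φ` with `φ.v x₀ = x`; `Λ = Λ'.map φ`, `x₀ ∈ Λ'`, `xt_aut`;
  `Gr.infinite_iff`, `Gr.perc_exit` as in `theta_gen`. `p' > 0` as there.
* `tau_one'`: `p = 1`: `path_edges'`, `pr_contain` as in `tau_one`.
-/

namespace Pool.Agent.H99.TG

open Finset Pool.Agent.DLP Pool.Agent.CGA MeasureTheory

variable {V E : Type} [DecidableEq V] [DecidableEq E] {G : Gr V E}

/-- The critical probability for the existence of an infinite cluster. -/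
noncomputable def pcT (G : Gr V E) : ℝ :=
  sInf {r : ℝ | ∃ p : unitInterval, (p : ℝ) = r ∧
    0 < perc E p {ω | ∃ x, (G.cluster ω x).Infinite}}

/-- With `p = 0` no edge is open. -/
theorem ex_zero_T {ι : Type} [DecidableEq ι] (F : Finset ι) (f : Finset ι → ℝ) :
    ex 0 F f = f ∅ := by
  induction F using Finset.induction_on with
  | empty => exact ex_empty 0 f
  | insert i F hi ih => rw [ex_insert 0 hi f, ih]; ring

theorem pcT_set (D : Geo G) [Infinite V] :
    0 < perc E 1 {ω | ∃ x, (G.cluster ω x).Infinite} := by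
  have hcE : Countable E := countE D
  have hprob : IsProbabilityMeasure (perc E 1) := by
    unfold perc
    infer_instance
  have h : ∀ᵐ ω ∂(perc E 1), ∃ x, (G.cluster ω x).Infinite := by
    filter_upwards [perc_one (E := E)] with ω hω
    obtain ⟨x⟩ := (inferInstance : Nonempty V)
    refine ⟨x, ?_⟩
    have h1 : G.cluster ω x = Set.univ := by
      rw [Set.eq_univ_iff_forall]
      intro g
      obtain ⟨A, _, _, hA⟩ := path_edges' D x g
      exact hA.mono (fun e _ => hω e) (Set.subset_univ _)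
    rw [h1]
    exact Set.infinite_univ
  rw [pos_iff_ne_zero]
  intro h0
  have h1 : ∀ᵐ ω ∂(perc E 1), ω ∉ {ω | ∃ x, (G.cluster ω x).Infinite} :=
    measure_eq_zero_iff_ae_notMem.1 h0
  have h2 : ∀ᵐ ω ∂(perc E 1), False := by
    filter_upwards [h, h1] with ω a b
    exact b a
  rw [Filter.eventually_false_iff_eq_bot, ae_eq_bot] at h2
  exact IsProbabilityMeasure.ne_zero _ h2

theorem theta' (D : Geo G) [Infinite V] {p : unitInterval} (hp : pcT G < p) :
    ∃ p' θ : ℝ, 0 < p' ∧ p' < p ∧ 0 < θ ∧ ∀ Λ : Finset V, ∀ x ∈ Λ, θ ≤ xt G p' Λ x := by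
  classical
  have hcV : Countable V := countV D
  have hne : {r : ℝ | ∃ p : unitInterval, (p : ℝ) = r ∧
      0 < perc E p {ω | ∃ x, (G.cluster ω x).Infinite}}.Nonempty :=
    ⟨1, 1, rfl, pcT_set D⟩
  obtain ⟨r, ⟨p', rfl, hpos⟩, hlt⟩ := exists_lt_of_csInf_lt hne hp
  have hprob : IsProbabilityMeasure (perc E p') := by
    unfold perc
    infer_instance
  obtain ⟨x₀, hx₀⟩ : ∃ x₀, 0 < perc E p' {ω | (G.cluster ω x₀).Infinite} := by
    by_contra hcon
    push Not at hcon
    have e0 : {ω | ∃ x, (G.cluster ω x).Infinite} =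
        ⋃ x : V, {ω : E → Bool | (G.cluster ω x).Infinite} := by
      ext ω
      simp only [Set.mem_ofPred_eq, Set.mem_iUnion]
    rw [e0, pos_iff_ne_zero] at hpos
    exact hpos (measure_iUnion_null fun x => le_antisymm (hcon x) zero_le)
  have hfin : perc E p' {ω | (G.cluster ω x₀).Infinite} ≠ ⊤ := measure_ne_top _ _
  obtain ⟨θ, hθ⟩ : ∃ θ : ℝ, θ = (perc E p' {ω | (G.cluster ω x₀).Infinite}).toReal := ⟨_, rfl⟩
  have hθ0 : 0 < θ := by
    rw [hθ]
    exact ENNReal.toReal_pos hx₀.ne' hfin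
  have h0' : (0 : ℝ) ≤ p' := p'.2.1
  have h1' : (p' : ℝ) ≤ 1 := p'.2.2
  have hbase : ∀ Λ : Finset V, x₀ ∈ Λ → θ ≤ xt G (p' : ℝ) Λ x₀ := by
    intro Λ hΛ
    have e1 : perc E p' {ω | (G.cluster ω x₀).Infinite} ≤
        perc E p' {ω | G.Exit Λ (Gr.opn ω) Set.univ x₀} := by
      refine measure_mono fun ω hω => ?_
      exact (Gr.infinite_iff G ω x₀).1 hω Λ hΛ
    rw [Gr.perc_exit] at e1
    rw [hθ]
    exact ENNReal.toReal_le_of_le_ofReal (pr_nonneg h0' h1' _ _) e1
  have hall : ∀ (Λ : Finset V), ∀ x ∈ Λ, θ ≤ xt G (p' : ℝ) Λ x := by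
    intro Λ x hx
    obtain ⟨φ, hφ, -⟩ := D.act x x₀
    rw [← xt_aut φ (p' : ℝ) Λ x, hφ]
    refine hbase _ ?_
    rw [← hφ]
    exact Finset.mem_map_of_mem φ.v.toEmbedding hx
  refine ⟨p', θ, ?_, hlt, hθ0, hall⟩
  rcases h0'.eq_or_lt with h | h
  · exfalso
    have e1 := hall {x₀} x₀ (mem_singleton_self _)
    rw [← h] at e1
    have e2 : xt G 0 {x₀} x₀ = 0 := by
      unfold xt pr
      rw [ex_zero_T]
      rw [if_neg]
      rintro ⟨y, hy, hr⟩
      obtain ⟨e, he, _⟩ := hr.first_exit (B := {x₀}) (mem_singleton_self _) hy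
      simp at he
    rw [e2] at e1
    linarith
  · exact h

theorem tau_one' (D : Geo G) (x y : V) : ∃ Λ : Finset V, (1 : ℝ) ≤ cp G 1 Λ x y := by
  obtain ⟨A, _, hA1, hA2⟩ := path_edges' D x y
  refine ⟨D.B x (D.d x y), ?_⟩
  unfold CGA.cp
  have h1 := pr_contain (ι := E) (1 : ℝ) hA1
  rw [one_pow] at h1
  refine h1.symm.le.trans (pr_mono (ι := E) zero_le_one le_rfl fun ω _ hω => ?_)
  have h2 : (↑A : Set E) ⊆ (↑ω : Set E) := fun e he => hω he
  exact hA2.mono h2 subset_rfl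

end Pool.Agent.H99.TG
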