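import Pool.Agent.H99.TG.Disc
import Pool.Agent.H99.TG.Tau
import Pool.Agent.H99.TG.Theta
import Pool.Agent.DLP.Core
import Pool.Agent.DLP.ConvA

/-!
# TG/Core: anchored isoperimetry for vertex sets, general rate `φ`

Same proof as `core_gen` in `Pool/Agent/CGA/CoreG.lean` (finished).
Case `p < 1`: `theta'` gives `0 < p' < p` and `θ`; `tau_pos'` (at `p'`) gives `c`; `hΦ` (at `p'`) gives `κ`; let
`p₀ = (p' + p)/2`; `disc_phi` (`p₁ = p'`, `p = p₀`) gives `c'`; `bad_prob` (`p₀ < p < 1`; `countV`) gives `ε₁, C`. For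
`L = c' b φ n` its hypothesis holds (`n ≤ |H|`, `hq`). `ε = ε₁ c' b`.
Case `p = 1`: `hΦ` with `p = 1`, `c = 1` (`tau_one'`) gives `κ φ |T| ≤ ∑ acc ≤ |cut T|` (`Λ = T`, `acc ≤ 1`); `ε = κ b / 2`: if
all the edges are open (`perc_one`) then `Bad v ω n (ε φ n)` is impossible for `n ≥ 1` (`0 < φ n`).
-/

namespace Pool.Agent.H99.TG

open Finset Pool.Agent.DLP Pool.Agent.CGA MeasureTheory

variable {V E : Type} [DecidableEq V] [DecidableEq E] {G : Gr V E}

theorem core_T (D : Geo G) [Infinite V] (hF : Fol G) {φ : ℕ → ℝ} {b : ℝ} (hb : 0 < b)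
    (hφ : ∀ n, 1 ≤ n → 0 < φ n) (hq : ∀ m n : ℕ, 1 ≤ m → m ≤ n → b * φ m ≤ φ n)
    (hΦ : ∀ p c : ℝ, 0 < p → p ≤ 1 → 0 < c → (∀ x y : V, ∃ Λ : Finset V, c ≤ cp G p Λ x y) →
      ∃ κ : ℝ, 0 < κ ∧ ∀ Λ T : Finset V, T ⊆ Λ → T.Nonempty →
        κ * φ T.card ≤ ∑ e ∈ G.cut T, G.acc p Λ T e) {p : unitInterval}
    (hp : pcT G < p) :
    ∃ ε : ℝ, 0 < ε ∧ ∃ C : ℝ, 0 < C ∧ ∀ (v : V) (n : ℕ), 1 ≤ n →
      perc E p {ω | G.Bad v ω n (ε * φ n)} ≤ ENNReal.ofReal (C * Real.exp (-(ε * φ n))) := by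
  have hCt : Countable V := countV D
  have hCtE : Countable E := countE D
  have hple : (p : ℝ) ≤ 1 := p.2.2
  rcases hple.eq_or_lt with hp1 | hp1
  · obtain ⟨κ, hκ, hacc⟩ := hΦ 1 1 one_pos le_rfl one_pos (tau_one' D)
    refine ⟨κ * b / 2, by positivity, 1, one_pos, fun v n hn => ?_⟩
    have hpe : p = 1 := Subtype.ext hp1
    have hone := perc_one (E := E)
    rw [← hpe] at hone
    have hzero : perc E p {ω | G.Bad v ω n (κ * b / 2 * φ n)} = 0 := by
      have hae : ∀ᵐ ω ∂(perc E p), ¬ G.Bad v ω n (κ * b / 2 * φ n) := by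
        filter_upwards [hone] with ω hω
        rintro ⟨H, hvH, hnH, _, hcut⟩
        have h1 : (G.cut H).filter (fun e => ω e = true) = G.cut H :=
          Finset.filter_true_of_mem fun e _ => hω e
        rw [h1] at hcut
        have h2 : κ * φ H.card ≤ ((G.cut H).card : ℝ) := by
          refine (hacc H H (Subset.refl _) ⟨v, hvH⟩).trans ?_
          have h3 : ∑ e ∈ G.cut H, G.acc 1 H H e ≤ ∑ _e ∈ G.cut H, (1 : ℝ) :=
            sum_le_sum fun e _ => pr_le_one zero_le_one le_rfl _ _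
          refine h3.trans (le_of_eq ?_)
          simp
        have h4 : b * φ n ≤ φ H.card := hq n H.card hn hnH
        have h5 : κ * (b * φ n) ≤ κ * φ H.card := mul_le_mul_of_nonneg_left h4 hκ.le
        have h6 : 0 < κ * (b * φ n) := mul_pos hκ (mul_pos hb (hφ n hn))
        have h7 : κ * b / 2 * φ n = κ * (b * φ n) / 2 := by ring
        rw [h7] at hcut
        linarith
      rw [ae_iff] at hae
      simpa using hae
    rw [hzero]
    exact bot_le
  · obtain ⟨p', θ, hp'0, hp'p, hθ, hexit⟩ := theta' D hp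
    obtain ⟨c₀, hc₀, hτ⟩ := tau_pos' D hF hp'0 (by linarith) hθ hexit
    obtain ⟨κ, hκ, hacc⟩ := hΦ p' c₀ hp'0 (by linarith) hc₀ hτ
    obtain ⟨c, hc, hdisc⟩ := disc_phi G hb hq (p₁ := p') (p := (p' + p) / 2) hp'0.le
      (by linarith) (by linarith) hκ hacc
    obtain ⟨ε₁, hε₁, C, hC, hbad⟩ := Gr.bad_prob (p₀ := (p' + p) / 2) (p := p)
      (by linarith) (by linarith) hp1
    refine ⟨ε₁ * (c * b), by positivity, C, hC, fun v n hn => ?_⟩
    have e : ε₁ * (c * b) * φ n = ε₁ * (c * b * φ n) := by ring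
    rw [e]
    refine hbad V E G v n (c * b * φ n) ?_
    intro Λ H _ hvH hnH
    refine (hdisc Λ H ⟨v, hvH⟩).trans (Real.exp_le_exp.2 ?_)
    have h3 : b * φ n ≤ φ H.card := hq n H.card hn hnH
    have h4 := mul_le_mul_of_nonneg_left h3 hc.le
    have h5 : c * b * φ n = c * (b * φ n) := by ring
    rw [h5]
    linarith

end Pool.Agent.H99.TG
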