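import Pool.Agent.H99.TG.Exit

/-!
# TG/Count: how many geodesic lines pass through given points

`s r` = number of points of the spheres; `n` is a record for `lam`: `s (n - k) ≤ s n lam⁻¹^k`, `k ≤ n`.
* `count_pt`: if `gm D x y i = w` and `d x y = n`, `i ≤ n`, then `d w y = n - i` (`gm_dist`, `gm_end`), so `y ∈ S w (n - i)`:
  the number is `≤ s (n - i) ≤ s n lam⁻¹^i`.
* `count_w`: a pair `(x, y) ∈ LL w` has `l KK = d x w` (`zz_dist` with `i = 0`, `kk_props`) and `gm D x y (d x w) = w`; so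
  `|LL w| ≤ ∑_{x ∈ T} |{y ∈ S x n : gm D x y (d x w) = w}| ≤ ∑_{x ∈ T} s n lam⁻¹^(d x w)` (`count_pt`; if `d x w > n` there is no such pair: `l KK ≤ n`).
-/

namespace Pool.Agent.H99.TG

open Finset Pool.Agent.DLP Pool.Agent.CGA

variable {V E : Type} [DecidableEq V] [DecidableEq E] {G : Gr V E}

open Classical in
theorem count_pt (D : Geo G) {s : ℕ → ℕ} (hs : ∀ x r, (D.S x r).card = s r) {lam : ℝ} {n : ℕ}
    (hrec : ∀ k ≤ n, (s (n - k) : ℝ) ≤ s n * lam⁻¹ ^ k) (x w : V) {i : ℕ} (hi : i ≤ n) :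
    (((D.S x n).filter (fun y => gm D x y i = w)).card : ℝ) ≤ s n * lam⁻¹ ^ i := by
  have h1 : (D.S x n).filter (fun y => gm D x y i = w) ⊆ D.S w (n - i) := by
    intro y hy
    rw [mem_filter, mem_S] at hy
    obtain ⟨hy1, hy2⟩ := hy
    rw [mem_S]
    have h2 := gm_dist D x y (i := i) (j := n) hi hy1.ge
    have h3 := gm_end D x y
    rw [hy1] at h3
    rw [hy2, h3] at h2
    exact h2
  have h4 : ((D.S x n).filter (fun y => gm D x y i = w)).card ≤ s (n - i) := by
    rw [← hs w (n - i)]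
    exact card_le_card h1
  refine le_trans ?_ (hrec i hi)
  exact_mod_cast h4

theorem count_w (D : Geo G) {s : ℕ → ℕ} (hs : ∀ x r, (D.S x r).card = s r) {lam : ℝ} {n : ℕ}
    (hlam : 0 < lam) (hrec : ∀ k ≤ n, (s (n - k) : ℝ) ≤ s n * lam⁻¹ ^ k) {Λ T : Finset V}
    {R l : ℕ} (hl : 1 ≤ l) (hfar : Far D Λ T R l n) (w : V) :
    ((LL D T R l n w).card : ℝ) ≤ s n * ∑ x ∈ T, lam⁻¹ ^ D.d x w := by
  classical
  have h1 : LL D T R l n w ⊆ T.biUnion (fun x => ((D.S x n).filter
      (fun y => gm D x y (D.d x w) = w ∧ D.d x w ≤ n)).image (fun y => (x, y))) := by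
    rintro ⟨x, y⟩ hq
    unfold LL at hq
    rw [mem_filter] at hq
    obtain ⟨hq, hw⟩ := hq
    obtain ⟨hx, hd⟩ := (mem_PP D).1 hq
    have hk := (kk_props D hl hfar hq).1
    have h2 := zz_dist D hq (Nat.zero_le _) hk
    rw [zz_zero, hw, Nat.sub_zero] at h2
    have h3 : gm D x y (l * KK D T R l n (x, y)) = w := hw
    have h4 : l * KK D T R l n (x, y) ≤ n :=
      (Nat.mul_le_mul_left l hk).trans (Nat.mul_div_le n l)
    rw [mem_biUnion]
    refine ⟨x, hx, mem_image.2 ⟨y, mem_filter.2 ⟨(mem_S D).2 hd, ?_, ?_⟩, rfl⟩⟩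
    · have h5 : D.d x w = l * KK D T R l n (x, y) := h2
      rw [h5]
      exact h3
    · have h5 : D.d x w = l * KK D T R l n (x, y) := h2
      rw [h5]
      exact h4
  have hlam' : 0 ≤ lam⁻¹ := (inv_pos.2 hlam).le
  have h6 : ∀ x ∈ T, ((((D.S x n).filter
      (fun y => gm D x y (D.d x w) = w ∧ D.d x w ≤ n)).image (fun y => (x, y))).card : ℝ) ≤
      s n * lam⁻¹ ^ D.d x w := by
    intro x _
    by_cases hd : D.d x w ≤ n
    · refine le_trans ?_ (count_pt D hs hrec x w hd)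
      have h7 : (((D.S x n).filter
          (fun y => gm D x y (D.d x w) = w ∧ D.d x w ≤ n)).image (fun y => (x, y))).card ≤
          ((D.S x n).filter (fun y => gm D x y (D.d x w) = w)).card := by
        refine card_image_le.trans (card_le_card ?_)
        intro y hy
        rw [mem_filter] at hy ⊢
        exact ⟨hy.1, hy.2.1⟩
      exact_mod_cast h7
    · have h7 : (D.S x n).filter (fun y => gm D x y (D.d x w) = w ∧ D.d x w ≤ n) = ∅ := by
        apply filter_eq_empty_iff.2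
        rintro y _ ⟨_, h⟩
        exact hd h
      rw [h7, image_empty, card_empty, Nat.cast_zero]
      exact mul_nonneg (Nat.cast_nonneg _) (pow_nonneg hlam' _)
  calc ((LL D T R l n w).card : ℝ)
      ≤ ((T.biUnion (fun x => ((D.S x n).filter
        (fun y => gm D x y (D.d x w) = w ∧ D.d x w ≤ n)).image (fun y => (x, y)))).card : ℝ) := by
        exact_mod_cast card_le_card h1
    _ ≤ ∑ x ∈ T, ((((D.S x n).filter
        (fun y => gm D x y (D.d x w) = w ∧ D.d x w ≤ n)).image (fun y => (x, y))).card : ℝ) := by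
        exact_mod_cast card_biUnion_le
    _ ≤ ∑ x ∈ T, s n * lam⁻¹ ^ D.d x w := sum_le_sum h6
    _ = s n * ∑ x ∈ T, lam⁻¹ ^ D.d x w := by rw [mul_sum]

end Pool.Agent.H99.TG
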