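import Pool.Agent.H99.TG.Count

/-!
# TG/CountN: how many lines of `LL w` come near a given line of `LL w`

Let `q ∈ LL w` and `j` be given. If `q' ∈ LL w`, `j < n/l - KK q'` and the ball `B (zz q' (KK q' + j)) R` meets
`UZ R (i ↦ zz q (KK q + i)) (n/l - KK q)`, there is `i < n/l - KK q` with `d (zz q' (KK q' + j)) (zz q (KK q + i)) ≤ 2 R`. As
`d w (zz q' (KK q' + j)) = l j` and `d w (zz q (KK q + i)) = l i` (`zz_dist`), `|l i - l j| ≤ 2 R`, so `i ≤ j + 2 R` and `j ≤ i + 2 R`
(`l ≥ 1`). So the point `w' = zz q' (KK q' + j)` is in the set `Q` = union of the balls `B (zz q (KK q + i)) (2 R)` over the at most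
`4 R + 1` indices `i ∈ Finset.Icc (j - 2R) (j + 2R)`: `|Q| ≤ (4 R + 1) β`, `β = |B o (2 R)|` (`card_B`).
For `w' ∈ Q` and `x ∈ T`: the pairs `(x, y)` with these properties have `l KK = d x w`, and
`gm D x y (d x w + l j) = w'` with `d x w + l j = l (KK + j) ≤ n`: by `count_pt` at most `s n lam⁻¹^(d x w + l j)` (none if
`d x w + l j > n`). Sum over `x ∈ T` and `w' ∈ Q`.
-/

namespace Pool.Agent.H99.TG

open Finset Pool.Agent.DLP Pool.Agent.CGA

variable {V E : Type} [DecidableEq V] [DecidableEq E] {G : Gr V E}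

private theorem abs_idx {l R i j : ℕ} (hl : 1 ≤ l) (h : l * i ≤ l * j + 2 * R) :
    i ≤ j + 2 * R := by
  by_contra hcon
  have h1 : j + 2 * R + 1 ≤ i := by omega
  have h2 : l * (j + 2 * R + 1) ≤ l * i := Nat.mul_le_mul_left l h1
  have h3 : l * (j + 2 * R + 1) = l * j + l * (2 * R + 1) := by ring
  have h4 : 1 * (2 * R + 1) ≤ l * (2 * R + 1) := Nat.mul_le_mul_right _ hl
  omega

open Classical in
theorem count_near (D : Geo G) {s : ℕ → ℕ} (hs : ∀ x r, (D.S x r).card = s r) {lam : ℝ} {n : ℕ}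
    (hlam : 0 < lam) (hrec : ∀ k ≤ n, (s (n - k) : ℝ) ≤ s n * lam⁻¹ ^ k) {Λ T : Finset V}
    {R l : ℕ} (hl : 1 ≤ l) (hfar : Far D Λ T R l n) (o w : V) {q : V × V}
    (hq : q ∈ LL D T R l n w) (j : ℕ) :
    (((LL D T R l n w).filter (fun q' => j < n / l - KK D T R l n q' ∧
      ¬ Disjoint (D.B (zz D l q' (KK D T R l n q' + j)) R)
        (UZ D R (fun i => zz D l q (KK D T R l n q + i)) (n / l - KK D T R l n q)))).card : ℝ) ≤
      ((4 * R + 1) * (D.B o (2 * R)).card) * (s n * ∑ x ∈ T, lam⁻¹ ^ D.d x w) *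
        (lam⁻¹ ^ l) ^ j := by
  have hLL : ∀ q', q' ∈ LL D T R l n w → q' ∈ PP D T n ∧
      zz D l q' (KK D T R l n q') = w := by
    intro q' h
    unfold LL at h
    exact Finset.mem_filter.1 h
  obtain ⟨hqP, hqw⟩ := hLL q hq
  -- the points near the line of `q`
  set Q : Finset V := (Finset.Icc (j - 2 * R) (j + 2 * R)).biUnion
    (fun i => D.B (zz D l q (KK D T R l n q + i)) (2 * R)) with hQ
  have hQc : Q.card ≤ (4 * R + 1) * (D.B o (2 * R)).card := by
    have h1 : Q.card ≤ ∑ i ∈ Finset.Icc (j - 2 * R) (j + 2 * R),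
        (D.B (zz D l q (KK D T R l n q + i)) (2 * R)).card := Finset.card_biUnion_le
    have h2 : ∑ i ∈ Finset.Icc (j - 2 * R) (j + 2 * R),
        (D.B (zz D l q (KK D T R l n q + i)) (2 * R)).card =
        (Finset.Icc (j - 2 * R) (j + 2 * R)).card * (D.B o (2 * R)).card := by
      rw [Finset.sum_congr rfl (fun i _ => card_B D (zz D l q (KK D T R l n q + i)) o (2 * R)),
        Finset.sum_const, smul_eq_mul]
    have h3 : (Finset.Icc (j - 2 * R) (j + 2 * R)).card ≤ 4 * R + 1 := by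
      rw [Nat.card_Icc]
      omega
    rw [h2] at h1
    exact h1.trans (Nat.mul_le_mul_right _ h3)
  set a : ℝ := lam⁻¹ with ha
  have ha0 : 0 < a := inv_pos.2 hlam
  -- the covering sets
  let A : V → V → Finset (V × V) := fun x w' =>
    if D.d x w + l * j ≤ n then
      ((D.S x n).filter (fun y => gm D x y (D.d x w + l * j) = w')).image (fun y => (x, y))
    else ∅
  have hA : ∀ x w', ((A x w').card : ℝ) ≤ s n * a ^ (D.d x w + l * j) := by
    intro x w'
    by_cases h : D.d x w + l * j ≤ n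
    · have h1 : A x w' = ((D.S x n).filter
          (fun y => gm D x y (D.d x w + l * j) = w')).image (fun y => (x, y)) := if_pos h
      rw [h1]
      refine le_trans ?_ (count_pt D hs hrec x w' h)
      exact_mod_cast Finset.card_image_le
    · have h1 : A x w' = ∅ := if_neg h
      rw [h1, Finset.card_empty]
      have : (0 : ℝ) ≤ s n * a ^ (D.d x w + l * j) := by positivity
      exact_mod_cast this
  have hsub : (LL D T R l n w).filter (fun q' => j < n / l - KK D T R l n q' ∧
      ¬ Disjoint (D.B (zz D l q' (KK D T R l n q' + j)) R)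
        (UZ D R (fun i => zz D l q (KK D T R l n q + i)) (n / l - KK D T R l n q))) ⊆
      T.biUnion (fun x => Q.biUnion (fun w' => A x w')) := by
    intro q' hq'
    rw [Finset.mem_filter] at hq'
    obtain ⟨h1, h2, h3⟩ := hq'
    obtain ⟨hP, hw⟩ := hLL q' h1
    obtain ⟨hT, hn⟩ := (mem_PP D).1 hP
    rw [Finset.not_disjoint_iff] at h3
    obtain ⟨v, hv1, hv2⟩ := h3
    rw [D.mem] at hv1
    unfold UZ at hv2
    rw [Finset.mem_biUnion] at hv2
    obtain ⟨i, hi, hv2⟩ := hv2
    rw [Finset.mem_range] at hi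
    rw [D.mem] at hv2
    replace hv2 : D.d (zz D l q (KK D T R l n q + i)) v ≤ R := hv2
    -- distances
    have e1 : D.d w (zz D l q' (KK D T R l n q' + j)) = l * j := by
      have := zz_dist D (l := l) hP (i := KK D T R l n q') (j := KK D T R l n q' + j) (by omega) (by omega)
      rw [hw] at this
      rw [this]
      congr 1
      omega
    have e2 : D.d w (zz D l q (KK D T R l n q + i)) = l * i := by
      have := zz_dist D (l := l) hqP (i := KK D T R l n q) (j := KK D T R l n q + i) (by omega) (by omega)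
      rw [hqw] at this
      rw [this]
      congr 1
      omega
    have e3 : D.d (zz D l q (KK D T R l n q + i)) (zz D l q' (KK D T R l n q' + j)) ≤ 2 * R := by
      have t1 := D.tri (zz D l q (KK D T R l n q + i)) v (zz D l q' (KK D T R l n q' + j))
      rw [D.symm v (zz D l q' (KK D T R l n q' + j))] at t1
      omega
    have e4 : l * j ≤ l * i + 2 * R := by
      have t1 := D.tri w (zz D l q (KK D T R l n q + i)) (zz D l q' (KK D T R l n q' + j))
      omega
    have e5 : l * i ≤ l * j + 2 * R := by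
      have t1 := D.tri w (zz D l q' (KK D T R l n q' + j)) (zz D l q (KK D T R l n q + i))
      rw [D.symm (zz D l q' (KK D T R l n q' + j)) (zz D l q (KK D T R l n q + i))] at t1
      omega
    have i1 := abs_idx hl e4
    have i2 := abs_idx hl e5
    have hQm : zz D l q' (KK D T R l n q' + j) ∈ Q := by
      rw [hQ, Finset.mem_biUnion]
      exact ⟨i, Finset.mem_Icc.2 ⟨by omega, i2⟩, (D.mem _ _ _).2 e3⟩
    have e6 : D.d q'.1 w = l * KK D T R l n q' := by
      have := zz_dist D (l := l) hP (i := 0) (j := KK D T R l n q') (by omega) (by omega)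
      rw [hw, zz_zero] at this
      rw [this, Nat.sub_zero]
    have e7 : D.d q'.1 w + l * j = l * (KK D T R l n q' + j) := by
      rw [e6]
      ring
    have e8 : D.d q'.1 w + l * j ≤ n := by
      rw [e7]
      have t1 : l * (KK D T R l n q' + j) ≤ l * (n / l) := Nat.mul_le_mul_left l (by omega)
      exact t1.trans (Nat.mul_div_le n l)
    rw [Finset.mem_biUnion]
    refine ⟨q'.1, hT, ?_⟩
    rw [Finset.mem_biUnion]
    refine ⟨zz D l q' (KK D T R l n q' + j), hQm, ?_⟩
    have h5 : A q'.1 (zz D l q' (KK D T R l n q' + j)) = ((D.S q'.1 n).filter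
          (fun y => gm D q'.1 y (D.d q'.1 w + l * j) =
            zz D l q' (KK D T R l n q' + j))).image (fun y => (q'.1, y)) := if_pos e8
    rw [h5, Finset.mem_image]
    refine ⟨q'.2, ?_, rfl⟩
    rw [Finset.mem_filter]
    refine ⟨(mem_S D).2 hn, ?_⟩
    rw [e7]
    rfl
  have c1 : (((LL D T R l n w).filter (fun q' => j < n / l - KK D T R l n q' ∧
      ¬ Disjoint (D.B (zz D l q' (KK D T R l n q' + j)) R)
        (UZ D R (fun i => zz D l q (KK D T R l n q + i)) (n / l - KK D T R l n q)))).card : ℝ) ≤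
      ((∑ x ∈ T, ∑ w' ∈ Q, (A x w').card : ℕ) : ℝ) := by
    have t1 := Finset.card_le_card hsub
    have t2 : (T.biUnion (fun x => Q.biUnion (fun w' => A x w'))).card ≤
        ∑ x ∈ T, ∑ w' ∈ Q, (A x w').card :=
      Finset.card_biUnion_le.trans (Finset.sum_le_sum fun x _ => Finset.card_biUnion_le)
    exact_mod_cast t1.trans t2
  refine c1.trans ?_
  push_cast
  have c2 : ∑ x ∈ T, ∑ w' ∈ Q, ((A x w').card : ℝ) ≤
      ∑ x ∈ T, ((Q.card : ℝ) * (s n * a ^ (D.d x w + l * j))) := by
    refine Finset.sum_le_sum fun x _ => ?_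
    refine (Finset.sum_le_sum fun w' _ => hA x w').trans (le_of_eq ?_)
    rw [Finset.sum_const, nsmul_eq_mul]
  refine c2.trans ?_
  have c3 : ∑ x ∈ T, ((Q.card : ℝ) * (s n * a ^ (D.d x w + l * j))) =
      (Q.card : ℝ) * ((s n * ∑ x ∈ T, a ^ D.d x w) * (a ^ l) ^ j) := by
    rw [Finset.mul_sum, Finset.sum_mul, Finset.mul_sum]
    refine Finset.sum_congr rfl fun x _ => ?_
    rw [pow_add, pow_mul]
    ring
  rw [c3]
  have c4 : (Q.card : ℝ) ≤ (4 * R + 1) * (D.B o (2 * R)).card := by
    exact_mod_cast hQc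
  have c5 : (0 : ℝ) ≤ (s n * ∑ x ∈ T, a ^ D.d x w) * (a ^ l) ^ j := by
    have : (0 : ℝ) ≤ ∑ x ∈ T, a ^ D.d x w := Finset.sum_nonneg fun x _ => pow_nonneg ha0.le _
    positivity
  calc (Q.card : ℝ) * ((s n * ∑ x ∈ T, a ^ D.d x w) * (a ^ l) ^ j)
      ≤ ((4 * R + 1) * (D.B o (2 * R)).card) * ((s n * ∑ x ∈ T, a ^ D.d x w) * (a ^ l) ^ j) :=
        mul_le_mul_of_nonneg_right c4 c5
    _ = _ := by ring

end Pool.Agent.H99.TG
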