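import Pool.Agent.CGA.CpG
import Pool.Agent.DLP.Tri
import Pool.Agent.DLP.ExC

/-!
# Percolation on transitive graphs of exponential growth: definitions (COMPLETE FILE)

MP_799d92_pr, TransitiveGrowth. The general (not group dependent) parts of the libraries
`Pool.Agent.DLP` and `Pool.Agent.CGA` are used (`Gr`, `AutS`, `pr`, `ex`, `Dep`, `Reach`, `Exit`, `cp`,
`xt`, `gx`, `Fol`, `acc`, `Disc`, `trick`, `bad_prob`, `tri_count`).

* `Geo G`: `G` is a connected vertex transitive locally finite graph; `d` is its graph distance and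
  `B x n` the closed ball.
* `D.S x n`: sphere; `D.nb T n`: the `n`-neighbourhood of `T`; `vb G R`: inner vertex boundary.
* `ArmT`, `ThreeT`, `TriT`: arms and trifurcation sets (as in `CGA`).
* `OZ D R z m ω`: the steps `z i → z (i+1)`, `i < m`, are open connections inside the balls
  `B (z i) R`; `UZ`: the union of these balls; `pZ`: the probability of `OZ`.
* `gm D x y`: a geodesic from `x` to `y`; `zz D l q i = gm q.1 q.2 (l i)`; `PP D T n`: the pairs
  `(x, y)` with `x ∈ T` and `y` in the sphere of radius `n` around `x`; `KK`: the index after the last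
  visit of the line of the pair to `nb T R`; `LL w`: the pairs whose line is at `w` at this index.
* `Sg s g n = ∑_{r ≤ log n / log g} s r / g^r`.
-/

namespace Pool.Agent.H99.TG

open Finset Pool.Agent.DLP Pool.Agent.CGA

variable {V E : Type} [DecidableEq V] [DecidableEq E]

/-- A connected vertex transitive locally finite graph with its distance and its balls. -/
structure Geo (G : Gr V E) where
  d : V → V → ℕ
  B : V → ℕ → Finset V
  mem : ∀ x n y, y ∈ B x n ↔ d x y ≤ n
  self : ∀ x, d x x = 0
  eq_of : ∀ x y, d x y = 0 → x = y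
  symm : ∀ x y, d x y = d y x
  tri : ∀ x y z, d x z ≤ d x y + d y z
  edge : ∀ e, d (G.a e) (G.b e) ≤ 1
  step : ∀ x y, d x y = 1 → ∃ e, (G.a e = x ∧ G.b e = y) ∨ (G.a e = y ∧ G.b e = x)
  mid : ∀ x y n, d x y = n + 1 → ∃ z, d x z = n ∧ d z y = 1
  act : ∀ x y, ∃ φ : AutS G, φ.v x = y ∧ ∀ u w, d (φ.v u) (φ.v w) = d u w

variable {G : Gr V E}

/-- The sphere of radius `n` around `x`. -/
def Geo.S (D : Geo G) (x : V) (n : ℕ) : Finset V := (D.B x n).filter (fun y => D.d x y = n)

/-- The `n`-neighbourhood of `T`. -/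
def Geo.nb (D : Geo G) (T : Finset V) (n : ℕ) : Finset V := T.biUnion (fun t => D.B t n)

/-- The inner vertex boundary of `R`. -/
def vb (G : Gr V E) (R : Finset V) : Finset V :=
  R.filter (fun x => ∃ e ∈ G.cut R, G.a e = x ∨ G.b e = x)

/-- `x` is joined inside `R` to the inner boundary of `R`. -/
def ArmT (G : Gr V E) (R : Finset V) (ω : Finset E) (x : V) : Prop :=
  ∃ y ∈ vb G R, G.Reach (↑ω : Set E) (↑R : Set V) x y

/-- Three arms, pairwise not joined inside `R`. -/
def ThreeT (G : Gr V E) (R : Finset V) (x₁ x₂ x₃ : V) (ω : Finset E) : Prop :=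
  ArmT G R ω x₁ ∧ ArmT G R ω x₂ ∧ ArmT G R ω x₃ ∧
    ¬ G.Reach (↑ω : Set E) (↑R : Set V) x₁ x₂ ∧ ¬ G.Reach (↑ω : Set E) (↑R : Set V) x₁ x₃ ∧
    ¬ G.Reach (↑ω : Set E) (↑R : Set V) x₂ x₃

/-- Joined by an edge of `ω` inside `R`. -/
def relT (G : Gr V E) (R : Finset V) (ω : Finset E) (x y : V) : Prop :=
  G.Step (↑ω : Set E) x y ∧ x ∈ R ∧ y ∈ R

/-- `B` is a trifurcation set in `R`. -/
def TriT (G : Gr V E) (R B : Finset V) (ω : Finset E) : Prop :=
  G.inn B ⊆ ω ∧ ∃ x₁ ∈ vb G R, ∃ x₂ ∈ vb G R, ∃ x₃ ∈ vb G R,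
    Att (relT G R ω) B x₁ ∧ Att (relT G R ω) B x₂ ∧ Att (relT G R ω) B x₃ ∧
    ¬ OffR (relT G R ω) B x₁ x₂ ∧ ¬ OffR (relT G R ω) B x₁ x₃ ∧ ¬ OffR (relT G R ω) B x₂ x₃

/-- The steps of the line `z`, up to index `m`, are open connections inside the balls of radius `R`. -/
def OZ (D : Geo G) (R : ℕ) (z : ℕ → V) (m : ℕ) (ω : Finset E) : Prop :=
  ∀ i < m, G.Reach (↑ω : Set E) (↑(D.B (z i) R) : Set V) (z i) (z (i + 1))

/-- The union of the balls of radius `R` around the points `z i`, `i < m`. -/
def UZ (D : Geo G) (R : ℕ) (z : ℕ → V) (m : ℕ) : Finset V :=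
  (range m).biUnion (fun i => D.B (z i) R)

/-- The probability of `OZ`. -/
noncomputable def pZ (D : Geo G) (p : ℝ) (R : ℕ) (z : ℕ → V) (m : ℕ) : ℝ :=
  pr p (G.inn (UZ D R z m)) (OZ D R z m)

theorem exists_geod (D : Geo G) (x y : V) : ∃ γ : ℕ → V, γ 0 = x ∧ γ (D.d x y) = y ∧
    ∀ i j, i ≤ j → j ≤ D.d x y → D.d (γ i) (γ j) = j - i := by
  have h : ∀ n, ∀ y, D.d x y = n → ∃ γ : ℕ → V, γ 0 = x ∧ γ n = y ∧
      ∀ i j, i ≤ j → j ≤ n → D.d (γ i) (γ j) = j - i := by
    intro n
    induction n with
    | zero =>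
      intro y hy
      have hxy := D.eq_of x y hy
      subst hxy
      refine ⟨fun _ => x, rfl, rfl, fun i j hij hj => ?_⟩
      have hj0 : j = 0 := by omega
      have hi0 : i = 0 := by omega
      subst hj0
      subst hi0
      exact D.self x
    | succ n ih =>
      intro y hy
      obtain ⟨z, hz, hzy⟩ := D.mid x y n hy
      obtain ⟨γ, h0, hn, hγ⟩ := ih z hz
      refine ⟨fun i => if i ≤ n then γ i else y, ?_, ?_, ?_⟩
      · simp [h0]
      · simp
      · intro i j hij hj
        rcases Nat.lt_or_ge n j with hnj | hnj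
        · have hj1 : j = n + 1 := by omega
          subst hj1
          rcases Nat.lt_or_ge n i with hni | hni
          · have hi1 : i = n + 1 := by omega
            subst hi1
            simp [D.self]
          · have e1 : D.d (γ i) y = n + 1 - i := by
              have a1 := hγ 0 i (Nat.zero_le _) hni
              have a2 := hγ i n hni le_rfl
              rw [h0] at a1
              rw [hn] at a2
              have a3 := D.tri x (γ i) y
              have a4 := D.tri (γ i) z y
              rw [hy] at a3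
              omega
            simpa [hni] using e1
        · have hin : i ≤ n := by omega
          simpa [hnj, hin] using hγ i j hij hnj
  exact h (D.d x y) y rfl

/-- A geodesic from `x` to `y`. -/
noncomputable def gm (D : Geo G) (x y : V) : ℕ → V := (exists_geod D x y).choose

theorem gm_zero (D : Geo G) (x y : V) : gm D x y 0 = x := (exists_geod D x y).choose_spec.1

theorem gm_end (D : Geo G) (x y : V) : gm D x y (D.d x y) = y :=
  (exists_geod D x y).choose_spec.2.1

theorem gm_dist (D : Geo G) (x y : V) {i j : ℕ} (hij : i ≤ j) (hj : j ≤ D.d x y) :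
    D.d (gm D x y i) (gm D x y j) = j - i :=
  (exists_geod D x y).choose_spec.2.2 i j hij hj

/-- The line of a pair of points: every `l`-th point of the geodesic. -/
noncomputable def zz (D : Geo G) (l : ℕ) (q : V × V) (i : ℕ) : V := gm D q.1 q.2 (l * i)

/-- The pairs `(x, y)` with `x ∈ T` and `y` in the sphere of radius `n` around `x`. -/
def PP (D : Geo G) (T : Finset V) (n : ℕ) : Finset (V × V) :=
  T.biUnion (fun x => (D.S x n).image (fun y => (x, y)))

open Classical in
/-- The index after the last visit of the line of the pair `q` to `D.nb T R`. -/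
noncomputable def KK (D : Geo G) (T : Finset V) (R l n : ℕ) (q : V × V) : ℕ :=
  Nat.findGreatest (fun k => zz D l q k ∈ D.nb T R) (n / l) + 1

open Classical in
/-- The pairs whose line is at `w` at the index `KK`. -/
noncomputable def LL (D : Geo G) (T : Finset V) (R l n : ℕ) (w : V) : Finset (V × V) :=
  (PP D T n).filter (fun q => zz D l q (KK D T R l n q) = w)

/-- The growth sum. -/
noncomputable def Sg (s : ℕ → ℕ) (g : ℝ) (n : ℕ) : ℝ :=
  ∑ r ∈ range (⌊Real.logb g n⌋₊ + 1), (s r : ℝ) / g ^ r

end Pool.Agent.H99.TG
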