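import Pool.Agent.H99.TG.Defs
import Pool.Agent.DLP.Trick

/-!
# TG/Disc: disconnection probabilities (general graphs, general rate)

Same proof as `disc_gen` in `Pool/Agent/CGA/DiscG.lean` (finished): `Gr.trick` with `Φ = κ b φ |T|` (for `H ⊇ T`:
`κ φ |H| ≥ κ b φ |T|` by `hq`), and `((1-p)/(1-p₁))^Φ = exp (-(κ b log ((1-p₁)/(1-p))) φ |T|)`.
-/

namespace Pool.Agent.H99.TG

open Finset Pool.Agent.DLP Pool.Agent.CGA

variable {V E : Type} [DecidableEq V] [DecidableEq E] (G : Gr V E)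

theorem disc_phi {φ : ℕ → ℝ} {b : ℝ} (hb : 0 < b)
    (hq : ∀ m n : ℕ, 1 ≤ m → m ≤ n → b * φ m ≤ φ n) {p₁ p κ : ℝ} (h0 : 0 ≤ p₁) (h01 : p₁ < p)
    (h1 : p < 1) (hκ : 0 < κ)
    (hΦ : ∀ Λ T : Finset V, T ⊆ Λ → T.Nonempty →
      κ * φ T.card ≤ ∑ e ∈ G.cut T, G.acc p₁ Λ T e) :
    ∃ c : ℝ, 0 < c ∧ ∀ Λ T : Finset V, T.Nonempty →
      pr p (G.touch Λ) (fun ω => G.Disc Λ T ω) ≤ Real.exp (-(c * φ T.card)) := by
  have h2 : 0 < 1 - p := by linarith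
  have h3 : 0 < 1 - p₁ := by linarith
  have hκ0 : 0 < (1 - p) / (1 - p₁) := div_pos h2 h3
  have hκ1 : (1 - p) / (1 - p₁) < 1 := by
    rw [div_lt_one h3]
    linarith
  have hlogκ : 0 < -Real.log ((1 - p) / (1 - p₁)) := by
    have := Real.log_neg hκ0 hκ1
    linarith
  refine ⟨κ * b * (-Real.log ((1 - p) / (1 - p₁))), mul_pos (mul_pos hκ hb) hlogκ, ?_⟩
  intro Λ T hT
  have hcard : 1 ≤ T.card := hT.card_pos
  have h4 := G.trick h0 h01 h1 (Λ := Λ) (T := T)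
    (Φ := κ * (b * φ T.card)) (by
      intro H hTH hHΛ
      refine le_trans ?_ (hΦ Λ H hHΛ (hT.mono hTH))
      exact mul_le_mul_of_nonneg_left (hq _ _ hcard (card_le_card hTH)) hκ.le)
  refine h4.trans (le_of_eq ?_)
  rw [Real.rpow_def_of_pos hκ0]
  congr 1
  ring

end Pool.Agent.H99.TG
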