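import Pool.Agent.H99.TG.Basic

/-!
# TG/Exit: the last visit of a geodesic line to the neighbourhood of `T`

`Far`: the points of `Λ` and of `nb T R` are at distance `≤ n - l` of the points of `T`.
For `q ∈ PP D T n`: `q.1 ∈ T`, `D.d q.1 q.2 = n` (`mem_PP`).
* `zz_dist`: `gm_dist` (`l j ≤ l (n / l) ≤ n`, `Nat.mul_div_le`).
* `zz_zero`: `gm_zero`; `zz_dist0`: distance to `q.1`.
* the point `zz (n / l)` has distance `l (n/l) > n - l` to `q.1` (`Nat.lt_mul_div_succ`: `n < l (n/l + 1)`), so by `Far` it is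
  not in `Λ` and not in `nb T R`.
* `KK - 1 = Nat.findGreatest (..) (n/l)`: the index `0` satisfies the predicate (`q.1 ∈ T ⊆ nb T R`), so
  `Nat.findGreatest_spec` gives `zz (KK - 1) ∈ nb T R`; hence `KK - 1 ≠ n / l`, `KK ≤ n / l`; `Nat.findGreatest_is_greatest` gives the
  second conjunct; `zz KK ∈ nb T (R + l)` by the triangle inequality; `zz KK ∉ T` since `T ⊆ nb T R`.
-/

namespace Pool.Agent.H99.TG

open Finset Pool.Agent.DLP Pool.Agent.CGA

variable {V E : Type} [DecidableEq V] [DecidableEq E] {G : Gr V E}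

/-- The points of `Λ` and of `nb T R` are at distance at most `n - l` of the points of `T`. -/
def Far (D : Geo G) (Λ T : Finset V) (R l n : ℕ) : Prop :=
  ∀ x ∈ T, ∀ z, (z ∈ Λ ∨ z ∈ D.nb T R) → D.d x z + l ≤ n

theorem mem_PP (D : Geo G) {T : Finset V} {n : ℕ} {q : V × V} :
    q ∈ PP D T n ↔ q.1 ∈ T ∧ D.d q.1 q.2 = n := by
  unfold PP
  rw [mem_biUnion]
  constructor
  · rintro ⟨x, hx, h⟩
    rw [mem_image] at h
    obtain ⟨y, hy, rfl⟩ := h
    exact ⟨hx, (mem_S D).1 hy⟩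
  · rintro ⟨h1, h2⟩
    exact ⟨q.1, h1, mem_image.2 ⟨q.2, (mem_S D).2 h2, rfl⟩⟩

theorem zz_dist (D : Geo G) {T : Finset V} {l n : ℕ} {q : V × V} (hq : q ∈ PP D T n)
    {i j : ℕ} (hij : i ≤ j) (hj : j ≤ n / l) :
    D.d (zz D l q i) (zz D l q j) = l * (j - i) := by
  have h1 := (mem_PP D).1 hq
  have h2 : l * j ≤ D.d q.1 q.2 := by
    rw [h1.2]
    exact (Nat.mul_le_mul_left l hj).trans (Nat.mul_div_le n l)
  unfold zz
  rw [gm_dist D q.1 q.2 (Nat.mul_le_mul_left l hij) h2, Nat.mul_sub]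

theorem zz_zero (D : Geo G) (l : ℕ) (q : V × V) : zz D l q 0 = q.1 := by
  unfold zz
  rw [Nat.mul_zero, gm_zero]

theorem kk_props (D : Geo G) {Λ T : Finset V} {R l n : ℕ} (hl : 1 ≤ l)
    (hfar : Far D Λ T R l n) {q : V × V} (hq : q ∈ PP D T n) :
    KK D T R l n q ≤ n / l ∧
    (∀ i, KK D T R l n q ≤ i → i ≤ n / l → zz D l q i ∉ D.nb T R) ∧
    zz D l q (KK D T R l n q) ∈ D.nb T (R + l) ∧
    zz D l q (KK D T R l n q) ∉ T ∧
    zz D l q (n / l) ∉ Λ := by
  classical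
  have hqT := ((mem_PP D).1 hq).1
  have hsub : ∀ z ∈ T, z ∈ D.nb T R := fun z hz =>
    (mem_nb D).2 ⟨z, hz, by rw [D.self]; exact Nat.zero_le R⟩
  have h0 : zz D l q 0 ∈ D.nb T R := by
    rw [zz_zero]
    exact hsub _ hqT
  have hend : ¬ (zz D l q (n / l) ∈ Λ ∨ zz D l q (n / l) ∈ D.nb T R) := by
    intro h
    have h1 := hfar q.1 hqT _ h
    have h2 := zz_dist D hq (Nat.zero_le (n / l)) le_rfl
    rw [zz_zero, Nat.sub_zero] at h2
    have h3 := Nat.lt_mul_div_succ n hl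
    rw [h2] at h1
    rw [Nat.mul_add, Nat.mul_one] at h3
    omega
  push Not at hend
  obtain ⟨g, hg⟩ : ∃ g, KK D T R l n q = g + 1 := ⟨_, rfl⟩
  have hgdef : g = Nat.findGreatest (fun k => zz D l q k ∈ D.nb T R) (n / l) := by
    have h1 : KK D T R l n q =
        Nat.findGreatest (fun k => zz D l q k ∈ D.nb T R) (n / l) + 1 := by
      unfold KK
      congr 1
    omega
  have hg1 : zz D l q g ∈ D.nb T R := by
    have h1 := Nat.findGreatest_spec (P := fun k => zz D l q k ∈ D.nb T R) (Nat.zero_le (n / l)) h0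
    rw [← hgdef] at h1
    exact h1
  have hg2 : g ≤ n / l := by
    rw [hgdef]
    exact Nat.findGreatest_le (n / l)
  have hg3 : ∀ k, g < k → k ≤ n / l → zz D l q k ∉ D.nb T R := by
    intro k hk hkn
    rw [hgdef] at hk
    exact Nat.findGreatest_is_greatest (P := fun k => zz D l q k ∈ D.nb T R) hk hkn
  have hg4 : g + 1 ≤ n / l := by
    rcases Nat.lt_or_ge g (n / l) with h | h
    · exact h
    · have h5 : g = n / l := le_antisymm hg2 h
      rw [h5] at hg1
      exact absurd hg1 hend.2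
  rw [hg]
  refine ⟨hg4, fun i hi hin => hg3 i (by omega) hin, ?_, ?_, hend.1⟩
  · obtain ⟨t, ht, htd⟩ := (mem_nb D).1 hg1
    refine (mem_nb D).2 ⟨t, ht, ?_⟩
    have h1 := zz_dist D hq (Nat.le_succ g) hg4
    have h2 := D.tri t (zz D l q g) (zz D l q (g + 1))
    rw [h1] at h2
    have h3 : l * (g + 1 - g) = l := by
      rw [Nat.add_sub_cancel_left, Nat.mul_one]
    have h4 : g.succ - g = 1 := by omega
    rw [h4, Nat.mul_one] at h2
    omega
  · intro h
    exact hg3 (g + 1) (Nat.lt_succ_self g) hg4 (hsub _ h)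

/-- The number of all pairs. -/
theorem card_PP (D : Geo G) {s : ℕ → ℕ} (hs : ∀ x r, (D.S x r).card = s r) (T : Finset V)
    (n : ℕ) : (PP D T n).card = T.card * s n := by
  unfold PP
  rw [card_biUnion]
  · rw [sum_congr rfl (fun x _ => by
      rw [card_image_of_injective _ (fun a b h => (Prod.mk.inj h).2), hs x n])]
    rw [sum_const, smul_eq_mul]
  · intro x _ y _ hxy
    refine disjoint_left.2 ?_
    intro q h1 h2
    rw [mem_image] at h1 h2
    obtain ⟨a, _, rfl⟩ := h1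
    obtain ⟨b, _, hb⟩ := h2
    exact hxy (Prod.mk.inj hb).1.symm

/-- The sets `LL w` cover `PP` (`card_eq_sum_card_fiberwise`). -/
theorem sum_LL (D : Geo G) {Λ T : Finset V} {R l n : ℕ} (hl : 1 ≤ l)
    (hfar : Far D Λ T R l n) :
    (PP D T n).card =
      ∑ w ∈ (D.nb T (R + l)).filter (fun w => w ∉ T), (LL D T R l n w).card := by
  have h1 : ∀ q ∈ PP D T n, zz D l q (KK D T R l n q) ∈
      (D.nb T (R + l)).filter (fun w => w ∉ T) := by
    intro q hq
    obtain ⟨-, -, h2, h3, -⟩ := kk_props D hl hfar hq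
    exact mem_filter.2 ⟨h2, h3⟩
  rw [card_eq_sum_card_fiberwise h1]
  refine sum_congr rfl fun w _ => ?_
  unfold LL
  congr

end Pool.Agent.H99.TG
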