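import Pool.Agent.H99.TG.Defs

/-!
# TG/Line: open lines

As `Pool/Agent/CGA/LineP.lean` (finished; there lines are lists, here functions `z : ℕ → V`).
* `dep_OZ`: `Gr.dep_reach` for every `i < m`, `inn_mono`.
* `pZ_eq`: `pr_dep` with `dep_OZ`.
* `OZ_split`: indices `i < k` and `i = k + j`, `j < m`.
* `UZ_split`: the same for the unions.
* `OZ_reach`: the whole line is a path off `T` if `UZ` is disjoint from `T` (induction on `m`, `Reach.mono`; for `m = 0` the
  trivial path).
* `pZ_split_le`: Harris (`harris_pr`): over `inn (UZ z (k+m))` the two increasing events have probabilities `pZ z k` and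
  `pZ (fun i => z (k+i)) m` (`pZ_eq`).
* `pZ_ge`: induction with `pZ_split_le` (`m = m' + 1 = m' + 1` steps; `pZ` of one step is `cp`).
-/

namespace Pool.Agent.H99.TG

open Finset Pool.Agent.DLP Pool.Agent.CGA

variable {V E : Type} [DecidableEq V] [DecidableEq E] {G : Gr V E}

theorem OZ_mono (D : Geo G) (R : ℕ) (z : ℕ → V) (m : ℕ) {ω ω' : Finset E} (h : ω ⊆ ω')
    (hO : OZ D R z m ω) : OZ D R z m ω' := fun i hi =>
  (hO i hi).mono (coe_subset.2 h) (Set.Subset.refl _)

theorem dep_OZ (D : Geo G) (R : ℕ) (z : ℕ → V) (m : ℕ) :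
    Dep (↑(G.inn (UZ D R z m)) : Set E) (fun ω => OZ D R z m ω) := by
  intro ω ω' h
  apply propext
  refine forall_congr' fun i => forall_congr' fun hi => ?_
  refine iff_of_eq (Gr.dep_reach G (D.B (z i) R) (z i) (z (i + 1)) ω ω' fun e he => h e ?_)
  exact coe_subset.2 (Gr.inn_mono G
    (subset_biUnion_of_mem (fun i => D.B (z i) R) (mem_range.2 hi))) he

theorem pZ_eq (D : Geo G) (p : ℝ) {R : ℕ} {z : ℕ → V} {m : ℕ} {F : Finset E}
    (hF : G.inn (UZ D R z m) ⊆ F) : pr p F (OZ D R z m) = pZ D p R z m := by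
  refine pr_dep (dep_OZ D R z m) fun i hi => ?_
  exact ⟨fun _ => mem_coe.1 hi, fun _ => hF (mem_coe.1 hi)⟩

theorem OZ_split (D : Geo G) (R : ℕ) (z : ℕ → V) (k m : ℕ) (ω : Finset E) :
    OZ D R z (k + m) ω ↔ OZ D R z k ω ∧ OZ D R (fun i => z (k + i)) m ω := by
  constructor
  · intro h
    exact ⟨fun i hi => h i (by omega), fun j hj => h (k + j) (by omega)⟩
  · rintro ⟨h1, h2⟩ i hi
    rcases Nat.lt_or_ge i k with hk | hk
    · exact h1 i hk
    · obtain ⟨j, rfl⟩ := Nat.exists_eq_add_of_le hk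
      exact h2 j (by omega)

theorem UZ_split (D : Geo G) (R : ℕ) (z : ℕ → V) (k m : ℕ) :
    UZ D R z (k + m) = UZ D R z k ∪ UZ D R (fun i => z (k + i)) m := by
  ext x
  simp only [UZ, mem_biUnion, mem_range, mem_union]
  constructor
  · rintro ⟨i, hi, hx⟩
    rcases Nat.lt_or_ge i k with hk | hk
    · exact Or.inl ⟨i, hk, hx⟩
    · obtain ⟨j, rfl⟩ := Nat.exists_eq_add_of_le hk
      exact Or.inr ⟨j, by omega, hx⟩
  · rintro (⟨i, hi, hx⟩ | ⟨j, hj, hx⟩)
    · exact ⟨i, by omega, hx⟩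
    · exact ⟨k + j, by omega, hx⟩

theorem OZ_reach (D : Geo G) {R : ℕ} {z : ℕ → V} {m : ℕ} {ω : Finset E} (h : OZ D R z m ω)
    {T : Finset V} (hT : Disjoint (UZ D R z m) T) :
    G.Reach (↑ω : Set E) {x | x ∉ T} (z 0) (z m) := by
  induction m with
  | zero => exact Relation.ReflTransGen.refl
  | succ m ih =>
    have h1 : OZ D R z m ω := fun i hi => h i (by omega)
    have h2 : Disjoint (UZ D R z m) T :=
      hT.mono_left (biUnion_subset_biUnion_of_subset_left _ (range_mono (Nat.le_succ m)))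
    have h3 : D.B (z m) R ⊆ UZ D R z (m + 1) :=
      subset_biUnion_of_mem (fun i => D.B (z i) R) (mem_range.2 (Nat.lt_succ_self m))
    refine (ih h1 h2).trans ((h m (Nat.lt_succ_self m)).mono (Set.Subset.refl _) fun x hx => ?_)
    exact disjoint_left.1 hT (h3 (mem_coe.1 hx))

theorem pZ_split_le (D : Geo G) {p : ℝ} (h0 : 0 ≤ p) (h1 : p ≤ 1) (R : ℕ) (z : ℕ → V)
    (k m : ℕ) : pZ D p R z k * pZ D p R (fun i => z (k + i)) m ≤ pZ D p R z (k + m) := by
  have hU := UZ_split D R z k m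
  have e1 : pr p (G.inn (UZ D R z (k + m))) (OZ D R z k) = pZ D p R z k :=
    pZ_eq D p (by rw [hU]; exact Gr.inn_mono G subset_union_left)
  have e2 : pr p (G.inn (UZ D R z (k + m))) (OZ D R (fun i => z (k + i)) m) =
      pZ D p R (fun i => z (k + i)) m :=
    pZ_eq D p (by rw [hU]; exact Gr.inn_mono G subset_union_right)
  rw [← e1, ← e2]
  refine (harris_pr h0 h1 _ (fun ω ω' h => OZ_mono D R z k h)
    (fun ω ω' h => OZ_mono D R _ m h)).trans (le_of_eq ?_)
  exact pr_congr fun ω _ => (OZ_split D R z k m ω).symm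

theorem pZ_ge (D : Geo G) {p c : ℝ} (h0 : 0 ≤ p) (h1 : p ≤ 1) (hc0 : 0 ≤ c) {R : ℕ}
    {z : ℕ → V} {m : ℕ} (hc : ∀ i < m, c ≤ cp G p (D.B (z i) R) (z i) (z (i + 1))) :
    c ^ m ≤ pZ D p R z m := by
  induction m with
  | zero =>
    rw [pow_zero]
    have h3 : pZ D p R z 0 = 1 := by
      have h4 : pZ D p R z 0 = pr p (G.inn (UZ D R z 0)) (fun _ => True) :=
        pr_congr fun ω _ => ⟨fun _ => trivial, fun _ i hi => absurd hi (Nat.not_lt_zero i)⟩
      rw [h4]
      exact pr_true p _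
    rw [h3]
  | succ m ih =>
    have h2 := pZ_split_le D h0 h1 R z m 1
    have h3 : pZ D p R (fun i => z (m + i)) 1 = cp G p (D.B (z m) R) (z m) (z (m + 1)) := by
      unfold pZ Pool.Agent.CGA.cp
      have h4 : UZ D R (fun i => z (m + i)) 1 = D.B (z m) R := by
        unfold UZ
        rw [range_one, singleton_biUnion]
        rfl
      rw [h4]
      refine pr_congr fun ω _ => ?_
      constructor
      · intro h
        exact h 0 Nat.zero_lt_one
      · intro h i hi
        have hi0 : i = 0 := by omega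
        subst hi0
        exact h
    have h5 := hc m (Nat.lt_succ_self m)
    have h6 := ih fun i hi => hc i (by omega)
    calc c ^ (m + 1) = c ^ m * c := pow_succ c m
      _ ≤ pZ D p R z m * pZ D p R (fun i => z (m + i)) 1 := by
        rw [h3]
        exact mul_le_mul h6 h5 hc0 (le_trans (pow_nonneg hc0 m) h6)
      _ ≤ _ := h2

end Pool.Agent.H99.TG
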