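import Pool.Agent.H99.TG.Core

/-!
# TG/Main: from vertex sets to subgraphs

Same proof as `main_sub` in `Pool/Agent/CGA/MainG.lean` (finished). `q = |inc v| ≥ 1` (`deg_pos'`, `inc_card'`). `core_T` with
the `b` of `hQ 1` gives `ε₁, C`. Let `b'` be from `hQ q`; `ε = ε₁ min b' 1` or `ε₁ b'`.
For `n ≥ 1` let `m` be the least number with `n ≤ q m` (so `m ≥ 1`): if `(U, A)` is a subgraph with `n ≤ |A|`, then
`|A| ≤ q |U|` (as `sub_card_gen`), so `m ≤ |U|`; `U` is connected by open edges (`Gr.sub_reach`), the open edges of `cut U` are in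
`bdry` (`Gr.cut_subset_bdry`). If `|bdry| ≤ ε φ n ≤ ε₁ φ m` (`hQ q`) then `Bad v ω m (ε₁ φ m)`, of probability
`≤ C exp(-ε₁ φ m) ≤ C exp(-ε φ n)`.
-/

namespace Pool.Agent.H99.TG

open Finset Pool.Agent.DLP Pool.Agent.CGA MeasureTheory

variable {V E : Type} [DecidableEq V] [DecidableEq E] {G : Gr V E}

theorem sub_card_T (D : Geo G) {ω : E → Bool} {v : V} {U : Finset V} {A : Finset E}
    (h : G.IsSub ω v U A) : A.card ≤ (G.inc v).card * U.card := by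
  obtain ⟨_, hA, _⟩ := h
  have h1 : A ⊆ U.biUnion G.inc := by
    intro e he
    rw [Finset.mem_biUnion]
    exact ⟨G.a e, (hA e he).2.1, (G.mem_inc _ _).2 (Or.inl rfl)⟩
  refine (Finset.card_le_card h1).trans (Finset.card_biUnion_le.trans ?_)
  rw [Finset.sum_congr rfl fun u _ => inc_card' D u v, Finset.sum_const, smul_eq_mul, mul_comm]

theorem main_T (D : Geo G) [Infinite V] (hF : Fol G) {φ : ℕ → ℝ}
    (hφ : ∀ n, 1 ≤ n → 0 < φ n)
    (hQ : ∀ q : ℕ, 1 ≤ q → ∃ b : ℝ, 0 < b ∧ ∀ n m : ℕ, 1 ≤ n → n ≤ q * m → b * φ n ≤ φ m)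
    (hΦ : ∀ p c : ℝ, 0 < p → p ≤ 1 → 0 < c → (∀ x y : V, ∃ Λ : Finset V, c ≤ cp G p Λ x y) →
      ∃ κ : ℝ, 0 < κ ∧ ∀ Λ T : Finset V, T ⊆ Λ → T.Nonempty →
        κ * φ T.card ≤ ∑ e ∈ G.cut T, G.acc p Λ T e) {p : unitInterval}
    (hp : pcT G < p) (v : V) :
    ∃ ε : ℝ, 0 < ε ∧ ∃ C : ℝ, 0 < C ∧ ∀ n : ℕ, 1 ≤ n →
      perc E p {ω | ∃ (U : Finset V) (A : Finset E), G.IsSub ω v U A ∧
          n ≤ A.card ∧ ((G.bdry ω U A).card : ℝ) ≤ ε * φ n} ≤
        ENNReal.ofReal (C * Real.exp (-(ε * φ n))) := by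
  obtain ⟨b, hb, hQ1⟩ := hQ 1 le_rfl
  obtain ⟨ε, hε, C, hC, hcore⟩ := core_T D hF hb hφ
    (fun m n hm hmn => hQ1 m n hm (by omega)) hΦ hp
  obtain ⟨q, hqd⟩ : ∃ q, q = (G.inc v).card := ⟨_, rfl⟩
  have hq : 1 ≤ q := by rw [hqd]; exact deg_pos' D v
  obtain ⟨b', hb', hQq⟩ := hQ q hq
  refine ⟨ε * b', mul_pos hε hb', C, hC, fun n hn => ?_⟩
  obtain ⟨m, hm⟩ : ∃ m, m = (n + q - 1) / q := ⟨_, rfl⟩
  have hqm : n ≤ q * m := by
    have h1 := Nat.div_add_mod (n + q - 1) q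
    have h2 := Nat.mod_lt (n + q - 1) (show 0 < q by omega)
    rw [← hm] at h1
    omega
  have hm1 : 1 ≤ m := by
    rcases Nat.eq_zero_or_pos m with h | h
    · rw [h, mul_zero] at hqm
      omega
    · exact h
  have hmU : ∀ u : ℕ, n ≤ q * u → m ≤ u := by
    intro u hu
    rw [hm]
    apply Nat.le_of_lt_succ
    rw [Nat.div_lt_iff_lt_mul (by omega)]
    have : q * (u + 1) = q * u + q := by ring
    rw [Nat.succ_eq_add_one, mul_comm]
    omega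
  have hkey : ε * b' * φ n ≤ ε * φ m := by
    rw [mul_assoc]
    exact mul_le_mul_of_nonneg_left (hQq n m hn hqm) hε.le
  have hsub : {ω : E → Bool | ∃ (U : Finset V) (A : Finset E),
      G.IsSub ω v U A ∧ n ≤ A.card ∧
        ((G.bdry ω U A).card : ℝ) ≤ ε * b' * φ n} ⊆
      {ω | G.Bad v ω m (ε * φ m)} := by
    rintro ω ⟨U, A, hUA, hA, hb⟩
    have hcard := sub_card_T D hUA
    rw [← hqd] at hcard
    refine ⟨U, hUA.1, hmU _ (hA.trans hcard), G.sub_reach hUA, ?_⟩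
    have h6 : (((G.cut U).filter (fun e => ω e = true)).card : ℝ) ≤
        (G.bdry ω U A).card := by
      exact_mod_cast Finset.card_le_card (G.cut_subset_bdry hUA)
    linarith
  refine (measure_mono hsub).trans ((hcore v m hm1).trans ?_)
  apply ENNReal.ofReal_le_ofReal
  exact mul_le_mul_of_nonneg_left (Real.exp_le_exp.2 (by linarith)) hC.le

end Pool.Agent.H99.TG
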