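import Pool.Agent.H99.TG.Path

/-!
# TG/Pack: disjoint balls deep inside a finite set

As `exists_pack` in `Pool/Agent/CGA/Pack.lean`. `core` = the `g ∈ R` with `B g n ⊆ R` and `B g n` disjoint from
`vb G R`.
(a) For `g ∈ R \ core` there is `u ∈ vb G R` with `d g u ≤ n`: clear if `B g n` meets `vb G R`; if `B g n` is not
contained in `R`, let `w ∈ B g n`, `w ∉ R`: `path_edges' g w` leaves `R` (`Reach.first_exit`) through an edge of
`cut R` whose end point in `R` is in `vb G R` and in `B g (d g w) ⊆ B g n`. So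
`|R \ core| ≤ |vb| |B o n|` (`R \ core ⊆ (vb G R).biUnion (fun u => B u n)`, `card_B`).
(b) `P ⊆ core` maximal with pairwise disjoint balls `B g n`: for `h ∈ core` some `g ∈ P` has
`B g n ∩ B h n ≠ ∅`, so `d g h ≤ 2 n` and `h ∈ B g (2 n)`: `|core| ≤ |P| |B o (2 n)|`.
-/

namespace Pool.Agent.H99.TG

open Finset Pool.Agent.DLP Pool.Agent.CGA

variable {V E : Type} [DecidableEq V] [DecidableEq E] {G : Gr V E}

theorem exists_pack' (D : Geo G) (o : V) (R : Finset V) (n : ℕ) :
    ∃ P : Finset V, (∀ g ∈ P, D.B g n ⊆ R ∧ Disjoint (D.B g n) (vb G R)) ∧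
      (∀ g ∈ P, ∀ h ∈ P, g ≠ h → Disjoint (D.B g n) (D.B h n)) ∧
      R.card ≤ (vb G R).card * (D.B o n).card + P.card * (D.B o (2 * n)).card := by
  obtain ⟨core, hcore⟩ : ∃ core, core = R.filter (fun g => D.B g n ⊆ R ∧
      Disjoint (D.B g n) (vb G R)) := ⟨_, rfl⟩
  have ha : R \ core ⊆ (vb G R).biUnion (fun u => D.B u n) := by
    intro g hg
    rw [mem_sdiff, hcore, mem_filter, not_and] at hg
    have h2 := hg.2 hg.1
    have h3 : ∃ u ∈ vb G R, D.d g u ≤ n := by
      by_cases h4 : D.B g n ⊆ R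
      · have h5 : ¬ Disjoint (D.B g n) (vb G R) := fun h => h2 ⟨h4, h⟩
        rw [Finset.not_disjoint_iff] at h5
        obtain ⟨z, hz, hz'⟩ := h5
        exact ⟨z, hz', (D.mem _ _ _).1 hz⟩
      · obtain ⟨w, hw, hw'⟩ := Finset.not_subset.1 h4
        have hwn := (D.mem _ _ _).1 hw
        obtain ⟨A, -, -, hA⟩ := path_edges' D g w
        obtain ⟨e, -, u, v, hu, hv, hab, huU, -, -, -⟩ := hA.first_exit hg.1 hw'
        have hcut : e ∈ G.cut R := by
          rw [Gr.mem_cut]
          rcases hab with ⟨ha, hb⟩ | ⟨ha, hb⟩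
          · left
            rw [ha, hb]
            exact ⟨hu, hv⟩
          · right
            rw [ha, hb]
            exact ⟨hv, hu⟩
        refine ⟨u, ?_, ?_⟩
        · unfold vb
          rw [mem_filter]
          refine ⟨hu, e, hcut, ?_⟩
          rcases hab with ⟨ha, hb⟩ | ⟨ha, hb⟩
          · exact Or.inl ha
          · exact Or.inr hb
        · have h6 := (D.mem _ _ _).1 (mem_coe.1 huU)
          omega
    obtain ⟨u, hu, hd⟩ := h3
    rw [mem_biUnion]
    exact ⟨u, hu, (D.mem _ _ _).2 (by rw [D.symm]; exact hd)⟩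
  obtain ⟨P, hP, hPmax⟩ := Finset.exists_max_image
    (core.powerset.filter (fun P => ∀ g ∈ P, ∀ h ∈ P, g ≠ h → Disjoint (D.B g n) (D.B h n)))
    Finset.card ⟨∅, by simp⟩
  rw [mem_filter, mem_powerset] at hP
  obtain ⟨hPc, hPd⟩ := hP
  have hmeet : ∀ h ∈ core, ∃ g ∈ P, ¬ Disjoint (D.B g n) (D.B h n) := by
    intro h hh
    by_contra hcon
    push Not at hcon
    have hhP : h ∉ P := by
      intro hhP
      have h2 := hcon h hhP
      rw [Finset.disjoint_left] at h2
      exact h2 (self_mem_B D h n) (self_mem_B D h n)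
    have h2 := hPmax (insert h P) (by
      rw [mem_filter, mem_powerset]
      refine ⟨Finset.insert_subset hh hPc, ?_⟩
      intro a ha b hb hab
      rw [mem_insert] at ha hb
      rcases ha with ha | ha
      · rcases hb with hb | hb
        · exact absurd (ha.trans hb.symm) hab
        · rw [ha]
          exact (hcon b hb).symm
      · rcases hb with hb | hb
        · rw [hb]
          exact hcon a ha
        · exact hPd a ha b hb hab)
    rw [Finset.card_insert_of_notMem hhP] at h2
    omega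
  have hb : core ⊆ P.biUnion (fun g => D.B g (2 * n)) := by
    intro h hh
    obtain ⟨g, hg, hgh⟩ := hmeet h hh
    rw [Finset.not_disjoint_iff] at hgh
    obtain ⟨z, hz, hz'⟩ := hgh
    rw [mem_biUnion]
    refine ⟨g, hg, (D.mem _ _ _).2 ?_⟩
    have h1 := (D.mem _ _ _).1 hz
    have h2 := (D.mem _ _ _).1 hz'
    have h3 := D.tri g z h
    have h4 := D.symm z h
    omega
  have hcs : core ⊆ R := by rw [hcore]; exact filter_subset _ _
  refine ⟨P, ?_, hPd, ?_⟩
  · intro g hg
    have h2 := hPc hg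
    rw [hcore, mem_filter] at h2
    exact h2.2
  · have c1 := (card_le_card ha).trans (Finset.card_biUnion_le_card_mul (vb G R) (fun u => D.B u n)
      (D.B o n).card (fun u _ => (card_B D u o n).le))
    have c2 := (card_le_card hb).trans (Finset.card_biUnion_le_card_mul P (fun g => D.B g (2 * n))
      (D.B o (2 * n)).card (fun g _ => (card_B D g o (2 * n)).le))
    have c3 := Finset.card_sdiff_add_card_eq_card hcs
    calc R.card = (R \ core).card + core.card := c3.symm
      _ ≤ _ := Nat.add_le_add c1 c2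

end Pool.Agent.H99.TG
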