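import Pool.Agent.H99.TG.Line

/-!
# TG/Pair: two open lines from the same point

As `Pool/Agent/CGA/PairG.lean` (finished).
Let `k ≤ m'` be minimal such that `UZ R (fun i => z' (k + i)) (m' - k)` is disjoint from `UZ R z m` (`k = m'` works). Then
`P(OZ z m ∧ OZ z' m') ≤ P(OZ z m ∧ OZ (shift k z') (m' - k)) = pZ z m * pZ (shift k z') (m' - k)` (`OZ_split`, `pr_indep`,
`dep_OZ`, disjoint vertex sets have disjoint `inn`, `pZ_eq`), and `pZ z' m' ≥ pZ z' k * pZ (shift) ≥ c^k pZ (shift)`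
(`pZ_split_le`, `pZ_ge`). So the bound `(c⁻¹)^k pZ z m * pZ z' m'`. If `k = 0` it is at most the term `1`. If `k ≥ 1`, by
minimality the ball `B (z' (k-1)) R` meets `UZ R z m` and `(c⁻¹)^k` is the summand `i = k - 1`.
-/

namespace Pool.Agent.H99.TG

open Finset Pool.Agent.DLP Pool.Agent.CGA

variable {V E : Type} [DecidableEq V] [DecidableEq E] {G : Gr V E}

theorem pair_le_aux (D : Geo G) {p c : ℝ} (h0 : 0 ≤ p) (h1 : p ≤ 1) (hc0 : 0 < c) {R : ℕ}
    {z z' : ℕ → V} {m k j : ℕ}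
    (hc : ∀ i < k, c ≤ cp G p (D.B (z' i) R) (z' i) (z' (i + 1)))
    (hdis : Disjoint (UZ D R z m) (UZ D R (fun i => z' (k + i)) j)) {F : Finset E}
    (hF : G.inn (UZ D R z m) ⊆ F) (hF' : G.inn (UZ D R z' (k + j)) ⊆ F) :
    pr p F (fun ω => OZ D R z m ω ∧ OZ D R z' (k + j) ω) ≤
      c⁻¹ ^ k * (pZ D p R z m * pZ D p R z' (k + j)) := by
  have hd : Disjoint (↑(G.inn (UZ D R z m)) : Set E)
      (↑(G.inn (UZ D R (fun i => z' (k + i)) j)) : Set E) := by
    rw [Set.disjoint_left]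
    intro e he he'
    have e1 := ((Gr.mem_inn G).1 (mem_coe.1 he)).1
    have e2 := ((Gr.mem_inn G).1 (mem_coe.1 he')).1
    exact (Finset.disjoint_left.1 hdis) e1 e2
  have h2 : G.inn (UZ D R (fun i => z' (k + i)) j) ⊆ F := by
    refine (Gr.inn_mono G ?_).trans hF'
    rw [UZ_split]
    exact subset_union_right
  have h3 : pr p F (fun ω => OZ D R z m ω ∧ OZ D R z' (k + j) ω) ≤
      pr p F (fun ω => OZ D R z m ω ∧ OZ D R (fun i => z' (k + i)) j ω) :=
    pr_mono h0 h1 fun ω _ h => ⟨h.1, ((OZ_split D R z' k j ω).1 h.2).2⟩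
  rw [pr_indep (dep_OZ D R z m) (dep_OZ D R (fun i => z' (k + i)) j) hd, pZ_eq D p hF,
    pZ_eq D p h2] at h3
  have h4 := pZ_split_le D h0 h1 R z' k j
  have h5 := pZ_ge D h0 h1 hc0.le hc
  have h6 : 0 ≤ pZ D p R z m := pr_nonneg h0 h1 _ _
  have h7 : 0 ≤ pZ D p R (fun i => z' (k + i)) j := pr_nonneg h0 h1 _ _
  have h8 : c ^ k * pZ D p R (fun i => z' (k + i)) j ≤ pZ D p R z' (k + j) :=
    (mul_le_mul_of_nonneg_right h5 h7).trans h4
  have h9 : pZ D p R (fun i => z' (k + i)) j ≤ c⁻¹ ^ k * pZ D p R z' (k + j) := by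
    rw [inv_pow, ← div_eq_inv_mul, le_div_iff₀ (pow_pos hc0 k), mul_comm]
    exact h8
  refine h3.trans ?_
  calc pZ D p R z m * pZ D p R (fun i => z' (k + i)) j
      ≤ pZ D p R z m * (c⁻¹ ^ k * pZ D p R z' (k + j)) := mul_le_mul_of_nonneg_left h9 h6
    _ = c⁻¹ ^ k * (pZ D p R z m * pZ D p R z' (k + j)) := by ring

theorem UZ_pair_aux (D : Geo G) {R : ℕ} {z' : ℕ → V} {m' k : ℕ} (hk : k + 1 ≤ m')
    {T : Finset V} (h1 : Disjoint (D.B (z' k) R) T)
    (h2 : Disjoint T (UZ D R (fun i => z' (k + 1 + i)) (m' - (k + 1)))) :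
    Disjoint T (UZ D R (fun i => z' (k + i)) (m' - k)) := by
  rw [Finset.disjoint_left] at h1 h2 ⊢
  intro x hx hx'
  unfold UZ at hx' h2
  rw [mem_biUnion] at hx'
  obtain ⟨i, hi, hx'⟩ := hx'
  rw [mem_range] at hi
  cases i with
  | zero => exact h1 hx' hx
  | succ i =>
    refine h2 hx ?_
    rw [mem_biUnion]
    refine ⟨i, mem_range.2 (by omega), ?_⟩
    have e : k + (i + 1) = k + 1 + i := by omega
    have hx2 : x ∈ D.B (z' (k + (i + 1))) R := hx'
    rw [e] at hx2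
    exact hx2

open Classical in
theorem pair_near' (D : Geo G) {p c : ℝ} (h0 : 0 ≤ p) (h1 : p ≤ 1) (hc0 : 0 < c) {R : ℕ}
    {z z' : ℕ → V} {m m' : ℕ}
    (hc : ∀ i < m', c ≤ cp G p (D.B (z' i) R) (z' i) (z' (i + 1))) {F : Finset E}
    (hF : G.inn (UZ D R z m) ⊆ F) (hF' : G.inn (UZ D R z' m') ⊆ F) :
    pr p F (fun ω => OZ D R z m ω ∧ OZ D R z' m' ω) ≤
      (1 + ∑ i ∈ range m', c⁻¹ ^ (i + 1) *
        (if ¬ Disjoint (D.B (z' i) R) (UZ D R z m) then 1 else 0)) *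
      (pZ D p R z m * pZ D p R z' m') := by
  have hex : ∃ k, k ≤ m' ∧
      Disjoint (UZ D R z m) (UZ D R (fun i => z' (k + i)) (m' - k)) := by
    refine ⟨m', le_rfl, ?_⟩
    rw [Nat.sub_self]
    exact Finset.disjoint_empty_right _
  obtain ⟨hkm, hdis⟩ := Nat.find_spec hex
  set k := Nat.find hex with hk
  have hkj : k + (m' - k) = m' := by omega
  have key := pair_le_aux D h0 h1 hc0 (fun i hi => hc i (by omega)) hdis hF
    (by rw [hkj]; exact hF')
  rw [hkj] at key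
  refine key.trans ?_
  have hci : 0 ≤ c⁻¹ := (inv_pos.2 hc0).le
  have hnn : ∀ i ∈ range m', (0 : ℝ) ≤ c⁻¹ ^ (i + 1) *
      (if ¬ Disjoint (D.B (z' i) R) (UZ D R z m) then 1 else 0) := by
    intro i _
    refine mul_nonneg (pow_nonneg hci _) ?_
    split_ifs
    · exact le_rfl
    · exact zero_le_one
  refine mul_le_mul_of_nonneg_right ?_
    (mul_nonneg (pr_nonneg h0 h1 _ _) (pr_nonneg h0 h1 _ _))
  rcases Nat.eq_zero_or_pos k with h | h
  · rw [h, pow_zero]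
    linarith [Finset.sum_nonneg hnn]
  · have hi : k - 1 ∈ range m' := mem_range.2 (by omega)
    have hle := Finset.single_le_sum hnn hi
    have hk1 : k - 1 + 1 = k := by omega
    have hnot : ¬ Disjoint (D.B (z' (k - 1)) R) (UZ D R z m) := by
      intro hD
      have hmin := Nat.find_min hex (m := k - 1) (by omega)
      apply hmin
      refine ⟨by omega, UZ_pair_aux D (by omega) hD ?_⟩
      rw [hk1]
      exact hdis
    rw [if_pos hnot, mul_one, hk1] at hle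
    linarith

end Pool.Agent.H99.TG
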