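import Pool.Agent.H99.TG.Basic

/-!
# TG/Path: paths inside balls

Same proofs as `path_edges`, `ball_conn`, `cut_pos`, `deg_pos` in `Pool/Agent/CGA/CayB.lean` and `cp_path` in
`Pool/Agent/CGA/CpG.lean`.
* `path_edges'`: induction on `n = D.d x y`, `y` general: `D.mid` gives `z` with `d x z = n`, `d z y = 1`; `D.step z y`
  gives an edge.
* `ball_conn'`: `path_edges'` from `x` to both points, inside `B x (d x u) ⊆ B x n`.
* `cut_pos'`: choose `t ∈ T`, `y ∉ T` (infinite); the path leaves `T` (`Reach.exists_cut_edge`).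
-/

namespace Pool.Agent.H99.TG

open Finset Pool.Agent.DLP Pool.Agent.CGA

variable {V E : Type} [DecidableEq V] [DecidableEq E] {G : Gr V E}

theorem path_edges_aux (D : Geo G) (x : V) (n : ℕ) : ∀ y, D.d x y = n →
    ∃ A : Finset E, A.card ≤ n ∧ A ⊆ G.inn (D.B x n) ∧
      G.Reach (↑A : Set E) (↑(D.B x n) : Set V) x y := by
  induction n with
  | zero =>
    intro y hy
    have hxy := D.eq_of x y hy
    subst hxy
    exact ⟨∅, le_rfl, Finset.empty_subset _, Gr.Reach.refl G _ _ _⟩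
  | succ n ih =>
    intro y hy
    obtain ⟨z, hz, hzy⟩ := D.mid x y n hy
    obtain ⟨A, h1, h2, h3⟩ := ih z hz
    obtain ⟨e, he⟩ := D.step z y hzy
    have hmono : D.B x n ⊆ D.B x (n + 1) := B_mono D x (Nat.le_succ n)
    have m1 : z ∈ D.B x (n + 1) := (D.mem _ _ _).2 (by omega)
    have m2 : y ∈ D.B x (n + 1) := (D.mem _ _ _).2 (by omega)
    refine ⟨insert e A, (Finset.card_insert_le e A).trans (Nat.succ_le_succ h1), ?_, ?_⟩
    · refine Finset.insert_subset ?_ (h2.trans (G.inn_mono hmono))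
      rw [Gr.mem_inn]
      rcases he with ⟨a1, b1⟩ | ⟨a1, b1⟩ <;> rw [a1, b1]
      · exact ⟨m1, m2⟩
      · exact ⟨m2, m1⟩
    · have h4 : G.Reach (↑(insert e A) : Set E) (↑(D.B x (n + 1)) : Set V) x z :=
        h3.mono (Finset.coe_subset.2 (Finset.subset_insert e A)) (Finset.coe_subset.2 hmono)
      refine h4.trans ?_
      have he1 : e ∈ (↑(insert e A) : Set E) := Finset.mem_coe.2 (Finset.mem_insert_self e A)
      rcases he with ⟨a1, b1⟩ | ⟨a1, b1⟩
      · have h5 := Gr.Reach.edge (G := G) (U := (↑(D.B x (n + 1)) : Set V)) he1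
          (by rw [a1]; exact m1) (by rw [b1]; exact m2)
        rwa [a1, b1] at h5
      · have h5 := Gr.Reach.edge (G := G) (U := (↑(D.B x (n + 1)) : Set V)) he1
          (by rw [a1]; exact m2) (by rw [b1]; exact m1)
        rw [a1, b1] at h5
        exact h5.symm

theorem path_edges' (D : Geo G) (x y : V) :
    ∃ A : Finset E, A.card ≤ D.d x y ∧ A ⊆ G.inn (D.B x (D.d x y)) ∧
      G.Reach (↑A : Set E) (↑(D.B x (D.d x y)) : Set V) x y :=
  path_edges_aux D x (D.d x y) y rfl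

theorem ball_conn' (D : Geo G) (x : V) (n : ℕ) {ω : Finset E} (hω : G.inn (D.B x n) ⊆ ω)
    {u w : V} (hu : u ∈ D.B x n) (hw : w ∈ D.B x n) :
    G.Reach (↑ω : Set E) (↑(D.B x n) : Set V) u w := by
  have key : ∀ z ∈ D.B x n, G.Reach (↑ω : Set E) (↑(D.B x n) : Set V) x z := by
    intro z hz
    have hle : D.d x z ≤ n := (D.mem _ _ _).1 hz
    obtain ⟨A, -, h2, h3⟩ := path_edges' D x z
    have hm := B_mono D x hle
    exact h3.mono (Finset.coe_subset.2 ((h2.trans (G.inn_mono hm)).trans hω))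
      (Finset.coe_subset.2 hm)
  exact (key u hu).symm.trans (key w hw)

theorem cut_pos' (D : Geo G) [Infinite V] {T : Finset V} (hT : T.Nonempty) :
    1 ≤ (G.cut T).card := by
  obtain ⟨t, ht⟩ := hT
  obtain ⟨y, hy⟩ := Infinite.exists_notMem_finset T
  obtain ⟨A, -, -, h3⟩ := path_edges' D t y
  obtain ⟨e, he, -⟩ := h3.exists_cut_edge ht hy
  exact Finset.card_pos.2 ⟨e, he⟩

theorem deg_pos' (D : Geo G) [Infinite V] (x : V) : 1 ≤ (G.inc x).card := by
  have h1 := cut_pos' D (T := {x}) (Finset.singleton_nonempty x)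
  have h2 := card_cut_le' D x {x}
  rw [Finset.card_singleton, mul_one] at h2
  exact h1.trans h2

theorem cp_path' (D : Geo G) {p : ℝ} (h0 : 0 ≤ p) (h1 : p ≤ 1) (x y : V) :
    p ^ D.d x y ≤ cp G p (D.B x (D.d x y)) x y := by
  obtain ⟨A, hA, hAi, hr⟩ := path_edges' D x y
  unfold Pool.Agent.CGA.cp
  refine (pow_le_pow_of_le_one h0 h1 hA).trans ?_
  rw [← pr_contain p hAi]
  refine pr_mono h0 h1 fun ω _ hAω => hr.mono ?_ (Set.Subset.refl _)
  exact_mod_cast hAω

end Pool.Agent.H99.TG
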