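import Mathlib

/-!
# TG/Rec: numerical facts on the growth sequence (no graphs)

* `exists_record`: `u r = s r * lam⁻¹^r ≥ (g / lam)^r` tends to infinity. Let `M` be the maximum of `u` on `[0, N]`, `n'` with
  `M < u n'`; `n` = a point of `[0, n']` where `u` is maximal on `[0, n']` (`Finset.exists_max_image`): `n > N`, and
  `u (n - k) ≤ u n` for `k ≤ n`, i.e. `s (n - k) lam⁻¹^(n-k) ≤ s n lam⁻¹^n`; multiply by `lam^(n-k)`.
* `growth_le`: `s (k r) ≤ s r ^ k` by induction on `k` (`hsub`, `h0`). For `r ≥ 1`: `(s (k r))^(1/(k r)) ≤ (s r)^(1/r)` for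
  `k ≥ 1`; the left side tends to `g` as `k → ∞` (composition of `hlim` with `k ↦ k r`), so `g ≤ (s r)^(1/r)`.
* `growth_up`: `g < g √g` (as `g > 1`), so by `hlim` there is `r₀` with `(s r)^(1/r) ≤ g √g` for `r ≥ r₀`, i.e.
  `s r / g^r ≤ (√g)^r`; `A = 1 + ∑_{r < r₀} s r`.
-/

namespace Pool.Agent.H99.TG

open Finset Filter Topology

theorem exists_record {s : ℕ → ℝ} {g lam : ℝ} (hl : 1 ≤ lam) (hg : lam < g)
    (hs : ∀ r, g ^ r ≤ s r) (N : ℕ) :
    ∃ n, N ≤ n ∧ ∀ k ≤ n, s (n - k) ≤ s n * lam⁻¹ ^ k := by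
  have hl0 : 0 < lam := by linarith
  have hi0 : 0 < lam⁻¹ := inv_pos.2 hl0
  set u : ℕ → ℝ := fun r => s r * lam⁻¹ ^ r with hu
  have hu1 : ∀ r, (g * lam⁻¹) ^ r ≤ u r := by
    intro r
    rw [hu, mul_pow]
    exact mul_le_mul_of_nonneg_right (hs r) (pow_nonneg hi0.le r)
  have h1 : 1 < g * lam⁻¹ := by
    rw [← div_eq_mul_inv, lt_div_iff₀ hl0]
    linarith
  have ht : Tendsto u atTop atTop :=
    tendsto_atTop_mono hu1 (tendsto_pow_atTop_atTop_of_one_lt h1)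
  obtain ⟨j0, hj0, hmax0⟩ := Finset.exists_max_image (Finset.range (N + 1)) u ⟨0, by simp⟩
  obtain ⟨n', hn'⟩ := (ht.eventually_gt_atTop (u j0)).exists
  obtain ⟨n, hn, hmax⟩ := Finset.exists_max_image (Finset.range (n' + 1)) u ⟨0, by simp⟩
  have hNn : N < n := by
    by_contra hcon
    have h2 := hmax0 n (Finset.mem_range.2 (by omega))
    have h3 := hmax n' (Finset.mem_range.2 (by omega))
    linarith
  refine ⟨n, hNn.le, fun k hk => ?_⟩
  have hnn : n < n' + 1 := Finset.mem_range.1 hn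
  have h4 : u (n - k) ≤ u n := hmax (n - k) (Finset.mem_range.2 (by omega))
  have h5 : lam⁻¹ ^ n = lam⁻¹ ^ k * lam⁻¹ ^ (n - k) := by
    rw [← pow_add]
    congr 1
    omega
  simp only [hu, h5] at h4
  rw [← mul_assoc] at h4
  exact le_of_mul_le_mul_right h4 (pow_pos hi0 _)

theorem growth_le {s : ℕ → ℕ} (h0 : s 0 = 1) (hsub : ∀ m n, s (m + n) ≤ s m * s n) {g : ℝ}
    (hg : 1 < g) (hlim : Tendsto (fun r : ℕ => (s r : ℝ) ^ ((1 : ℝ) / r)) atTop (𝓝 g)) (r : ℕ) :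
    g ^ r ≤ s r := by
  rcases Nat.eq_zero_or_pos r with rfl | hr
  · simp [h0]
  have hk : ∀ k : ℕ, s (k * r) ≤ s r ^ k := by
    intro k
    induction k with
    | zero => simp [h0]
    | succ k ih =>
      rw [Nat.succ_mul, pow_succ]
      exact (hsub _ _).trans (Nat.mul_le_mul_right _ ih)
  have hr0 : (0 : ℝ) < r := by exact_mod_cast hr
  have hs0 : (0 : ℝ) ≤ s r := Nat.cast_nonneg _
  have hle : g ≤ (s r : ℝ) ^ ((1 : ℝ) / r) := by
    have hc : Tendsto (fun k : ℕ => k * r) atTop atTop :=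
      tendsto_id.atTop_mul_const' hr
    refine le_of_tendsto (hlim.comp hc) ?_
    filter_upwards [eventually_ge_atTop 1] with k hk1
    have hk0 : (0 : ℝ) < k := by exact_mod_cast hk1
    simp only [Function.comp]
    have e : (s r : ℝ) ^ ((1 : ℝ) / r) = ((s r : ℝ) ^ k) ^ ((1 : ℝ) / ((k * r : ℕ) : ℝ)) := by
      rw [← Real.rpow_natCast, ← Real.rpow_mul hs0]
      congr 1
      push_cast
      field_simp
    rw [e]
    apply Real.rpow_le_rpow (Nat.cast_nonneg _) _ (by positivity)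
    exact_mod_cast hk k
  calc g ^ r ≤ ((s r : ℝ) ^ ((1 : ℝ) / r)) ^ r := pow_le_pow_left₀ (by linarith) hle r
    _ = s r := by
      rw [← Real.rpow_natCast, ← Real.rpow_mul hs0]
      have : (1 : ℝ) / r * r = 1 := by field_simp
      rw [this, Real.rpow_one]

theorem growth_up {s : ℕ → ℕ} {g : ℝ}
    (hg : 1 < g) (hlim : Tendsto (fun r : ℕ => (s r : ℝ) ^ ((1 : ℝ) / r)) atTop (𝓝 g)) :
    ∃ A : ℝ, 1 ≤ A ∧ ∀ r, (s r : ℝ) / g ^ r ≤ A * √g ^ r := by
  have hg0 : 0 < g := by linarith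
  have hq1 : 1 < √g := Real.lt_sqrt_of_sq_lt (by simpa using hg)
  have hq0 : 0 < √g := by linarith
  have h1 : g < g * √g := lt_mul_of_one_lt_right hg0 hq1
  obtain ⟨r₀, hr₀⟩ := eventually_atTop.1 (hlim.eventually_lt_const h1)
  have hA0 : ∀ r, (0 : ℝ) ≤ s r := fun r => Nat.cast_nonneg _
  refine ⟨1 + ∑ r ∈ Finset.range (r₀ + 1), (s r : ℝ),
    le_add_of_nonneg_right (Finset.sum_nonneg fun r _ => hA0 r), fun r => ?_⟩
  have hsum : (0 : ℝ) ≤ ∑ r ∈ Finset.range (r₀ + 1), (s r : ℝ) :=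
    Finset.sum_nonneg fun r _ => hA0 r
  have hgr : (0 : ℝ) < g ^ r := pow_pos hg0 r
  have hqr : (1 : ℝ) ≤ √g ^ r := one_le_pow₀ hq1.le
  by_cases hr : r < r₀ + 1
  · have h2 : (s r : ℝ) ≤ ∑ r ∈ Finset.range (r₀ + 1), (s r : ℝ) :=
      Finset.single_le_sum (f := fun r => (s r : ℝ)) (fun r _ => hA0 r) (Finset.mem_range.2 hr)
    have h3 : (s r : ℝ) / g ^ r ≤ s r := div_le_self (hA0 r) (one_le_pow₀ hg.le)
    nlinarith
  · have hr' : r₀ ≤ r := by omega
    have hrpos : (0 : ℝ) < r := by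
      have : 0 < r := by omega
      exact_mod_cast this
    have h2 := hr₀ r hr'
    have h3 : (s r : ℝ) ≤ (g * √g) ^ r := by
      have h4 : ((s r : ℝ) ^ ((1 : ℝ) / r)) ^ r = s r := by
        rw [← Real.rpow_natCast, ← Real.rpow_mul (hA0 r)]
        have : (1 : ℝ) / r * r = 1 := by field_simp
        rw [this, Real.rpow_one]
      rw [← h4]
      exact pow_le_pow_left₀ (Real.rpow_nonneg (hA0 r) _) h2.le r
    rw [mul_pow] at h3
    have h5 : (s r : ℝ) / g ^ r ≤ √g ^ r := by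
      rw [div_le_iff₀ hgr]
      linarith [mul_comm (g ^ r) (√g ^ r)]
    nlinarith

end Pool.Agent.H99.TG
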