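import Pool.Agent.H99.TG.Sec
import Pool.Agent.H99.TG.CountN
import Pool.Agent.H99.TG.Acc
import Pool.Agent.H99.TG.Tau
import Pool.Agent.H99.TG.Rec

/-!
# TG/Phi: the accessible boundary of every finite set, with parameter `lam`

`c ≤ 1` (probabilities; or use `min c 1`). Choose `l ≥ 1` with `l0⁻¹^l ≤ c / 2`; `R` from `exists_radius'` for `l`; base point `o`;
`β = |B o (2 R)|`, `K = 1 + 2 (4 R + 1) β / c`; `κ = (K p⁻¹^(R+l) |B o (R+l)|)⁻¹`. (If `V` is empty there is no `T`: `V` is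
infinite.)
Let `T ⊆ Λ`, `T ≠ ∅`, `l0 ≤ lam < g`, `Q` as in the statement. `s r = |D.S o r|` (`card_S`). There is `N` with `d x z + l ≤ N` for
all `x ∈ T`, `z ∈ Λ ∪ nb T R` (finite). `exists_record` (`s ≥ g^r`, cast) gives a record `n ≥ N`: `Far D Λ T R l n`.
For every `w ∈ nb T (R+l)`, `w ∉ T`: `sec_mom'` with `𝓛 = LL w`, `z q i = zz q (KK q + i)`, `m q = n / l - KK q`, `y = w`,
`A = (4R+1) β (s n ∑_{x∈T} lam⁻¹^(d x w))`, `α = lam⁻¹^l ≤ l0⁻¹^l ≤ c/2` (`count_near`, `kk_props`; `hstep`: `zz_dist` and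
`exists_radius'`; `havoid`: `zz i ∉ nb T R` means that the ball of radius `R` around `zz i` is disjoint from `T`: `mem_nb`, `symm`)
gives `|LL w| ≤ (|LL w| + 2 A / c) gx w ≤ (s n Q K) gx w` (`count_w`).
Sum over `w` (`sum_LL`, `card_PP`): `|T| s n ≤ s n Q K ∑_w gx w ≤ s n Q K p⁻¹^(R+l) |B o (R+l)| Φ` (`sum_gx_le'`); `s n > 0`.
-/

namespace Pool.Agent.H99.TG

open Finset Pool.Agent.DLP Pool.Agent.CGA

variable {V E : Type} [DecidableEq V] [DecidableEq E] {G : Gr V E}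

theorem phi_pow {c l0 : ℝ} (hc0 : 0 < c) (hl0 : 1 < l0) : ∃ l : ℕ, 1 ≤ l ∧ l0⁻¹ ^ l ≤ c / 2 := by
  have h1 : l0⁻¹ < 1 := inv_lt_one_of_one_lt₀ hl0
  have h2 : 0 ≤ l0⁻¹ := by positivity
  obtain ⟨l, hl⟩ := exists_pow_lt_of_lt_one (show 0 < c / 2 by positivity) h1
  refine ⟨l + 1, by omega, ?_⟩
  rw [pow_succ]
  have h3 : 0 ≤ l0⁻¹ ^ l := by positivity
  nlinarith

theorem phi_far (D : Geo G) (Λ T : Finset V) (R l : ℕ) :
    ∃ N, ∀ n, N ≤ n → Far D Λ T R l n := by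
  refine ⟨(T ×ˢ (Λ ∪ D.nb T R)).sup (fun q => D.d q.1 q.2) + l, fun n hn x hx z hz => ?_⟩
  have h1 : (x, z) ∈ T ×ˢ (Λ ∪ D.nb T R) := mem_product.2 ⟨hx, mem_union.2 hz⟩
  have h2 := le_sup (f := fun q : V × V => D.d q.1 q.2) h1
  dsimp only at h2
  omega

/-- The bound for one exit point. -/
theorem phi_one (D : Geo G) {p c : ℝ} (h0 : 0 < p) (h1 : p ≤ 1) (hc0 : 0 < c) {s : ℕ → ℕ}
    (hs : ∀ x r, (D.S x r).card = s r) {lam : ℝ} {n : ℕ} (hlam : 0 < lam)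
    (hrec : ∀ k ≤ n, (s (n - k) : ℝ) ≤ s n * lam⁻¹ ^ k) {Λ T : Finset V} {R l : ℕ} (hl : 1 ≤ l)
    (hfar : Far D Λ T R l n) (hR : ∀ x y : V, D.d x y ≤ l → c ≤ cp G p (D.B x R) x y)
    (hα : lam⁻¹ ^ l ≤ c / 2) (o : V) {Q : ℝ} (w : V) (hQ : ∑ x ∈ T, lam⁻¹ ^ D.d x w ≤ Q) :
    ((LL D T R l n w).card : ℝ) ≤
      (s n * Q * (1 + 2 * ((4 * R + 1) * (D.B o (2 * R)).card) / c)) * gx G p Λ T w := by
  classical
  have hPP : ∀ q ∈ LL D T R l n w, q ∈ PP D T n := by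
    intro q hq
    unfold LL at hq
    exact (mem_filter.1 hq).1
  have hw : ∀ q ∈ LL D T R l n w, zz D l q (KK D T R l n q) = w := by
    intro q hq
    unfold LL at hq
    exact (mem_filter.1 hq).2
  set β : ℝ := (4 * R + 1) * ((D.B o (2 * R)).card : ℝ) with hβ
  have hβ0 : 0 ≤ β := by positivity
  have hsum0 : 0 ≤ ∑ x ∈ T, lam⁻¹ ^ D.d x w := sum_nonneg fun x _ => by positivity
  have hsn : (0 : ℝ) ≤ s n := Nat.cast_nonneg _
  have hcw := count_w D hs hlam hrec hl hfar w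
  have key := sec_mom' D h0.le h1 hc0 (R := R) (Λ := Λ) (T := T) (y := w) (LL D T R l n w)
    (fun q i => zz D l q (KK D T R l n q + i)) (fun q => n / l - KK D T R l n q)
    (fun q hq => hw q hq)
    (by
      intro q hq i hi
      apply hR
      have h3 := zz_dist D (l := l) (hPP q hq) (i := KK D T R l n q + i)
        (j := KK D T R l n q + (i + 1)) (by omega) (by omega)
      rw [h3, show KK D T R l n q + (i + 1) - (KK D T R l n q + i) = 1 by omega, mul_one])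
    (by
      intro q hq i hi
      have h3 := (kk_props D hl hfar (hPP q hq)).2.1 (KK D T R l n q + i) (by omega) (by omega)
      rw [Finset.disjoint_left]
      intro t ht htT
      apply h3
      rw [mem_nb]
      refine ⟨t, htT, ?_⟩
      rw [D.symm]
      exact (D.mem _ _ _).1 ht)
    (by
      intro q hq
      have h3 := kk_props D hl hfar (hPP q hq)
      have h4 : KK D T R l n q + (n / l - KK D T R l n q) = n / l := by
        have := h3.1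
        omega
      rw [h4]
      exact h3.2.2.2.2)
    (A := β * (s n * ∑ x ∈ T, lam⁻¹ ^ D.d x w)) (α := lam⁻¹ ^ l) (by positivity) (by positivity)
    hα
    (by
      intro q hq j
      have h3 := count_near D hs hlam hrec hl hfar o w hq j
      rw [← hβ] at h3
      convert h3)
  have hgx0 : 0 ≤ gx G p Λ T w := pr_nonneg h0.le h1 _ _
  refine key.trans (mul_le_mul_of_nonneg_right ?_ hgx0)
  have h5 : (s n : ℝ) * ∑ x ∈ T, lam⁻¹ ^ D.d x w ≤ s n * Q := mul_le_mul_of_nonneg_left hQ hsn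
  have h6 : 2 * (β * (s n * ∑ x ∈ T, lam⁻¹ ^ D.d x w)) / c ≤ 2 * (β * (s n * Q)) / c := by
    gcongr
  calc ((LL D T R l n w).card : ℝ) + 2 * (β * (s n * ∑ x ∈ T, lam⁻¹ ^ D.d x w)) / c
      ≤ s n * Q + 2 * (β * (s n * Q)) / c := add_le_add (hcw.trans h5) h6
    _ = s n * Q * (1 + 2 * β / c) := by ring

theorem phi_lam (D : Geo G) [Infinite V] {p c : ℝ} (h0 : 0 < p) (h1 : p ≤ 1) (hc0 : 0 < c)
    (hc : ∀ x y : V, ∃ Λ : Finset V, c ≤ cp G p Λ x y) {g l0 : ℝ} (hl0 : 1 < l0) (hlg : l0 < g)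
    (hgr : ∀ x r, g ^ r ≤ ((D.S x r).card : ℝ)) :
    ∃ κ : ℝ, 0 < κ ∧ ∀ Λ T : Finset V, T ⊆ Λ → T.Nonempty → ∀ lam : ℝ, l0 ≤ lam → lam < g →
      ∀ Q : ℝ, (∀ w : V, ∑ x ∈ T, lam⁻¹ ^ D.d x w ≤ Q) →
      κ * T.card ≤ Q * ∑ e ∈ G.cut T, G.acc p Λ T e := by
  classical
  obtain ⟨l, hl, hlc⟩ := phi_pow hc0 hl0
  obtain ⟨R, hR⟩ := exists_radius' D h0.le h1 hc l
  obtain ⟨o⟩ : Nonempty V := inferInstance
  obtain ⟨K, hK⟩ : ∃ K : ℝ, K = 1 + 2 * ((4 * R + 1) * ((D.B o (2 * R)).card : ℝ)) / c :=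
    ⟨_, rfl⟩
  have hK0 : 0 < K := by rw [hK]; positivity
  have hB : (0 : ℝ) < (D.B o (R + l)).card := by
    exact_mod_cast card_pos.2 ⟨o, self_mem_B D o _⟩
  have hpi : 0 < p⁻¹ := inv_pos.2 h0
  refine ⟨(K * p⁻¹ ^ (R + l) * (D.B o (R + l)).card)⁻¹, by positivity, ?_⟩
  intro Λ T _ _ lam hll hlg' Q hQ
  have hlam : 0 < lam := by linarith
  obtain ⟨N, hN⟩ := phi_far D Λ T R l
  obtain ⟨n, hn, hrec⟩ := exists_record (s := fun r => ((D.S o r).card : ℝ)) (g := g)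
    (lam := lam) (by linarith) hlg' (fun r => hgr o r) N
  have hfar := hN n hn
  have hs : ∀ x r, (D.S x r).card = (D.S o r).card := fun x r => card_S D x o r
  have hα : lam⁻¹ ^ l ≤ c / 2 := by
    refine le_trans (pow_le_pow_left₀ (by positivity) ?_ l) hlc
    exact inv_anti₀ (by linarith) hll
  have hsn : (0 : ℝ) < (D.S o n).card := lt_of_lt_of_le (pow_pos (by linarith) n) (hgr o n)
  have hone : ∀ w : V, ((LL D T R l n w).card : ℝ) ≤
      ((D.S o n).card * Q * K) * gx G p Λ T w := by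
    intro w
    rw [hK]
    exact phi_one D h0 h1 hc0 (s := fun r => (D.S o r).card) hs hlam hrec hl hfar hR hα o w (hQ w)
  have hQ0 : 0 ≤ Q := le_trans (sum_nonneg fun x _ => by positivity) (hQ o)
  obtain ⟨Φ, hΦ⟩ : ∃ Φ, ∑ e ∈ G.cut T, G.acc p Λ T e = Φ := ⟨_, rfl⟩
  have hacc := sum_gx_le' D o h0 h1 Λ T (R + l)
  rw [hΦ] at hacc ⊢
  have h2 : (T.card : ℝ) * (D.S o n).card ≤
      (D.S o n).card * Q * K * (p⁻¹ ^ (R + l) * (D.B o (R + l)).card * Φ) := by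
    have e1 := card_PP D (s := fun r => (D.S o r).card) hs T n
    have e2 := sum_LL D hl hfar
    rw [e1] at e2
    have e3 : (T.card : ℝ) * (D.S o n).card =
        ∑ w ∈ (D.nb T (R + l)).filter (fun w => w ∉ T), ((LL D T R l n w).card : ℝ) := by
      exact_mod_cast e2
    rw [e3]
    calc ∑ w ∈ (D.nb T (R + l)).filter (fun w => w ∉ T), ((LL D T R l n w).card : ℝ)
        ≤ ∑ w ∈ (D.nb T (R + l)).filter (fun w => w ∉ T),
            ((D.S o n).card * Q * K) * gx G p Λ T w := sum_le_sum fun w _ => hone w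
      _ = ((D.S o n).card * Q * K) *
            ∑ w ∈ (D.nb T (R + l)).filter (fun w => w ∉ T), gx G p Λ T w := by rw [mul_sum]
      _ ≤ _ := mul_le_mul_of_nonneg_left hacc (by positivity)
  rw [inv_mul_le_iff₀ (by positivity)]
  have h3 : (T.card : ℝ) * (D.S o n).card ≤
      (K * p⁻¹ ^ (R + l) * (D.B o (R + l)).card * (Q * Φ)) * (D.S o n).card := by
    refine h2.trans (le_of_eq ?_)
    ring
  exact le_of_mul_le_mul_right h3 hsn

end Pool.Agent.H99.TG
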