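import Pool.Agent.H99.TG.SumA
import Pool.Agent.H99.TG.Basic

/-!
# TG/SumB: the sum of `lam^(-d x w)` over `x ∈ T`

`N = ⌊log_g |T|⌋`, so `|T| < g^(N+1)`. Choose `lam` with `l0 ≤ lam < g`, and `(g / lam)^(N+1) ≤ 2` (e.g. by continuity:
`lam = max l0 (g 2^(-1/(N+1)))`, or: `x ↦ (g / x)^(N+1)` is continuous at `g` with value `1`). Then `lam⁻¹^r ≤ 2 g⁻¹^r` for
`r ≤ N + 1`. Split the sum over `x ∈ T`: `d x w ≤ N`: group by `r = d x w` (`d x w = d w x`, so at most `s r` points `x`, the sphere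
around `w`): `≤ ∑_{r ≤ N} s r lam⁻¹^r ≤ 2 Sg`. `d x w ≥ N + 1`: every term is `≤ lam⁻¹^(N+1) ≤ 2 g⁻¹^(N+1)` (as `lam ≥ l0 ≥ 1`), total
`≤ 2 |T| / g^(N+1) ≤ 2 ≤ 2 Sg` (`Sg_ge_one`; `s 0 = 1` because `D.S w 0 = {w}`).
-/

namespace Pool.Agent.H99.TG

open Finset Pool.Agent.DLP Pool.Agent.CGA

variable {V E : Type} [DecidableEq V] [DecidableEq E] {G : Gr V E}

theorem sum_T_le (D : Geo G) {s : ℕ → ℕ} (hs : ∀ x r, (D.S x r).card = s r) {g l0 : ℝ}
    (hl0 : 1 < l0) (hg : l0 < g) {T : Finset V} (hT : T.Nonempty) :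
    ∃ lam : ℝ, l0 ≤ lam ∧ lam < g ∧
      ∀ w : V, ∑ x ∈ T, lam⁻¹ ^ D.d x w ≤ 4 * Sg s g T.card := by
  classical
  obtain ⟨x0, hx0⟩ := hT
  have hg1 : 1 < g := hl0.trans hg
  have hg0 : 0 < g := by linarith
  have hs0 : s 0 = 1 := by
    rw [← hs x0 0, Finset.card_eq_one]
    refine ⟨x0, ?_⟩
    ext y
    rw [mem_S, Finset.mem_singleton]
    constructor
    · intro h
      exact (D.eq_of x0 y h).symm
    · intro h
      rw [h]
      exact D.self x0
  set N : ℕ := ⌊Real.logb g T.card⌋₊ with hN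
  have hc1 : (1 : ℝ) ≤ T.card := by
    have : 1 ≤ T.card := Finset.card_pos.2 ⟨x0, hx0⟩
    exact_mod_cast this
  have hTN : (T.card : ℝ) < g ^ (N + 1) := by
    have h1 := Nat.lt_floor_add_one (Real.logb g T.card)
    rw [Real.logb_lt_iff_lt_rpow hg1 (by linarith)] at h1
    have h2 : ((N : ℝ) + 1) = ((N + 1 : ℕ) : ℝ) := by push_cast; ring
    rw [← hN, h2, Real.rpow_natCast] at h1
    exact h1
  have hN0 : (0 : ℝ) < (N : ℝ) + 1 := by positivity
  obtain ⟨lam, hlam⟩ : ∃ lam : ℝ, lam = max l0 (g * (1 - 1 / (2 * ((N : ℝ) + 1)))) := ⟨_, rfl⟩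
  have hll : l0 ≤ lam := by rw [hlam]; exact le_max_left _ _
  have hl1 : 1 < lam := hl0.trans_le hll
  have hlpos : 0 < lam := by linarith
  have hlg : lam < g := by
    rw [hlam, max_lt_iff]
    refine ⟨hg, ?_⟩
    have : 0 < 1 / (2 * ((N : ℝ) + 1)) := by positivity
    nlinarith
  -- the ratio
  have hr1 : 1 - 1 / (2 * ((N : ℝ) + 1)) ≤ lam / g := by
    rw [le_div_iff₀ hg0, mul_comm, hlam]
    exact le_max_right _ _
  have hr2 : lam / g ≤ 1 := by
    rw [div_le_one hg0]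
    exact hlg.le
  have hr0 : 0 < lam / g := by positivity
  have hr3 : (1 : ℝ) / 2 ≤ (lam / g) ^ (N + 1) := by
    have h1 : 0 ≤ 1 - 1 / (2 * ((N : ℝ) + 1)) := by
      rw [sub_nonneg, div_le_one (by positivity)]
      have : (0 : ℝ) ≤ N := Nat.cast_nonneg N
      linarith
    have h2 : (1 : ℝ) / 2 ≤ (1 - 1 / (2 * ((N : ℝ) + 1))) ^ (N + 1) := by
      have h3 := one_add_mul_le_pow (a := -(1 / (2 * ((N : ℝ) + 1)))) (by linarith) (N + 1)
      have h4 : 1 + ((N + 1 : ℕ) : ℝ) * -(1 / (2 * ((N : ℝ) + 1))) = 1 / 2 := by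
        push_cast
        field_simp
        ring
      rw [h4] at h3
      exact h3
    exact h2.trans (pow_le_pow_left₀ h1 hr1 _)
  have hrr : ∀ r : ℕ, r ≤ N + 1 → lam⁻¹ ^ r ≤ 2 * g⁻¹ ^ r := by
    intro r hr
    have h1 : (1 : ℝ) / 2 ≤ (lam / g) ^ r := hr3.trans (pow_le_pow_of_le_one hr0.le hr2 hr)
    have h2 : g⁻¹ ^ r = (lam / g) ^ r * lam⁻¹ ^ r := by
      rw [← mul_pow]
      congr 1
      field_simp
    have h3 : 0 < lam⁻¹ ^ r := by positivity
    rw [h2]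
    nlinarith
  have hli0 : 0 ≤ lam⁻¹ := by positivity
  have hli1 : lam⁻¹ ≤ 1 := inv_le_one_of_one_le₀ hl1.le
  refine ⟨lam, hll, hlg, fun w => ?_⟩
  have hSg1 : 1 ≤ Sg s g T.card := Sg_ge_one hg1 hs0 T.card
  rw [← Finset.sum_filter_add_sum_filter_not T (fun x => D.d x w ≤ N)]
  -- near points
  have hA : ∑ x ∈ T.filter (fun x => D.d x w ≤ N), lam⁻¹ ^ D.d x w ≤ 2 * Sg s g T.card := by
    have h1 : ∑ x ∈ T.filter (fun x => D.d x w ≤ N), lam⁻¹ ^ D.d x w =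
        ∑ r ∈ range (N + 1), ∑ x ∈ (T.filter (fun x => D.d x w ≤ N)).filter
          (fun x => D.d x w = r), lam⁻¹ ^ D.d x w := by
      rw [Finset.sum_fiberwise_of_maps_to]
      intro x hx
      rw [Finset.mem_filter] at hx
      rw [Finset.mem_range]
      omega
    rw [h1]
    have h2 : Sg s g T.card = ∑ r ∈ range (N + 1), (s r : ℝ) / g ^ r := rfl
    rw [h2, Finset.mul_sum]
    refine Finset.sum_le_sum fun r hr => ?_
    rw [Finset.mem_range] at hr
    have h3 : ∑ x ∈ (T.filter (fun x => D.d x w ≤ N)).filter (fun x => D.d x w = r),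
        lam⁻¹ ^ D.d x w =
        (((T.filter (fun x => D.d x w ≤ N)).filter (fun x => D.d x w = r)).card : ℝ) *
          lam⁻¹ ^ r := by
      rw [← nsmul_eq_mul, ← Finset.sum_const]
      refine Finset.sum_congr rfl fun x hx => ?_
      rw [Finset.mem_filter] at hx
      rw [hx.2]
    rw [h3]
    have h4 : ((T.filter (fun x => D.d x w ≤ N)).filter (fun x => D.d x w = r)).card ≤ s r := by
      rw [← hs w r]
      refine Finset.card_le_card fun x hx => ?_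
      rw [Finset.mem_filter] at hx
      rw [mem_S, D.symm]
      exact hx.2
    have h5 : (((T.filter (fun x => D.d x w ≤ N)).filter (fun x => D.d x w = r)).card : ℝ) ≤
        s r := by exact_mod_cast h4
    have h6 := hrr r (by omega)
    calc (((T.filter (fun x => D.d x w ≤ N)).filter (fun x => D.d x w = r)).card : ℝ) *
          lam⁻¹ ^ r ≤ (s r : ℝ) * (2 * g⁻¹ ^ r) :=
          mul_le_mul h5 h6 (by positivity) (Nat.cast_nonneg _)
      _ = 2 * ((s r : ℝ) / g ^ r) := by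
          rw [inv_pow]
          ring
  -- far points
  have hB : ∑ x ∈ T.filter (fun x => ¬ D.d x w ≤ N), lam⁻¹ ^ D.d x w ≤ 2 * Sg s g T.card := by
    have h1 : ∀ x ∈ T.filter (fun x => ¬ D.d x w ≤ N), lam⁻¹ ^ D.d x w ≤ 2 * g⁻¹ ^ (N + 1) := by
      intro x hx
      rw [Finset.mem_filter] at hx
      exact (pow_le_pow_of_le_one hli0 hli1 (by omega)).trans (hrr (N + 1) le_rfl)
    have h2 := Finset.sum_le_card_nsmul _ _ _ h1
    rw [nsmul_eq_mul] at h2
    have h3 : ((T.filter (fun x => ¬ D.d x w ≤ N)).card : ℝ) ≤ T.card := by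
      exact_mod_cast Finset.card_filter_le _ _
    have h4 : (T.card : ℝ) * (2 * g⁻¹ ^ (N + 1)) ≤ 2 := by
      have h5 : (T.card : ℝ) * g⁻¹ ^ (N + 1) ≤ 1 := by
        rw [inv_pow, ← div_eq_mul_inv, div_le_one (by positivity)]
        exact hTN.le
      linarith
    calc _ ≤ ((T.filter (fun x => ¬ D.d x w ≤ N)).card : ℝ) * (2 * g⁻¹ ^ (N + 1)) := h2
      _ ≤ (T.card : ℝ) * (2 * g⁻¹ ^ (N + 1)) := mul_le_mul_of_nonneg_right h3 (by positivity)
      _ ≤ 2 := h4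
      _ ≤ 2 * Sg s g T.card := by linarith
  linarith

end Pool.Agent.H99.TG
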