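import Pool.Agent.H99.TG.Phi
import Pool.Agent.H99.TG.SumB

/-!
# TG/PhiS: the accessible boundary of every finite set

`l0 = √g` or `(1 + g)/2`; `phi_lam` gives `κ`; for `T` take `lam` from `sum_T_le` and `Q = 4 Sg s g |T|`:
`κ |T| ≤ 4 Sg Φ`, so the constant is `κ / 4` (`Sg ≥ 1 > 0`: `Sg_ge_one`; `s 0 = 1`: `D.S x 0 = {x}`).
-/

namespace Pool.Agent.H99.TG

open Finset Pool.Agent.DLP Pool.Agent.CGA

variable {V E : Type} [DecidableEq V] [DecidableEq E] {G : Gr V E}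

theorem s_zero (D : Geo G) (x : V) : (D.S x 0).card = 1 := by
  have h : D.S x 0 = {x} := by
    ext y
    rw [mem_S, mem_singleton]
    exact ⟨fun h => (D.eq_of x y h).symm, fun h => by rw [h]; exact D.self x⟩
  rw [h, card_singleton]

theorem phi_S (D : Geo G) [Infinite V] {s : ℕ → ℕ} (hs : ∀ x r, (D.S x r).card = s r) {g : ℝ}
    (hg : 1 < g) (hge : ∀ r, g ^ r ≤ (s r : ℝ)) {p c : ℝ} (h0 : 0 < p) (h1 : p ≤ 1)
    (hc0 : 0 < c) (hc : ∀ x y : V, ∃ Λ : Finset V, c ≤ cp G p Λ x y) :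
    ∃ κ : ℝ, 0 < κ ∧ ∀ Λ T : Finset V, T ⊆ Λ → T.Nonempty →
      κ * ((T.card : ℝ) / Sg s g T.card) ≤ ∑ e ∈ G.cut T, G.acc p Λ T e := by
  obtain ⟨x0⟩ : Nonempty V := inferInstance
  have hs0 : s 0 = 1 := by rw [← hs x0 0, s_zero]
  have hl0 : 1 < (1 + g) / 2 := by linarith
  have hlg : (1 + g) / 2 < g := by linarith
  obtain ⟨κ, hκ, hphi⟩ := phi_lam D h0 h1 hc0 hc hl0 hlg
    (fun x r => by rw [hs x r]; exact hge r)
  refine ⟨κ / 4, by positivity, fun Λ T hTΛ hT => ?_⟩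
  obtain ⟨lam, h2, h3, h4⟩ := sum_T_le D hs hl0 hlg hT
  have h5 := hphi Λ T hTΛ hT lam h2 h3 (4 * Sg s g T.card) h4
  have h6 : 0 < Sg s g T.card := lt_of_lt_of_le one_pos (Sg_ge_one hg hs0 T.card)
  have h7 : κ / 4 * ((T.card : ℝ) / Sg s g T.card) = κ * T.card / (4 * Sg s g T.card) := by
    field_simp
  rw [h7, div_le_iff₀ (by positivity)]
  linarith

end Pool.Agent.H99.TG
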