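import Pool.Agent.H99.TG.Defs
import Pool.Agent.CGA.SGDefs

/-!
# TG/SG: transitive simple graphs

* `d = G.dist`, `B x n` = the finite set `{y | G.dist x y ≤ n}`: finite by induction on `n` (`G` connected, locally finite: a
  point at distance `n + 1` is adjacent to a point at distance `n`).
* `edge`: the two end points of an edge of `ofSG` are adjacent (`edge_out`, `SimpleGraph.mem_edgeSet`), so the distance is `1`.
* `step`: distance `1` means adjacent (`SimpleGraph.dist_eq_one_iff_adj`); the edge `⟨s(x, y), _⟩` (as `edge` in `isCay_cayG`,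
  `Pool/Agent/CGA/SGr.lean`).
* `mid`: the last vertex but one of a shortest walk from `x` to `y` (`SimpleGraph.Connected.exists_walk_length_eq_dist`), or: reverse a
  shortest walk and take its first step.
* `act`: from an automorphism `f : G ≃g G`: `AutS` with `v = f.toEquiv`, `e = f.mapEdgeSet` (see the end of
  `isCay_cayG`); `G.dist (f u) (f w) = G.dist u w` (`SimpleGraph.Iso`... or two inequalities from mapping walks).
-/

namespace Pool.Agent.H99.TG

open Finset Pool.Agent.DLP Pool.Agent.CGA

theorem sg_mid {V : Type} (G : SimpleGraph V) (hc : G.Connected) (x y : V) (n : ℕ)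
    (h : G.dist x y = n + 1) : ∃ z, G.dist x z = n ∧ G.Adj z y := by
  obtain ⟨w, hw⟩ := hc.exists_walk_length_eq_dist y x
  rw [SimpleGraph.dist_comm, h] at hw
  cases w with
  | nil => simp at hw
  | @cons _ z _ hz w =>
    have h1 : w.length = n := by simpa using hw
    have h2 : G.dist z x ≤ n := h1 ▸ SimpleGraph.dist_le w
    have h3 : G.dist x y ≤ G.dist x z + G.dist z y := hc.dist_triangle
    have h4 : G.dist z y = 1 := SimpleGraph.dist_eq_one_iff_adj.2 hz.symm
    refine ⟨z, ?_, hz.symm⟩
    rw [SimpleGraph.dist_comm] at h2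
    omega

theorem sg_ball {V : Type} (G : SimpleGraph V) (hc : G.Connected)
    (hf : ∀ v, (G.neighborSet v).Finite) (x : V) (n : ℕ) : {y | G.dist x y ≤ n}.Finite := by
  induction n with
  | zero =>
    refine (Set.finite_singleton x).subset ?_
    intro y hy
    have h1 : G.dist x y = 0 := Nat.le_zero.1 hy
    exact (hc.dist_eq_zero_iff.1 h1).symm
  | succ n ih =>
    refine (ih.union (ih.biUnion fun z _ => hf z)).subset ?_
    intro y hy
    rcases Nat.lt_or_ge n (G.dist x y) with h | h
    · obtain ⟨z, hz, hzy⟩ := sg_mid G hc x y n (le_antisymm hy h)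
      refine Or.inr (Set.mem_biUnion (x := z) (hz.le) ?_)
      exact hzy
    · exact Or.inl h

theorem sg_iso {V : Type} (G : SimpleGraph V) (hc : G.Connected) (f : G ≃g G) (u w : V) :
    G.dist (f u) (f w) = G.dist u w := by
  have key : ∀ (f : G ≃g G) (u w : V), G.dist (f u) (f w) ≤ G.dist u w := by
    intro f u w
    obtain ⟨p, hp⟩ := hc.exists_walk_length_eq_dist u w
    have h := SimpleGraph.dist_le (p.map f.toHom)
    rw [SimpleGraph.Walk.length_map, hp] at h
    exact h
  refine le_antisymm (key f u w) ?_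
  have h := key f.symm (f u) (f w)
  simpa using h

theorem exists_geo {V : Type} [DecidableEq V] (G : SimpleGraph V) (hc : G.Connected)
    (hf : ∀ v, (G.neighborSet v).Finite) (ht : ∀ x y : V, ∃ f : G ≃g G, f x = y) :
    ∃ D : Geo (ofSG G hf), D.d = G.dist := by
  refine ⟨{ d := G.dist
            B := fun x n => (sg_ball G hc hf x n).toFinset
            mem := ?_
            self := fun x => SimpleGraph.dist_self
            eq_of := fun x y h => hc.dist_eq_zero_iff.1 h
            symm := fun x y => SimpleGraph.dist_comm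
            tri := fun x y z => hc.dist_triangle
            edge := ?_
            step := ?_
            mid := ?_
            act := ?_ }, rfl⟩
  · intro x n y
    rw [Set.Finite.mem_toFinset]
    rfl
  · intro e
    have h := e.2
    rw [edge_out e, SimpleGraph.mem_edgeSet] at h
    exact (SimpleGraph.dist_eq_one_iff_adj.2 h).le
  · intro x y h
    have h1 : G.Adj x y := SimpleGraph.dist_eq_one_iff_adj.1 h
    have h2 := edge_out (⟨s(x, y), (SimpleGraph.mem_edgeSet _).2 h1⟩ : G.edgeSet)
    refine ⟨⟨s(x, y), (SimpleGraph.mem_edgeSet _).2 h1⟩, ?_⟩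
    rcases Sym2.eq_iff.1 h2 with h3 | h3
    · exact Or.inl ⟨h3.1.symm, h3.2.symm⟩
    · exact Or.inr ⟨h3.2.symm, h3.1.symm⟩
  · intro x y n h
    obtain ⟨z, hz, hzy⟩ := sg_mid G hc x y n h
    exact ⟨z, hz, SimpleGraph.dist_eq_one_iff_adj.2 hzy⟩
  · intro x y
    obtain ⟨f, hfx⟩ := ht x y
    refine ⟨⟨f.toEquiv, f.mapEdgeSet, ?_⟩, hfx, fun u w => sg_iso G hc f u w⟩
    intro e
    have h1 : ((f.mapEdgeSet e : G.edgeSet) : Sym2 V) =
        s(f (Quot.out e.1).1, f (Quot.out e.1).2) := by
      have h2 : ((f.mapEdgeSet e : G.edgeSet) : Sym2 V) = Sym2.map f e.1 := rfl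
      rw [h2]
      conv_lhs => rw [edge_out e]
      rfl
    have h3 := (edge_out (f.mapEdgeSet e)).symm.trans h1
    rcases Sym2.eq_iff.1 h3 with h4 | h4
    · exact Or.inl h4
    · exact Or.inr h4

end Pool.Agent.H99.TG
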