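import Pool.Agent.H99.TG.Pair

/-!
# TG/Sec: the second moment bound

As `sec_mom` in `Pool/Agent/CGA/SecM.lean` (finished).
`π q = pZ (z q) (m q) ≥ c^(m q) > 0` (`pZ_ge`). `F = G.off Λ T ∪ 𝓛.biUnion (fun q => inn (UZ (z q) (m q)))`,
`N ω = ∑_{q ∈ 𝓛} [OZ (z q) (m q) ω] / π q`.
* `ex p F N = |𝓛|` (`ex_sum`, `pZ_eq`).
* `ex p F N² = ∑_q ∑_{q'} P(OZ q ∧ OZ q') / (π q π q') ≤ ∑_q ∑_{q'} (1 + ∑_{i < m q'} c⁻¹^(i+1) [B (z q' i) R meets UZ q])`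
  (`pair_near'`) `≤ ∑_q (|𝓛| + ∑_{i < M} c⁻¹^(i+1) A α^i)`, `M = 𝓛.sup m` (exchange the sums; `hcount`)
  `≤ |𝓛| (|𝓛| + 2 A / c)` as `(α / c)^i ≤ 2⁻¹^i`, `∑ 2⁻¹^i ≤ 2`.
* `N ω > 0` implies that some `q ∈ 𝓛` has `OZ q ω`; the balls are disjoint from `T`; so `OZ_reach` joins `y = z q 0` to
  `z q (m q) ∉ Λ` off `T`: `Exit Λ ω {x | x ∉ T} y`, which depends only on the edges of `off Λ T` (`Gr.dep_exit`,
  `pr_dep`): `pr p F (0 < N) ≤ gx`.
* Cauchy–Schwarz (`ex_sq_le`): `|𝓛|² ≤ |𝓛| (|𝓛| + 2 A / c) gx`; divide by `|𝓛|` (if `|𝓛| = 0` the claim is `0 ≤ ...`).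
-/

namespace Pool.Agent.H99.TG

open Finset Pool.Agent.DLP Pool.Agent.CGA

variable {V E : Type} [DecidableEq V] [DecidableEq E] {G : Gr V E}

theorem sec_pr_exit (p : ℝ) (Λ T : Finset V) (y : V) {F : Finset E} (hF : G.off Λ T ⊆ F) :
    pr p F (fun ω : Finset E => G.Exit Λ (↑ω : Set E) {z | z ∉ T} y) = gx G p Λ T y := by
  rw [gx]
  refine pr_dep (Gr.dep_exit G Λ T y) fun i hi => ?_
  have hi' : i ∈ G.off Λ T := by
    rw [Gr.mem_off]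
    obtain ⟨hi1, hi2, hi3⟩ := hi
    rw [Gr.mem_touch] at hi1
    exact ⟨hi1, hi2, hi3⟩
  exact ⟨fun _ => hi', fun _ => hF hi'⟩

open Classical in
theorem sec_row (D : Geo G) {ι : Type} {c : ℝ} (hc0 : 0 < c) {R : ℕ} (𝓛 : Finset ι)
    (z : ι → ℕ → V) (m : ι → ℕ) {A α : ℝ} (hA : 0 ≤ A) (hα0 : 0 ≤ α) (hα : α ≤ c / 2) (q : ι)
    (hcount : ∀ j : ℕ, ((𝓛.filter (fun q' => j < m q' ∧
      ¬ Disjoint (D.B (z q' j) R) (UZ D R (z q) (m q)))).card : ℝ) ≤ A * α ^ j) :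
    ∑ q' ∈ 𝓛, (1 + ∑ i ∈ range (m q'), c⁻¹ ^ (i + 1) *
        (if ¬ Disjoint (D.B (z q' i) R) (UZ D R (z q) (m q)) then (1 : ℝ) else 0)) ≤
      (𝓛.card : ℝ) + 2 * A / c := by
  have hci : 0 < c⁻¹ := inv_pos.2 hc0
  set M : ℕ := 𝓛.sup m with hM
  have hmM : ∀ q' ∈ 𝓛, m q' ≤ M := fun q' h => Finset.le_sup h
  have e1 : ∀ q' ∈ 𝓛, ∑ i ∈ range (m q'), c⁻¹ ^ (i + 1) *
        (if ¬ Disjoint (D.B (z q' i) R) (UZ D R (z q) (m q)) then (1 : ℝ) else 0) =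
      ∑ i ∈ range M, c⁻¹ ^ (i + 1) *
        (if i < m q' ∧ ¬ Disjoint (D.B (z q' i) R) (UZ D R (z q) (m q)) then (1 : ℝ) else 0) := by
    intro q' h
    have hsub : range (m q') ⊆ range M := Finset.range_subset_range.2 (hmM q' h)
    rw [← Finset.sum_subset hsub (f := fun i => c⁻¹ ^ (i + 1) *
        (if i < m q' ∧ ¬ Disjoint (D.B (z q' i) R) (UZ D R (z q) (m q)) then (1 : ℝ) else 0))]
    · refine Finset.sum_congr rfl fun i hi => ?_
      rw [Finset.mem_range] at hi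
      simp only [hi, true_and]
    · intro i _ hi
      rw [Finset.mem_range] at hi
      simp only [hi, false_and, if_false, mul_zero]
  rw [Finset.sum_add_distrib, Finset.sum_congr rfl e1, Finset.sum_comm]
  have e2 : ∑ q' ∈ 𝓛, (1 : ℝ) = 𝓛.card := by
    rw [Finset.sum_const, nsmul_eq_mul, mul_one]
  have e3 : ∀ i ∈ range M, ∑ q' ∈ 𝓛, c⁻¹ ^ (i + 1) *
        (if i < m q' ∧ ¬ Disjoint (D.B (z q' i) R) (UZ D R (z q) (m q)) then (1 : ℝ) else 0) ≤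
      c⁻¹ * A * (1 / 2 : ℝ) ^ i := by
    intro i _
    rw [← Finset.mul_sum, Finset.sum_boole]
    have h1 := hcount i
    have h2 : (c⁻¹ * α) ^ i ≤ (1 / 2 : ℝ) ^ i := by
      refine pow_le_pow_left₀ (mul_nonneg hci.le hα0) ?_ i
      have h3 : c⁻¹ * α ≤ c⁻¹ * (c / 2) := mul_le_mul_of_nonneg_left hα hci.le
      have h4 : c⁻¹ * (c / 2) = 1 / 2 := by
        field_simp
      linarith
    calc c⁻¹ ^ (i + 1) * ((𝓛.filter (fun q' => i < m q' ∧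
          ¬ Disjoint (D.B (z q' i) R) (UZ D R (z q) (m q)))).card : ℝ)
        ≤ c⁻¹ ^ (i + 1) * (A * α ^ i) := mul_le_mul_of_nonneg_left h1 (pow_nonneg hci.le _)
      _ = c⁻¹ * A * (c⁻¹ * α) ^ i := by
          rw [mul_pow, pow_succ]
          ring
      _ ≤ c⁻¹ * A * (1 / 2 : ℝ) ^ i :=
          mul_le_mul_of_nonneg_left h2 (mul_nonneg hci.le hA)
  have e4 : ∀ K : ℕ, ∑ i ∈ range K, (1 / 2 : ℝ) ^ i = 2 - 2 * (1 / 2 : ℝ) ^ K := by
    intro K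
    induction K with
    | zero => simp
    | succ K ih =>
      rw [Finset.sum_range_succ, ih, pow_succ]
      ring
  have e5 : ∑ i ∈ range M, c⁻¹ * A * (1 / 2 : ℝ) ^ i ≤ 2 * A / c := by
    rw [← Finset.mul_sum, e4]
    have h3 : 0 ≤ (1 / 2 : ℝ) ^ M := by positivity
    calc c⁻¹ * A * (2 - 2 * (1 / 2 : ℝ) ^ M) ≤ c⁻¹ * A * 2 :=
          mul_le_mul_of_nonneg_left (by linarith) (mul_nonneg hci.le hA)
      _ = 2 * A / c := by
          rw [div_eq_mul_inv]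
          ring
  rw [e2]
  exact add_le_add le_rfl ((Finset.sum_le_sum e3).trans e5)

open Classical in
theorem sec_mom' (D : Geo G) {ι : Type} {p c : ℝ} (h0 : 0 ≤ p) (h1 : p ≤ 1) (hc0 : 0 < c)
    {R : ℕ} {Λ T : Finset V} {y : V} (𝓛 : Finset ι) (z : ι → ℕ → V) (m : ι → ℕ)
    (hz : ∀ q ∈ 𝓛, z q 0 = y)
    (hstep : ∀ q ∈ 𝓛, ∀ i < m q, c ≤ cp G p (D.B (z q i) R) (z q i) (z q (i + 1)))
    (havoid : ∀ q ∈ 𝓛, ∀ i < m q, Disjoint (D.B (z q i) R) T)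
    (hend : ∀ q ∈ 𝓛, z q (m q) ∉ Λ) {A α : ℝ} (hA : 0 ≤ A) (hα0 : 0 ≤ α) (hα : α ≤ c / 2)
    (hcount : ∀ q ∈ 𝓛, ∀ j : ℕ, ((𝓛.filter (fun q' => j < m q' ∧
      ¬ Disjoint (D.B (z q' j) R) (UZ D R (z q) (m q)))).card : ℝ) ≤ A * α ^ j) :
    (𝓛.card : ℝ) ≤ ((𝓛.card : ℝ) + 2 * A / c) * gx G p Λ T y := by
  set Q : ℝ := (𝓛.card : ℝ) + 2 * A / c with hQ
  have hci : 0 < c⁻¹ := inv_pos.2 hc0
  have hQ0 : 0 ≤ Q := by positivity
  set P : ι → ℝ := fun q => pZ D p R (z q) (m q) with hP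
  have hπ : ∀ q ∈ 𝓛, 0 < P q := fun q h =>
    lt_of_lt_of_le (pow_pos hc0 (m q)) (pZ_ge D h0 h1 hc0.le (hstep q h))
  set F : Finset E := G.off Λ T ∪ 𝓛.biUnion (fun q => G.inn (UZ D R (z q) (m q))) with hF
  have hFL : ∀ q ∈ 𝓛, G.inn (UZ D R (z q) (m q)) ⊆ F := by
    intro q h
    exact (Finset.subset_biUnion_of_mem (fun q => G.inn (UZ D R (z q) (m q))) h).trans
      subset_union_right
  set N : Finset E → ℝ := fun ω => ∑ q ∈ 𝓛, (P q)⁻¹ *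
    (if OZ D R (z q) (m q) ω then (1 : ℝ) else 0) with hN
  have hN0 : ∀ ω, ω ⊆ F → 0 ≤ N ω := by
    intro ω _
    refine Finset.sum_nonneg fun q h => mul_nonneg (inv_nonneg.2 (hπ q h).le) ?_
    split_ifs
    · exact zero_le_one
    · exact le_rfl
  have E1 : ex p F N = 𝓛.card := by
    rw [hN, ex_sum]
    have : ∀ q ∈ 𝓛, ex p F (fun ω => (P q)⁻¹ *
        (if OZ D R (z q) (m q) ω then (1 : ℝ) else 0)) = 1 := by
      intro q h
      rw [ex_mul_left]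
      have h2 : ex p F (fun ω => if OZ D R (z q) (m q) ω then (1 : ℝ) else 0) = P q := by
        rw [hP]
        simp only
        rw [← pZ_eq D p (hFL q h)]
        unfold pr
        refine ex_congr fun ω _ => ?_
        congr
      rw [h2, inv_mul_cancel₀ (hπ q h).ne']
    rw [Finset.sum_congr rfl this, Finset.sum_const, nsmul_eq_mul, mul_one]
  have E2 : ex p F (fun ω => N ω ^ 2) ≤ 𝓛.card * Q := by
    have e1 : ∀ ω, N ω ^ 2 = ∑ q ∈ 𝓛, ∑ q' ∈ 𝓛, ((P q)⁻¹ * (P q')⁻¹) *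
        (if OZ D R (z q) (m q) ω ∧ OZ D R (z q') (m q') ω then (1 : ℝ) else 0) := by
      intro ω
      rw [hN, sq, Finset.sum_mul_sum]
      refine Finset.sum_congr rfl fun q _ => Finset.sum_congr rfl fun q' _ => ?_
      by_cases h2 : OZ D R (z q) (m q) ω
      · by_cases h3 : OZ D R (z q') (m q') ω
        · simp [h2, h3]
        · simp [h3]
      · simp [h2]
    have e2 : ex p F (fun ω => N ω ^ 2) = ∑ q ∈ 𝓛, ∑ q' ∈ 𝓛,
        ((P q)⁻¹ * (P q')⁻¹) *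
          pr p F (fun ω => OZ D R (z q) (m q) ω ∧ OZ D R (z q') (m q') ω) := by
      rw [ex_congr (fun ω _ => e1 ω), ex_sum]
      refine Finset.sum_congr rfl fun q _ => ?_
      rw [ex_sum]
      refine Finset.sum_congr rfl fun q' _ => ?_
      rw [ex_mul_left]
      unfold pr
      congr 1
      refine ex_congr fun ω _ => ?_
      congr
    rw [e2]
    have e3 : ∀ q ∈ 𝓛, ∑ q' ∈ 𝓛, ((P q)⁻¹ * (P q')⁻¹) *
          pr p F (fun ω => OZ D R (z q) (m q) ω ∧ OZ D R (z q') (m q') ω) ≤ Q := by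
      intro q hL1
      refine le_trans ?_ (sec_row D hc0 𝓛 z m hA hα0 hα q (hcount q hL1))
      refine Finset.sum_le_sum ?_
      intro q' hL2
      have h2 := pair_near' D h0 h1 hc0 (hstep q' hL2) (hFL q hL1) (hFL q' hL2)
      have h3 : 0 ≤ (P q)⁻¹ * (P q')⁻¹ :=
        mul_nonneg (inv_nonneg.2 (hπ q hL1).le) (inv_nonneg.2 (hπ q' hL2).le)
      refine (mul_le_mul_of_nonneg_left h2 h3).trans (le_of_eq ?_)
      have h4 := (hπ q hL1).ne'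
      have h5 := (hπ q' hL2).ne'
      have h6 : (P q)⁻¹ * (P q')⁻¹ * (pZ D p R (z q) (m q) * pZ D p R (z q') (m q')) = 1 := by
        change (P q)⁻¹ * (P q')⁻¹ * (P q * P q') = 1
        field_simp
      rw [mul_left_comm, h6, mul_one]
    refine (Finset.sum_le_sum e3).trans (le_of_eq ?_)
    rw [Finset.sum_const, nsmul_eq_mul]
  have E3 : pr p F (fun ω => 0 < N ω) ≤ gx G p Λ T y := by
    rw [← sec_pr_exit p Λ T y (show G.off Λ T ⊆ F from subset_union_left)]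
    refine pr_mono h0 h1 fun ω _ hω => ?_
    have h2 : ∃ q ∈ 𝓛, OZ D R (z q) (m q) ω := by
      by_contra hcon
      push Not at hcon
      have : N ω = 0 := by
        refine Finset.sum_eq_zero fun q h => ?_
        rw [if_neg (hcon q h), mul_zero]
      rw [this] at hω
      exact lt_irrefl _ hω
    obtain ⟨q, h3, h4⟩ := h2
    refine ⟨z q (m q), hend q h3, ?_⟩
    have h5 : Disjoint (UZ D R (z q) (m q)) T := by
      rw [UZ, Finset.disjoint_biUnion_left]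
      intro i hi
      exact havoid q h3 i (Finset.mem_range.1 hi)
    have h6 := OZ_reach D h4 h5
    rwa [hz q h3] at h6
  have E4 := ex_sq_le h0 h1 hN0
  rw [E1] at E4
  have hg0 : 0 ≤ gx G p Λ T y := pr_nonneg h0 h1 _ _
  have E5 : (𝓛.card : ℝ) ^ 2 ≤ 𝓛.card * Q * gx G p Λ T y := by
    refine E4.trans ?_
    refine mul_le_mul E2 E3 (pr_nonneg h0 h1 _ _) (by positivity)
  by_cases hz : (𝓛.card : ℝ) = 0
  · rw [hz]
    positivity
  · have hpos : 0 < (𝓛.card : ℝ) := lt_of_le_of_ne (by positivity) (Ne.symm hz)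
    have E6 : (𝓛.card : ℝ) * 𝓛.card ≤ 𝓛.card * (Q * gx G p Λ T y) := by
      calc (𝓛.card : ℝ) * 𝓛.card = (𝓛.card : ℝ) ^ 2 := by ring
        _ ≤ 𝓛.card * Q * gx G p Λ T y := E5
        _ = 𝓛.card * (Q * gx G p Λ T y) := by ring
    exact le_of_mul_le_mul_left E6 hpos

end Pool.Agent.H99.TG
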