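import Pool.Agent.H99.TG.Defs

/-!
# TG/SumA: the growth sum `Sg s g n = ∑_{r ≤ log_g n} s r / g^r`

Put `u r = s r / g^r ≥ 1`, `u (m + n) ≤ u m * u n`.
* `Sg_ge_one`: the term `r = 0` is `s 0 = 1`, all terms are `≥ 0`.
* `Sg_mono`: `Real.logb` and the floor are monotone (for `m = 0` the floor is `0`: `Real.logb g 0 = 0`).
* `quasi`: let `n ≤ q m`, `1 ≤ n` (so `m ≥ 1`). If `m ≤ n`: `Sg m ≤ Sg n` and `m ≥ n / q`, so
  `m / Sg m ≥ (1/q) (n / Sg n)`. If `n < m`: `R = ⌊log_g n⌋`, `R + k = ⌊log_g m⌋` (`k ≥ 0`):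
  `Sg m = ∑_{r ≤ R} u r + ∑_{i=1}^{k} u (R + i) ≤ Sg n + u R ∑_{i=1}^k u i ≤ Sg n (1 + W k)`, `W k = ∑_{i ≤ k} u i`
  (`u R ≤ Sg n`), and `m ≥ g^(R+k)`, `n < g^(R+1)`, so `m ≥ n g^(k-1)`. With `hA` (`u i ≤ A (√g)^i`):
  `1 + W k ≤ 1 + A (k+1) (√g)^k ≤ A' g^k` for a constant `A'` (`(k+1) ≤ A'' (√g)^k`). So
  `m / Sg m ≥ n g^(k-1) / (Sg n A' g^k) = (1 / (g A')) n / Sg n`. `b = min (1/q) (1/(g A'))`.
-/

set_option autoImplicit false

namespace Pool.Agent.H99.TG

open Finset

theorem SumA_nonneg {s : ℕ → ℕ} {g : ℝ} (hg : 1 < g) (r : ℕ) : 0 ≤ (s r : ℝ) / g ^ r := by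
  positivity

theorem Sg_ge_one {s : ℕ → ℕ} {g : ℝ} (hg : 1 < g) (h0 : s 0 = 1) (n : ℕ) : 1 ≤ Sg s g n := by
  have h1 : (s 0 : ℝ) / g ^ 0 ≤ Sg s g n :=
    Finset.single_le_sum (f := fun r => (s r : ℝ) / g ^ r) (fun r _ => SumA_nonneg hg r)
      (Finset.mem_range.2 (Nat.succ_pos _))
  simpa [h0] using h1

theorem SumA_floor {g : ℝ} (hg : 1 < g) {m n : ℕ} (h : m ≤ n) :
    ⌊Real.logb g m⌋₊ ≤ ⌊Real.logb g n⌋₊ := by
  rcases Nat.eq_zero_or_pos m with rfl | hm
  · simp
  · exact Nat.floor_mono (Real.logb_le_logb_of_le hg (by exact_mod_cast hm) (by exact_mod_cast h))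

theorem Sg_mono {s : ℕ → ℕ} {g : ℝ} (hg : 1 < g) {m n : ℕ} (h : m ≤ n) :
    Sg s g m ≤ Sg s g n := by
  unfold Sg
  apply Finset.sum_le_sum_of_subset_of_nonneg
  · intro r hr
    rw [Finset.mem_range] at hr ⊢
    have := SumA_floor hg h
    omega
  · intro r _ _
    exact SumA_nonneg hg r

theorem quasi {s : ℕ → ℕ} {g A : ℝ} (hg : 1 < g) (h0 : s 0 = 1)
    (hsub : ∀ m n, s (m + n) ≤ s m * s n) (hge : ∀ r, g ^ r ≤ s r) (hA1 : 1 ≤ A)
    (hA : ∀ r, (s r : ℝ) / g ^ r ≤ A * √g ^ r) (q : ℕ) (hq : 1 ≤ q) :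
    ∃ b : ℝ, 0 < b ∧ ∀ n m : ℕ, 1 ≤ n → n ≤ q * m →
      b * ((n : ℝ) / Sg s g n) ≤ (m : ℝ) / Sg s g m := by
  have hg0 : 0 < g := by linarith
  have hsg : 1 < √g := by
    rw [Real.lt_sqrt (by norm_num)]
    simpa using hg
  have hss : √g * √g = g := Real.mul_self_sqrt hg0.le
  set C : ℝ := 1 + A / (√g - 1) with hC
  have hCpos : 0 < C := by
    have : 0 < A / (√g - 1) := div_pos (by linarith) (by linarith)
    linarith
  have hqpos : (0 : ℝ) < q := by exact_mod_cast hq
  refine ⟨min (1 / q) (1 / (g * C)), lt_min (by positivity) (by positivity), ?_⟩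
  intro n m hn hnm
  have hSn : 1 ≤ Sg s g n := Sg_ge_one hg h0 n
  have hSm : 1 ≤ Sg s g m := Sg_ge_one hg h0 m
  have hn1 : (1 : ℝ) ≤ n := by exact_mod_cast hn
  have hnq : (n : ℝ) ≤ q * m := by exact_mod_cast hnm
  have hnS : 0 ≤ (n : ℝ) / Sg s g n := by positivity
  rcases Nat.le_total m n with hmn | hmn
  · -- `m ≤ n`
    have h1 : Sg s g m ≤ Sg s g n := Sg_mono hg hmn
    calc min (1 / (q : ℝ)) (1 / (g * C)) * ((n : ℝ) / Sg s g n)
        ≤ 1 / q * ((n : ℝ) / Sg s g n) := mul_le_mul_of_nonneg_right (min_le_left _ _) hnS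
      _ = (n / q) / Sg s g n := by ring
      _ ≤ m / Sg s g n := by
          apply div_le_div_of_nonneg_right _ (by linarith)
          rw [div_le_iff₀ hqpos]
          linarith
      _ ≤ m / Sg s g m := by
          apply div_le_div_of_nonneg_left (by positivity) (by linarith) h1
  · -- `n ≤ m`
    have hm1 : (1 : ℝ) ≤ m := hn1.trans (by exact_mod_cast hmn)
    obtain ⟨k, hk⟩ := Nat.exists_eq_add_of_le (SumA_floor hg hmn)
    set R := ⌊Real.logb g n⌋₊ with hR
    set K := ⌊Real.logb g m⌋₊ with hK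
    have e1 : g ^ K ≤ m := by
      have h1 : (K : ℝ) ≤ Real.logb g m := Nat.floor_le (Real.logb_nonneg hg hm1)
      rw [Real.le_logb_iff_rpow_le hg (by linarith), Real.rpow_natCast] at h1
      exact h1
    have e2 : (n : ℝ) < g ^ (R + 1) := by
      have h1 : Real.logb g n < ((R + 1 : ℕ) : ℝ) := by
        push_cast
        exact Nat.lt_floor_add_one _
      rw [Real.logb_lt_iff_lt_rpow hg (by linarith), Real.rpow_natCast] at h1
      exact h1
    have hRS : (s R : ℝ) / g ^ R ≤ Sg s g n :=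
      Finset.single_le_sum (f := fun r => (s r : ℝ) / g ^ r) (fun r _ => SumA_nonneg hg r)
        (Finset.mem_range.2 (Nat.lt_succ_self R))
    have hterm : ∀ i ∈ Finset.range k, (s (R + 1 + i) : ℝ) / g ^ (R + 1 + i) ≤
        Sg s g n * (A * √g ^ k) := by
      intro i hi
      rw [Finset.mem_range] at hi
      have h1 : (s (R + 1 + i) : ℝ) ≤ s R * s (i + 1) := by
        have h2 := hsub R (i + 1)
        have h3 : R + (i + 1) = R + 1 + i := by ring
        rw [h3] at h2
        exact_mod_cast h2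
      calc (s (R + 1 + i) : ℝ) / g ^ (R + 1 + i)
          ≤ (s R * s (i + 1)) / g ^ (R + 1 + i) :=
            div_le_div_of_nonneg_right h1 (by positivity)
        _ = (s R / g ^ R) * (s (i + 1) / g ^ (i + 1)) := by
            rw [show R + 1 + i = R + (i + 1) by ring, pow_add, mul_div_mul_comm]
        _ ≤ Sg s g n * (A * √g ^ k) := by
            apply mul_le_mul hRS _ (SumA_nonneg hg _) (by linarith)
            refine (hA (i + 1)).trans ?_
            apply mul_le_mul_of_nonneg_left _ (by linarith)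
            exact pow_le_pow_right₀ hsg.le (by omega)
    have hSm' : Sg s g m ≤ Sg s g n * (C * g ^ k) := by
      have h1 : Sg s g m = Sg s g n + ∑ i ∈ Finset.range k, (s (R + 1 + i) : ℝ) / g ^ (R + 1 + i) := by
        unfold Sg
        rw [← hK, ← hR, hk, show R + k + 1 = R + 1 + k by ring, Finset.sum_range_add]
      have h2 := Finset.sum_le_sum hterm
      rw [Finset.sum_const, Finset.card_range, nsmul_eq_mul] at h2
      have hsk : √g ^ k * √g ^ k = g ^ k := by rw [← mul_pow, hss]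
      have h3 : (k : ℝ) ≤ √g ^ k / (√g - 1) := by
        rw [le_div_iff₀ (by linarith)]
        have h4 := one_add_mul_le_pow (a := √g - 1) (by linarith) k
        have h5 : 1 + (√g - 1) = √g := by ring
        rw [h5] at h4
        linarith
      have h6 : (k : ℝ) * (A * √g ^ k) ≤ A / (√g - 1) * g ^ k := by
        calc (k : ℝ) * (A * √g ^ k) ≤ √g ^ k / (√g - 1) * (A * √g ^ k) := by
              apply mul_le_mul_of_nonneg_right h3
              have : 0 ≤ √g ^ k := by positivity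
              have : 0 ≤ A := by linarith
              positivity
          _ = A / (√g - 1) * (√g ^ k * √g ^ k) := by ring
          _ = A / (√g - 1) * g ^ k := by rw [hsk]
      have h7 : (1 : ℝ) ≤ g ^ k := one_le_pow₀ hg.le
      rw [h1]
      calc Sg s g n + ∑ i ∈ Finset.range k, (s (R + 1 + i) : ℝ) / g ^ (R + 1 + i)
          ≤ Sg s g n + k * (Sg s g n * (A * √g ^ k)) := by linarith
        _ = Sg s g n * (1 + k * (A * √g ^ k)) := by ring
        _ ≤ Sg s g n * (C * g ^ k) := by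
            apply mul_le_mul_of_nonneg_left _ (by linarith)
            rw [hC, add_mul]
            linarith
    have hmg : (n : ℝ) * g ^ k / g ≤ m := by
      calc (n : ℝ) * g ^ k / g ≤ g ^ (R + 1) * g ^ k / g := by
            apply div_le_div_of_nonneg_right _ hg0.le
            exact mul_le_mul_of_nonneg_right e2.le (by positivity)
        _ = g ^ K := by
            rw [hk, pow_add g R k, pow_succ]
            field_simp
        _ ≤ m := e1
    calc min (1 / (q : ℝ)) (1 / (g * C)) * ((n : ℝ) / Sg s g n)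
        ≤ 1 / (g * C) * ((n : ℝ) / Sg s g n) :=
          mul_le_mul_of_nonneg_right (min_le_right _ _) hnS
      _ = (n * g ^ k / g) / (Sg s g n * (C * g ^ k)) := by
          have : g ^ k ≠ 0 := by positivity
          have : Sg s g n ≠ 0 := by linarith
          field_simp
      _ ≤ m / (Sg s g n * (C * g ^ k)) := by
          apply div_le_div_of_nonneg_right hmg
          have : 0 < Sg s g n := by linarith
          positivity
      _ ≤ m / Sg s g m := by
          apply div_le_div_of_nonneg_left (by positivity) (by linarith) hSm'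

end Pool.Agent.H99.TG
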