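import Pool.Agent.H99.TG.SumA

/-!
# TG/SumC: the growth sum is `n^{o(1)}`

`growth_upc`: as `growth_up`, with an arbitrary `c > 1` in place of `√g`. `Sg_sub`: with `c = g^η`,
`∑_{r ≤ R} s r / g^r ≤ A ∑_{r ≤ R} c^r ≤ A c^(R+1) / (c - 1)` and `c^R = g^(η R) ≤ n^η` for `R = ⌊log_g n⌋`.
-/

namespace Pool.Agent.H99.TG

open Finset Filter Topology

theorem growth_upc {s : ℕ → ℕ} {g c : ℝ} (hg : 1 < g) (hq1 : 1 < c)
    (hlim : Tendsto (fun r : ℕ => (s r : ℝ) ^ ((1 : ℝ) / r)) atTop (𝓝 g)) :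
    ∃ A : ℝ, 1 ≤ A ∧ ∀ r, (s r : ℝ) / g ^ r ≤ A * c ^ r := by
  have hg0 : 0 < g := by linarith
  have hq0 : 0 < c := by linarith
  have h1 : g < g * c := lt_mul_of_one_lt_right hg0 hq1
  obtain ⟨r₀, hr₀⟩ := eventually_atTop.1 (hlim.eventually_lt_const h1)
  have hA0 : ∀ r, (0 : ℝ) ≤ s r := fun r => Nat.cast_nonneg _
  refine ⟨1 + ∑ r ∈ Finset.range (r₀ + 1), (s r : ℝ),
    le_add_of_nonneg_right (Finset.sum_nonneg fun r _ => hA0 r), fun r => ?_⟩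
  have hsum : (0 : ℝ) ≤ ∑ r ∈ Finset.range (r₀ + 1), (s r : ℝ) :=
    Finset.sum_nonneg fun r _ => hA0 r
  have hgr : (0 : ℝ) < g ^ r := pow_pos hg0 r
  have hqr : (1 : ℝ) ≤ c ^ r := one_le_pow₀ hq1.le
  by_cases hr : r < r₀ + 1
  · have h2 : (s r : ℝ) ≤ ∑ r ∈ Finset.range (r₀ + 1), (s r : ℝ) :=
      Finset.single_le_sum (f := fun r => (s r : ℝ)) (fun r _ => hA0 r) (Finset.mem_range.2 hr)
    have h3 : (s r : ℝ) / g ^ r ≤ s r := div_le_self (hA0 r) (one_le_pow₀ hg.le)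
    nlinarith
  · have hr' : r₀ ≤ r := by omega
    have hrpos : (0 : ℝ) < r := by
      have : 0 < r := by omega
      exact_mod_cast this
    have h2 := hr₀ r hr'
    have h3 : (s r : ℝ) ≤ (g * c) ^ r := by
      have h4 : ((s r : ℝ) ^ ((1 : ℝ) / r)) ^ r = s r := by
        rw [← Real.rpow_natCast, ← Real.rpow_mul (hA0 r)]
        have : (1 : ℝ) / r * r = 1 := by field_simp
        rw [this, Real.rpow_one]
      rw [← h4]
      exact pow_le_pow_left₀ (Real.rpow_nonneg (hA0 r) _) h2.le r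
    rw [mul_pow] at h3
    have h5 : (s r : ℝ) / g ^ r ≤ c ^ r := by
      rw [div_le_iff₀ hgr]
      linarith
    nlinarith

theorem Sg_sub {s : ℕ → ℕ} {g : ℝ} (hg : 1 < g)
    (hlim : Tendsto (fun r : ℕ => (s r : ℝ) ^ ((1 : ℝ) / r)) atTop (𝓝 g)) {η : ℝ} (hη : 0 < η) :
    ∃ B : ℝ, ∀ n : ℕ, 1 ≤ n → Sg s g n ≤ B * (n : ℝ) ^ η := by
  have hg0 : 0 < g := by linarith
  have hc : 1 < g ^ η := Real.one_lt_rpow hg hη
  obtain ⟨A, hA1, hA⟩ := growth_upc hg hc hlim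
  refine ⟨A * (g ^ η / (g ^ η - 1)), fun n hn => ?_⟩
  have hn0 : (0 : ℝ) < n := by exact_mod_cast hn
  have hn1 : (1 : ℝ) ≤ n := by exact_mod_cast hn
  have hc0 : 0 < g ^ η := by linarith
  have hc1 : 0 < g ^ η - 1 := by linarith
  set R := ⌊Real.logb g n⌋₊ with hR
  have hRl : (R : ℝ) ≤ Real.logb g n := Nat.floor_le (Real.logb_nonneg hg hn1)
  have hcR : (g ^ η) ^ R ≤ (n : ℝ) ^ η := by
    rw [← Real.rpow_natCast, ← Real.rpow_mul hg0.le, mul_comm, Real.rpow_mul hg0.le]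
    apply Real.rpow_le_rpow (Real.rpow_nonneg hg0.le _) _ hη.le
    rw [← Real.le_logb_iff_rpow_le hg hn0]
    exact hRl
  have hgeo : ∑ r ∈ Finset.range (R + 1), (g ^ η) ^ r ≤ (g ^ η / (g ^ η - 1)) * (g ^ η) ^ R := by
    rw [geom_sum_eq hc.ne', div_mul_eq_mul_div]
    apply div_le_div_of_nonneg_right _ hc1.le
    rw [pow_succ]
    nlinarith [pow_pos hc0 R]
  calc Sg s g n ≤ ∑ r ∈ Finset.range (R + 1), A * (g ^ η) ^ r :=
        Finset.sum_le_sum fun r _ => hA r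
    _ = A * ∑ r ∈ Finset.range (R + 1), (g ^ η) ^ r := by rw [Finset.mul_sum]
    _ ≤ A * ((g ^ η / (g ^ η - 1)) * (g ^ η) ^ R) :=
        mul_le_mul_of_nonneg_left hgeo (by linarith)
    _ ≤ A * ((g ^ η / (g ^ η - 1)) * (n : ℝ) ^ η) := by
        apply mul_le_mul_of_nonneg_left _ (by linarith)
        exact mul_le_mul_of_nonneg_left hcR (by positivity)
    _ = A * (g ^ η / (g ^ η - 1)) * (n : ℝ) ^ η := by ring

end Pool.Agent.H99.TG
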