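import Pool.Agent.H99.TG.Pack
import Pool.Agent.H99.TG.Aut
import Pool.Agent.H99.TG.TriT

/-!
# TG/Three: three disjoint arms have small probability in suitable finite sets (amenability)

As `three_small` in `Pool/Agent/CGA/ThreeG.lean` (finished), with base point `o = x₁`. Let `n` be the maximum of the
distances of `o` to `x₂`, `x₃`; `k = |inn (B o n)|`, `β = |B o n|`, `β' = |B o (2n)|`.
Choose `η > 0` with `η β ≤ 1/2` and `2 η β' ≤ ε p^k`, and (`Fol`) `R` nonempty with `|cut R| ≤ η |R|`; so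
`|vb G R| ≤ η |R|` (`vb_card_le`). `exists_pack'` gives `P` with `|R| ≤ 2 |P| β'`.
For `g ∈ P` let `φ_g` be the automorphism of `D.act o g`: `B g n = (B o n).map φ_g` (`map_B`), the points `φ_g x_i` are in
`B g n`, `|inn (B g n)| = k` (`card_inn_aut`). `sum_tri_le'` (connected by `ball_conn'`) and `tri_of_three'`:
`∑_{g ∈ P} p^k pr p (inn R) (ThreeT G R (φ_g x₁) (φ_g x₂) (φ_g x₃)) ≤ |vb G R| ≤ 2 η β' |P|`. So some `g ∈ P` has
`pr p (inn R) (ThreeT ..) ≤ ε`. Let `Λ = R.map φ_g⁻¹` (the inverse automorphism: define it from `φ_g.v.symm`, `φ_g.e.symm`, or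
use `D.act g o`? no: take the inverse of `φ_g`), so `R = Λ.map φ_g`; `three_aut`.
-/

namespace Pool.Agent.H99.TG

open Finset Pool.Agent.DLP Pool.Agent.CGA

variable {V E : Type} [DecidableEq V] [DecidableEq E] {G : Gr V E}

/-- the inverse automorphism -/
def Three_inv (φ : AutS G) : AutS G where
  v := φ.v.symm
  e := φ.e.symm
  h x := by
    have h := φ.h (φ.e.symm x)
    rw [Equiv.apply_symm_apply] at h
    rcases h with ⟨h1, h2⟩ | ⟨h1, h2⟩
    · left
      rw [h1, h2, Equiv.symm_apply_apply, Equiv.symm_apply_apply]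
      exact ⟨rfl, rfl⟩
    · right
      rw [h1, h2, Equiv.symm_apply_apply, Equiv.symm_apply_apply]
      exact ⟨rfl, rfl⟩

theorem three_small' (D : Geo G) (hF : Fol G) {p : ℝ} (h0 : 0 < p) (h1 : p ≤ 1)
    (x₁ x₂ x₃ : V) {ε : ℝ} (hε : 0 < ε) :
    ∃ Λ : Finset V, x₁ ∈ Λ ∧ x₂ ∈ Λ ∧ x₃ ∈ Λ ∧
      pr p (G.inn Λ) (ThreeT G Λ x₁ x₂ x₃) ≤ ε := by
  obtain ⟨n, hn⟩ : ∃ n, n = max (D.d x₁ x₂) (D.d x₁ x₃) := ⟨_, rfl⟩
  have hx₁ : x₁ ∈ D.B x₁ n := self_mem_B D x₁ n
  have hx₂ : x₂ ∈ D.B x₁ n := (D.mem _ _ _).2 (by rw [hn]; exact le_max_left _ _)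
  have hx₃ : x₃ ∈ D.B x₁ n := (D.mem _ _ _).2 (by rw [hn]; exact le_max_right _ _)
  obtain ⟨k, hk⟩ : ∃ k, k = (G.inn (D.B x₁ n)).card := ⟨_, rfl⟩
  obtain ⟨β, hβ⟩ : ∃ β, β = (D.B x₁ n).card := ⟨_, rfl⟩
  obtain ⟨β', hβ'⟩ : ∃ β', β' = (D.B x₁ (2 * n)).card := ⟨_, rfl⟩
  have hβ1 : 1 ≤ β := by
    rw [hβ]
    exact Finset.card_pos.2 ⟨x₁, hx₁⟩
  have hβ'1 : 1 ≤ β' := by
    rw [hβ']
    exact Finset.card_pos.2 ⟨x₁, self_mem_B D x₁ (2 * n)⟩
  have hβR : (1 : ℝ) ≤ β := by exact_mod_cast hβ1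
  have hβ'R : (1 : ℝ) ≤ β' := by exact_mod_cast hβ'1
  have hpk : 0 < p ^ k := pow_pos h0 k
  obtain ⟨η, hη0, hη1, hη2⟩ : ∃ η : ℝ, 0 < η ∧ η * β ≤ 1 / 2 ∧ 2 * η * β' ≤ ε * p ^ k := by
    refine ⟨min (1 / (2 * β)) (ε * p ^ k / (2 * β')), ?_, ?_, ?_⟩
    · exact lt_min (by positivity) (by positivity)
    · have h2 := min_le_left (1 / (2 * (β : ℝ))) (ε * p ^ k / (2 * β'))
      calc min (1 / (2 * (β : ℝ))) (ε * p ^ k / (2 * β')) * β ≤ 1 / (2 * β) * β :=
            mul_le_mul_of_nonneg_right h2 (by positivity)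
        _ = 1 / 2 := by field_simp
    · have h2 := min_le_right (1 / (2 * (β : ℝ))) (ε * p ^ k / (2 * β'))
      calc 2 * min (1 / (2 * (β : ℝ))) (ε * p ^ k / (2 * β')) * β'
          = min (1 / (2 * (β : ℝ))) (ε * p ^ k / (2 * β')) * (2 * β') := by ring
        _ ≤ ε * p ^ k / (2 * β') * (2 * β') :=
            mul_le_mul_of_nonneg_right h2 (by positivity)
        _ = ε * p ^ k := by field_simp
  obtain ⟨R, hRne, hRcut⟩ := hF η hη0
  have hbd : ((vb G R).card : ℝ) ≤ η * R.card := by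
    refine le_trans ?_ hRcut
    exact_mod_cast vb_card_le R
  obtain ⟨P, hP1, hP2, hP3⟩ := exists_pack' D x₁ R n
  have hRpos : (0 : ℝ) < R.card := by exact_mod_cast Finset.card_pos.2 hRne
  have hP3' : (R.card : ℝ) ≤ (vb G R).card * β + P.card * β' := by
    rw [hβ, hβ']
    exact_mod_cast hP3
  have hRP : (R.card : ℝ) ≤ 2 * (P.card * β') := by
    have h2 : ((vb G R).card : ℝ) * β ≤ R.card * (1 / 2) := by
      calc ((vb G R).card : ℝ) * β ≤ η * R.card * β :=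
            mul_le_mul_of_nonneg_right hbd (by positivity)
        _ = R.card * (η * β) := by ring
        _ ≤ R.card * (1 / 2) := mul_le_mul_of_nonneg_left hη1 hRpos.le
    linarith
  have hPne : P.Nonempty := by
    by_contra hc
    rw [Finset.not_nonempty_iff_eq_empty] at hc
    rw [hc] at hRP
    simp at hRP
    exact absurd hRne (by rw [hRP]; simp)
  have hinj : Set.InjOn (fun g => D.B g n) (P : Set V) := by
    intro g hg h hh he
    by_contra hne
    have h2 := hP2 g hg h hh hne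
    simp only at he
    rw [← he, Finset.disjoint_self_iff_empty] at h2
    have h3 : g ∈ D.B g n := self_mem_B D g n
    rw [h2] at h3
    simp at h3
  have hsum := sum_tri_le' G h0.le h1 R (P.image fun g => D.B g n)
    (by
      intro B hB
      obtain ⟨g, hg, rfl⟩ := Finset.mem_image.1 hB
      exact ⟨g, self_mem_B D g n⟩)
    (by
      intro B hB B' hB' hne
      obtain ⟨g, hg, rfl⟩ := Finset.mem_image.1 hB
      obtain ⟨h, hh, rfl⟩ := Finset.mem_image.1 hB'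
      exact hP2 g hg h hh (fun e => hne (by rw [e])))
    (by
      intro B hB
      obtain ⟨g, hg, rfl⟩ := Finset.mem_image.1 hB
      exact (hP1 g hg).1)
    (by
      intro B hB ω hω x hx y hy
      obtain ⟨g, hg, rfl⟩ := Finset.mem_image.1 hB
      exact ball_conn' D g n hω hx hy)
  rw [Finset.sum_image (fun g hg h hh he => hinj hg hh he)] at hsum
  choose φ hφ using fun g : V => D.act x₁ g
  have hφB : ∀ g, D.B g n = (D.B x₁ n).map (φ g).v.toEmbedding := by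
    intro g
    have h2 := map_B D (φ g) (hφ g).2 x₁ n
    rwa [(hφ g).1] at h2
  have hmemφ : ∀ g x, x ∈ D.B x₁ n → (φ g).v x ∈ D.B g n := by
    intro g x hx
    rw [hφB g]
    exact Finset.mem_map_of_mem _ hx
  have hle : ∑ g ∈ P, p ^ k * pr p (G.inn R)
      (ThreeT G R ((φ g).v x₁) ((φ g).v x₂) ((φ g).v x₃)) ≤ ∑ g ∈ P, (2 * η * β') := by
    calc ∑ g ∈ P, p ^ k * pr p (G.inn R)
          (ThreeT G R ((φ g).v x₁) ((φ g).v x₂) ((φ g).v x₃))
        ≤ ∑ g ∈ P, pr p (G.inn R) (TriT G R (D.B g n)) := by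
          apply Finset.sum_le_sum
          intro g hg
          have h2 := tri_of_three' G h0.le h1 (hP1 g hg).1 (hP1 g hg).2
            (hmemφ g x₁ hx₁) (hmemφ g x₂ hx₂) (hmemφ g x₃ hx₃)
          have h3 : (G.inn (D.B g n)).card = k := by
            rw [hφB g, card_inn_aut, hk]
          rw [h3] at h2
          exact h2
      _ ≤ ((vb G R).card : ℝ) := hsum
      _ ≤ η * R.card := hbd
      _ ≤ η * (2 * (P.card * β')) := mul_le_mul_of_nonneg_left hRP hη0.le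
      _ = ∑ g ∈ P, (2 * η * β') := by
          rw [Finset.sum_const, nsmul_eq_mul]
          ring
  obtain ⟨g, hg, hgle⟩ := Finset.exists_le_of_sum_le hPne hle
  have hgR : ∀ x ∈ D.B x₁ n, x ∈ R.map (Three_inv (φ g)).v.toEmbedding := by
    intro x hx
    rw [Finset.mem_map]
    exact ⟨(φ g).v x, (hP1 g hg).1 (hmemφ g x hx), (φ g).v.symm_apply_apply x⟩
  refine ⟨R.map (Three_inv (φ g)).v.toEmbedding, hgR _ hx₁, hgR _ hx₂, hgR _ hx₃, ?_⟩
  have h2 := three_aut (Three_inv (φ g)) p R ((φ g).v x₁) ((φ g).v x₂) ((φ g).v x₃)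
  have h4 : ∀ x, (Three_inv (φ g)).v ((φ g).v x) = x := fun x => (φ g).v.symm_apply_apply x
  rw [h4, h4, h4] at h2
  rw [h2]
  have h3 : p ^ k * pr p (G.inn R) (ThreeT G R ((φ g).v x₁) ((φ g).v x₂) ((φ g).v x₃)) ≤
      p ^ k * ε := by
    linarith
  exact le_of_mul_le_mul_left h3 hpk

end Pool.Agent.H99.TG
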